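import Mathlib

set_option autoImplicit false

/-!
# Algorithmically random digit sequences, and the counting functions: definitions
-/

namespace Pool.Agent.Helper88.EL

/-- The integer with the binary digits `b 0, b 1, …, b (k - 1)` (the most significant first). -/
def num (b : ℕ → Bool) : ℕ → ℕ
  | 0 => 0
  | k + 1 => 2 * num b k + (b k).toNat

/-- A Schnorr test (in the form of a computable sequence of clopen sets): the `j`-th set consists of
the sequences `b` with `D j (num b (u j)) = true`, it is decided by the first `u j` digits, and its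
measure is at most `2 ^ (-j)`. -/
structure SchnorrTest (u : ℕ → ℕ) (D : ℕ → ℕ → Bool) : Prop where
  cu : Computable u
  cD : Computable₂ D
  small : ∀ j, 2 ^ j * ((Finset.range (2 ^ u j)).filter (fun x => D j x = true)).card ≤ 2 ^ u j

/-- Schnorr random sequences: those which are in only finitely many sets of each Schnorr test. -/
def Schnorr (b : ℕ → Bool) : Prop :=
  ∀ (u : ℕ → ℕ) (D : ℕ → ℕ → Bool), SchnorrTest u D → {j | D j (num b (u j)) = true}.Finite

/-- A Martin-Löf test: `U j k x` means that the string of the length `k` with the integer `x` is put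
into the `j`-th set, which is an open set, of measure at most `2 ^ (-j)`, uniformly computably
enumerable. -/
structure MartinLofTest (U : ℕ → ℕ → ℕ → Prop) : Prop where
  ce : REPred fun x : ℕ × ℕ × ℕ => U x.1 x.2.1 x.2.2
  small : ∀ j n, 2 ^ j * {x : ℕ | x < 2 ^ n ∧ ∃ k ≤ n, U j k (x / 2 ^ (n - k))}.ncard ≤ 2 ^ n

/-- Martin-Löf random sequences: those which are outside some set of each Martin-Löf test. -/
def MartinLof (b : ℕ → Bool) : Prop :=
  ∀ U : ℕ → ℕ → ℕ → Prop, MartinLofTest U → ∃ j, ∀ k, ¬ U j k (num b k)

/-- The binary digits of a real number of `[0, 1)`: the digit of the place `2 ^ (-(i + 1))`. -/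
noncomputable def dgs (t : ℝ) (i : ℕ) : Bool := decide (⌊2 ^ (i + 1) * t⌋₊ % 2 = 1)

/-- The product, with multiplicity, of the prime factors of `m` that are larger than `p`. -/
def roughPart (p m : ℕ) : ℕ := (m.primeFactorsList.filter (fun r => p < r)).prod

/-- The number of primes `p ≤ n` with `s p = true` for which the `p`-rough part of `N p` is a
prime number. -/
def M (N : ℕ → ℕ) (s : ℕ → Bool) (n : ℕ) : ℕ :=
  ((Finset.range (n + 1)).filter (fun p => p.Prime ∧ s p = true ∧ (roughPart p (N p)).Prime)).card

/-- The sum of `log p / p` over the primes `p ≤ n` with `s p = true`. -/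
noncomputable def V (s : ℕ → Bool) (n : ℕ) : ℝ :=
  ∑ p ∈ (Finset.range (n + 1)).filter (fun p => p.Prime ∧ s p = true), Real.log p / p

/-- Computable leading blocks `A p` for `m p` free digits. -/
structure Lead (A m : ℕ → ℕ) : Prop where
  cA : Computable A
  cm : Computable m
  mono : ∀ᶠ p in Filter.atTop, m p ≤ m (p + 1)
  size : ∃ K : ℕ, ∀ᶠ p in Filter.atTop, 2 ^ p ≤ K * A p ∧ A p ≤ K * 2 ^ p
  dig : ∀ᶠ p in Filter.atTop, 2 ^ m p ≤ A p

/-- The number of free digits if the first `p / (h * (Nat.log 2 p + 1))` of the `p` digits are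
prescribed. -/
def free (h p : ℕ) : ℕ := p - p / (h * (Nat.log 2 p + 1))

/-- The integer with `p` digits, the first `p / (h * (Nat.log 2 p + 1))` of them equal to `1`,
followed by digits of `b`. -/
def ones (h : ℕ) (b : ℕ → Bool) (p : ℕ) : ℕ := 2 ^ p - 2 ^ free h p + num b (free h p)

lemma num_lt (b : ℕ → Bool) (k : ℕ) : num b k < 2 ^ k := by
  induction k with
  | zero => simp [num]
  | succ k ih =>
    have : (b k).toNat ≤ 1 := Bool.toNat_le (b k)
    rw [num, pow_succ]
    omega

lemma num_add (b : ℕ → Bool) (k i : ℕ) :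
    num b (k + i) = num b k * 2 ^ i + num (fun j => b (k + j)) i := by
  induction i with
  | zero => simp [num]
  | succ i ih =>
    rw [← add_assoc, num, ih, num, pow_succ]
    ring

lemma num_div (b : ℕ → Bool) {k n : ℕ} (h : k ≤ n) : num b n / 2 ^ (n - k) = num b k := by
  obtain ⟨i, rfl⟩ := Nat.exists_eq_add_of_le h
  rw [num_add, Nat.add_sub_cancel_left, mul_comm, Nat.mul_add_div (by positivity),
    Nat.div_eq_of_lt (num_lt _ _), add_zero]

lemma num_congr {b c : ℕ → Bool} {k : ℕ} (h : ∀ i < k, b i = c i) : num b k = num c k := by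
  induction k with
  | zero => rfl
  | succ k ih => rw [num, num, ih fun i hi => h i (by omega), h k (by omega)]

lemma num_true (k : ℕ) : num (fun _ => true) k = 2 ^ k - 1 := by
  induction k with
  | zero => rfl
  | succ k ih =>
    have : 1 ≤ 2 ^ k := Nat.one_le_two_pow
    rw [num, ih, pow_succ]
    simp only [Bool.toNat_true]
    omega

end Pool.Agent.Helper88.EL
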