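import Mathlib
import Pool.Agent.Helper88.EL.Defs

set_option autoImplicit false

/-!
# Computability of finite sums, of primality and of the primality of rough parts
-/

namespace Pool.Agent.Helper88.EL

open Finset

section

variable {α : Type*} [Primcodable α]

lemma comp_sum {f : α → ℕ → ℕ} {g : α → ℕ} (hf : Computable₂ f) (hg : Computable g) :
    Computable fun a => ∑ i ∈ range (g a), f a i := by
  have h2 : Computable₂ (fun (a : α) (p : ℕ × ℕ) => p.2 + f a p.1) :=
    (Primrec.nat_add.to_comp.comp (Computable.snd.comp Computable.snd)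
      (hf.comp Computable.fst (Computable.fst.comp Computable.snd)))
  have h : Computable fun a => (Nat.rec 0 (fun y IH => IH + f a y) (g a) : ℕ) :=
    Computable.nat_rec hg (Computable.const 0) h2
  refine h.of_eq fun a => ?_
  generalize g a = n
  induction n with
  | zero => rfl
  | succ n ih => rw [Finset.sum_range_succ, ← ih]

lemma comp_exists {p : α → ℕ → Bool} {g : α → ℕ} (hp : Computable₂ p) (hg : Computable g) :
    Computable fun a => decide (∃ i < g a, p a i = true) := by
  have h1 : Computable₂ (fun (a : α) (i : ℕ) => (p a i).toNat) := by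
    refine (Computable.cond (Computable₂.comp hp Computable.fst Computable.snd)
      (Computable.const 1) (Computable.const 0)).of_eq fun x => ?_
    show _ = (p x.1 x.2).toNat
    cases h : p x.1 x.2 <;> rfl
  have h2 := comp_sum h1 hg
  have h3 : Computable fun n : ℕ => decide (0 < n) :=
    (Primrec.nat_lt.comp (Primrec.const 0) Primrec.id).decide.to_comp
  refine (h3.comp h2).of_eq fun a => ?_
  rw [decide_eq_decide, Finset.sum_pos_iff]
  constructor
  · rintro ⟨i, hi, h⟩
    refine ⟨i, mem_range.1 hi, ?_⟩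
    by_contra h4
    rw [Bool.not_eq_true] at h4
    rw [h4] at h
    simp at h
  · rintro ⟨i, hi, h⟩
    exact ⟨i, mem_range.2 hi, by rw [h]; simp⟩

lemma comp_le {f g : α → ℕ} (hf : Computable f) (hg : Computable g) :
    Computable fun a => decide (f a ≤ g a) :=
  Computable₂.comp (Primrec.nat_le.decide).to_comp hf hg

lemma comp_lt {f g : α → ℕ} (hf : Computable f) (hg : Computable g) :
    Computable fun a => decide (f a < g a) :=
  Computable₂.comp (Primrec.nat_lt.decide).to_comp hf hg

lemma comp_toNat {p : α → Bool} (hp : Computable p) : Computable fun a => (p a).toNat := by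
  refine (Computable.cond hp (Computable.const 1) (Computable.const 0)).of_eq fun x => ?_
  cases p x <;> rfl

end

lemma primrec_pow : Primrec₂ (fun a n : ℕ => a ^ n) := by
  have h : Primrec₂ (fun a n : ℕ => (Nat.rec 1 (fun _ IH => IH * a) n : ℕ)) :=
    Primrec.nat_rec (f := fun _ : ℕ => 1) (g := fun (a : ℕ) (p : ℕ × ℕ) => p.2 * a)
      (Primrec.const 1) (Primrec.nat_mul.comp (Primrec.snd.comp Primrec.snd) Primrec.fst)
  refine h.of_eq fun a n => ?_
  induction n with
  | zero => rfl
  | succ n ih => rw [pow_succ, ← ih]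

lemma primrec_dvd : PrimrecRel (fun a b : ℕ => a ∣ b) := by
  refine (Primrec.eq.comp (Primrec.nat_mod.comp Primrec.snd Primrec.fst) (Primrec.const 0)).of_eq
    fun x => ?_
  exact (Nat.dvd_iff_mod_eq_zero).symm

lemma primrec_prime : PrimrecPred (fun p : ℕ => p.Prime) := by
  have h1 : PrimrecRel (fun m p : ℕ => ¬ m ∣ p ∨ m = 1) :=
    (PrimrecPred.not primrec_dvd).or (Primrec.eq.comp Primrec.fst (Primrec.const 1))
  have h2 : PrimrecPred (fun p : ℕ => ∀ m < p, ¬ m ∣ p ∨ m = 1) :=
    (PrimrecRel.forall_lt h1).comp Primrec.id Primrec.id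
  refine ((Primrec.nat_le.comp (Primrec.const 2) Primrec.id).and h2).of_eq fun p => ?_
  rw [Nat.prime_def_lt]
  exact and_congr_right fun _ => forall₂_congr fun m _ => by
    constructor
    · rintro (h | h) h3
      · exact absurd h3 h
      · exact h
    · intro h
      by_cases h3 : m ∣ p
      · exact Or.inr (h h3)
      · exact Or.inl h3

/-- the rough part is a prime iff there is exactly one large prime factor -/
lemma rough_prime_iff (q N : ℕ) : (roughPart q N).Prime ↔
    ∃ r < N + 1, r.Prime ∧ q < r ∧ r ∣ N ∧ ∀ s < N + 1, ¬ (s.Prime ∧ q < s ∧ s ∣ N / r) := by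
  unfold roughPart
  rcases Nat.eq_zero_or_pos N with rfl | hN
  · constructor
    · intro h
      simp at h
      exact absurd h Nat.not_prime_one
    · rintro ⟨r, hr, hp, -⟩
      have : r = 0 := by omega
      exact absurd (this ▸ hp) Nat.not_prime_zero
  have key : ∀ r, r.Prime → q < r → r ∣ N →
      (N.primeFactorsList.filter (fun r => q < r)).Perm
        (r :: (N / r).primeFactorsList.filter (fun r => q < r)) := by
    intro r hr hqr hd
    obtain ⟨m, rfl⟩ := hd
    have hm : m ≠ 0 := by rintro rfl; simp at hN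
    rw [Nat.mul_div_cancel_left _ hr.pos]
    have h1 := (Nat.perm_primeFactorsList_mul hr.ne_zero hm).filter (fun r => decide (q < r))
    rw [Nat.primeFactorsList_prime hr] at h1
    refine h1.trans (List.Perm.of_eq ?_)
    simp [hqr]
  constructor
  · intro h
    rcases hL : N.primeFactorsList.filter (fun r => q < r) with _ | ⟨a, t⟩
    · rw [hL] at h
      exact absurd h (by simp [Nat.not_prime_one])
    have ha : a ∈ N.primeFactorsList.filter (fun r => q < r) := by rw [hL]; simp
    rw [List.mem_filter] at ha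
    have hap := Nat.prime_of_mem_primeFactorsList ha.1
    have had := Nat.dvd_of_mem_primeFactorsList ha.1
    have haq : q < a := by simpa using ha.2
    have ht : t = [] := by
      rw [hL, List.prod_cons] at h
      rcases t with _ | ⟨b, t⟩
      · rfl
      exfalso
      have hb : b ∈ N.primeFactorsList.filter (fun r => q < r) := by rw [hL]; simp
      rw [List.mem_filter] at hb
      have hbp := Nat.prime_of_mem_primeFactorsList hb.1
      rw [List.prod_cons] at h
      have h2 := Nat.prime_mul_iff.1 h
      rcases h2 with ⟨-, h3⟩ | ⟨-, h3⟩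
      · exact hbp.ne_one (Nat.eq_one_of_mul_eq_one_right h3)
      · exact hap.ne_one h3
    refine ⟨a, by have := Nat.le_of_dvd hN had; omega, hap, haq, had, ?_⟩
    rintro s - ⟨hs, hqs, hsd⟩
    have h1 := key a hap haq had
    rw [hL, ht] at h1
    have h2 := h1.length_eq
    have h3 : s ∈ (N / a).primeFactorsList.filter (fun r => q < r) := by
      rw [List.mem_filter, Nat.mem_primeFactorsList']
      refine ⟨⟨hs, hsd, ?_⟩, by simpa using hqs⟩
      exact (Nat.div_pos (Nat.le_of_dvd hN had) hap.pos).ne'
    have h4 := List.length_pos_of_mem h3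
    simp only [List.length_cons, List.length_nil] at h2
    omega
  · rintro ⟨r, -, hr, hqr, hd, hs⟩
    have h1 := key r hr hqr hd
    have h2 : (N / r).primeFactorsList.filter (fun r => q < r) = [] := by
      rw [List.filter_eq_nil_iff]
      intro s hsm
      have h3 := Nat.dvd_of_mem_primeFactorsList hsm
      have hpos : 0 < N / r := Nat.div_pos (Nat.le_of_dvd hN hd) hr.pos
      have h4 := Nat.le_of_dvd hpos h3
      have h5 := Nat.div_le_self N r
      have h6 := hs s (by omega)
      have h7 := Nat.prime_of_mem_primeFactorsList hsm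
      simp only [decide_eq_true_eq]
      intro h8
      exact h6 ⟨h7, h8, h3⟩
    rw [h2] at h1
    rw [h1.prod_eq]
    simpa using hr

lemma prel_forall_lt {β : Type*} [Primcodable β] {R : ℕ → β → Prop} (hf : PrimrecRel R) :
    PrimrecRel fun (n : ℕ) (y : β) => ∀ x < n, R x y := by
  have h : PrimrecPred fun z : ℕ × β => ∀ a ∈ List.range z.1, R a z.2 :=
    PrimrecRel.comp (PrimrecRel.forall_mem_list hf) (Primrec.list_range.comp Primrec.fst) Primrec.snd
  exact h.of_eq fun z => by simp

lemma prel_exists_lt {β : Type*} [Primcodable β] {R : ℕ → β → Prop} (hf : PrimrecRel R) :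
    PrimrecRel fun (n : ℕ) (y : β) => ∃ x < n, R x y := by
  have h : PrimrecPred fun z : ℕ × β => ∃ a ∈ List.range z.1, R a z.2 :=
    PrimrecRel.comp (PrimrecRel.exists_mem_list hf) (Primrec.list_range.comp Primrec.fst) Primrec.snd
  exact h.of_eq fun z => by simp

lemma primrec_rough : PrimrecRel (fun q N : ℕ => (roughPart q N).Prime) := by
  -- `s`, then `(r, q, N)`
  have hP : PrimrecRel (fun (s : ℕ) (x : ℕ × ℕ × ℕ) => ¬ (s.Prime ∧ x.2.1 < s ∧ s ∣ x.2.2 / x.1)) :=
    PrimrecPred.not ((primrec_prime.comp Primrec.fst).and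
      ((Primrec.nat_lt.comp (Primrec.fst.comp (Primrec.snd.comp Primrec.snd)) Primrec.fst).and
        (primrec_dvd.comp Primrec.fst (Primrec.nat_div.comp
          (Primrec.snd.comp (Primrec.snd.comp Primrec.snd))
          (Primrec.fst.comp Primrec.snd)))))
  have h0 : PrimrecRel (fun (n : ℕ) (x : ℕ × ℕ × ℕ) =>
      ∀ s < n, ¬ (s.Prime ∧ x.2.1 < s ∧ s ∣ x.2.2 / x.1)) := prel_forall_lt hP
  have h1 : PrimrecPred (fun z : ℕ × ℕ × ℕ =>
      ∀ s < z.2.2 + 1, ¬ (s.Prime ∧ z.2.1 < s ∧ s ∣ z.2.2 / z.1)) :=
    PrimrecRel.comp (f := fun z : ℕ × ℕ × ℕ => z.2.2 + 1) (g := fun z => z) h0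
      (Primrec.succ.comp (Primrec.snd.comp Primrec.snd)) Primrec.id
  have h2 : PrimrecRel (fun (r : ℕ) (y : ℕ × ℕ) => r.Prime ∧ y.1 < r ∧ r ∣ y.2 ∧
      ∀ s < y.2 + 1, ¬ (s.Prime ∧ y.1 < s ∧ s ∣ y.2 / r)) :=
    (primrec_prime.comp Primrec.fst).and
      ((Primrec.nat_lt.comp (Primrec.fst.comp Primrec.snd) Primrec.fst).and
        ((primrec_dvd.comp Primrec.fst (Primrec.snd.comp Primrec.snd)).and h1))
  refine ((prel_exists_lt h2).comp (Primrec.succ.comp Primrec.snd) Primrec.id).of_eq
    fun x => ?_
  exact (rough_prime_iff x.1 x.2).symm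

end Pool.Agent.Helper88.EL
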