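import Mathlib
import Pool.Agent.Helper88.EL.Comp
import Pool.Graph.R_pool_sql_team_seeded_1acbe0a2.Y895.PM.G3a

set_option autoImplicit false

/-!
# Counting and measure
-/

namespace Pool.Agent.Helper88.EL

open MeasureTheory Finset
open Pool.Agent.Y895.PM (U01 avg floor_div U01_univ floor_meas)

/-- the number of the strings of length `u` with the property `p` -/
def ct (u : ℕ) (p : ℕ → Bool) : ℕ := ((range (2 ^ u)).filter (fun x => p x = true)).card

/-- the first `u` digits of `t` -/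
noncomputable def dg (u : ℕ) (t : ℝ) : ℕ := ⌊(2 : ℝ) ^ u * t⌋₊

lemma dg_div {u v : ℕ} (h : u ≤ v) (t : ℝ) : dg v t / 2 ^ (v - u) = dg u t := by
  have h1 := floor_div (b := 2) le_rfl u (v - u) t
  rw [Nat.sub_add_cancel h] at h1
  simp only [Nat.cast_ofNat] at h1
  exact h1.symm

lemma dg_meas (u : ℕ) (p : ℕ → Prop) : MeasurableSet {t : ℝ | p (dg u t)} := by
  classical
  have h1 := floor_meas 2 (fun n => if p n then (1 : ℝ) else 0) u
  have h2 : {t : ℝ | p (dg u t)} =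
      (fun t : ℝ => (fun n => if p n then (1 : ℝ) else 0) ⌊((2 : ℕ) : ℝ) ^ u * t⌋₊) ⁻¹' {1} := by
    ext t
    simp only [Set.mem_ofPred_eq, Set.mem_preimage, Set.mem_singleton_iff, Nat.cast_ofNat]
    unfold dg
    constructor
    · intro h
      rw [if_pos h]
    · intro h
      by_contra h3
      rw [if_neg h3] at h
      norm_num at h
  rw [h2]
  exact h1 (measurableSet_singleton 1)

lemma meas_ct (u : ℕ) (p : ℕ → Bool) :
    U01.real {t | p (dg u t) = true} = (ct u p : ℝ) / 2 ^ u := by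
  have h := avg (b := 2) le_rfl (G := fun n => if p n = true then (1 : ℝ) else 0) (by
    intro n
    split_ifs <;> norm_num) u
  simp only [Nat.cast_ofNat] at h
  have h1 : ∫ t, (if p ⌊(2 : ℝ) ^ u * t⌋₊ = true then (1 : ℝ) else 0) ∂U01 =
      U01.real {t | p (dg u t) = true} := by
    rw [← integral_indicator_one (dg_meas u (fun n => p n = true))]
    refine integral_congr_ae (Filter.Eventually.of_forall fun t => ?_)
    simp only [Set.indicator_apply, Set.mem_ofPred_eq, Pi.one_apply]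
    rfl
  rw [← h1, h, Finset.sum_boole]
  unfold ct
  rw [inv_mul_eq_div]

lemma ct_div {u v : ℕ} (h : u ≤ v) (p : ℕ → Bool) :
    (ct v (fun x => p (x / 2 ^ (v - u))) : ℝ) / 2 ^ v = (ct u p : ℝ) / 2 ^ u := by
  rw [← meas_ct, ← meas_ct]
  congr 1
  ext t
  simp only [Set.mem_ofPred_eq]
  rw [dg_div h]

lemma U01_ne_top (s : Set ℝ) : U01 s ≠ ⊤ := measure_ne_top _ _

lemma U01_mono {s t : Set ℝ} (h : s ⊆ t) : U01.real s ≤ U01.real t :=
  measureReal_mono h (U01_ne_top t)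

/-- the sets of a Schnorr test -/
def tset (u : ℕ → ℕ) (D : ℕ → ℕ → Bool) (j : ℕ) : Set ℝ := {t | D j (dg (u j) t) = true}

lemma tset_meas {u : ℕ → ℕ} {D : ℕ → ℕ → Bool} (j : ℕ) : MeasurableSet (tset u D j) :=
  dg_meas (u j) (fun n => D j n = true)

lemma SchnorrTest.meas {u : ℕ → ℕ} {D : ℕ → ℕ → Bool} (h : SchnorrTest u D) (j : ℕ) :
    U01.real (tset u D j) ≤ (1 / 2) ^ j := by
  unfold tset
  rw [meas_ct, div_le_iff₀ (by positivity), one_div, inv_pow, inv_mul_eq_div,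
    le_div_iff₀ (by positivity)]
  have h1 := h.small j
  have h2 : ((2 ^ j * ct (u j) (D j) : ℕ) : ℝ) ≤ ((2 ^ u j : ℕ) : ℝ) := by exact_mod_cast h1
  push_cast at h2
  linarith

lemma SchnorrTest.tail {u : ℕ → ℕ} {D : ℕ → ℕ → Bool} (h : SchnorrTest u D) (s : ℕ) :
    U01.real {t | ∃ j, s ≤ j ∧ t ∈ tset u D j} ≤ 2 * (1 / 2) ^ s := by
  have h1 : {t | ∃ j, s ≤ j ∧ t ∈ tset u D j} ⊆ ⋃ i : ℕ, tset u D (s + i) := by
    rintro t ⟨j, hj, ht⟩
    obtain ⟨i, rfl⟩ := Nat.exists_eq_add_of_le hj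
    exact Set.mem_iUnion.2 ⟨i, ht⟩
  have h2 : U01 {t | ∃ j, s ≤ j ∧ t ∈ tset u D j} ≤
      ∑' i : ℕ, ENNReal.ofReal ((1 / 2) ^ (s + i)) := by
    refine (measure_mono h1).trans ((measure_iUnion_le _).trans (ENNReal.tsum_le_tsum fun i => ?_))
    rw [← ENNReal.ofReal_toReal (U01_ne_top (tset u D (s + i)))]
    exact ENNReal.ofReal_le_ofReal (h.meas (s + i))
  have hs : Summable fun i : ℕ => ((1 : ℝ) / 2) ^ (s + i) := by
    simp only [pow_add]
    exact summable_geometric_two.mul_left _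
  have h3 : ∑' i : ℕ, ((1 : ℝ) / 2) ^ (s + i) = 2 * (1 / 2) ^ s := by
    simp only [pow_add]
    rw [tsum_mul_left, tsum_geometric_two, mul_comm]
  rw [← ENNReal.ofReal_tsum_of_nonneg (fun i => by positivity) hs, h3] at h2
  exact ENNReal.toReal_le_of_le_ofReal (by positivity) h2

end Pool.Agent.Helper88.EL
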