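import Mathlib
import Pool.Agent.Helper88.EL.Meas

set_option autoImplicit false

/-!
# Deviations of a counting function with nearly independent terms
-/

namespace Pool.Agent.Helper88.EL

open MeasureTheory Finset Filter
open Pool.Agent.Y895.PM (U01 U01_univ)

lemma int_of_bdd {F : ℝ → ℝ} (hF : Measurable F) (M : ℝ) (h : ∀ t, |F t| ≤ M) :
    Integrable F U01 :=
  Integrable.of_bound hF.aestronglyMeasurable M (Eventually.of_forall fun t => by
    rw [Real.norm_eq_abs]; exact h t)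

lemma int_const' (c : ℝ) : ∫ _, c ∂U01 = c := by
  rw [integral_const, U01_univ, smul_eq_mul, one_mul]

/-- Jensen -/
lemma abs_int_le {X : ℝ → ℝ} (hX : Integrable X U01) (hX2 : Integrable (fun t => X t ^ 2) U01)
    {B : ℝ} (hB : ∫ t, X t ^ 2 ∂U01 ≤ B) : |∫ t, X t ∂U01| ≤ Real.sqrt B := by
  set c := ∫ t, X t ∂U01 with hc
  have h1 : 0 ≤ ∫ t, (X t - c) ^ 2 ∂U01 := integral_nonneg fun t => sq_nonneg _
  have h2 : ∫ t, (X t - c) ^ 2 ∂U01 = ∫ t, X t ^ 2 ∂U01 - c ^ 2 := by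
    have e : ∀ t, (X t - c) ^ 2 = X t ^ 2 - (2 * c * X t - c ^ 2) := fun t => by ring
    have i1 : Integrable (fun t => 2 * c * X t) U01 := hX.const_mul (2 * c)
    have i2 : Integrable (fun _ : ℝ => c ^ 2) U01 := integrable_const _
    have i3 : Integrable (fun t => 2 * c * X t - c ^ 2) U01 := i1.sub i2
    simp only [e]
    rw [integral_sub hX2 i3, integral_sub i1 i2, integral_const_mul, int_const', ← hc]
    ring
  refine Real.abs_le_sqrt ?_
  linarith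

/-- Chebyshev -/
lemma cheb {X : ℝ → ℝ} (hX2 : Integrable (fun t => X t ^ 2) U01)
    {B : ℝ} (hB : ∫ t, X t ^ 2 ∂U01 ≤ B) {lam : ℝ} (hl : 0 < lam) :
    U01.real {t | lam ^ 2 ≤ X t ^ 2} ≤ B / lam ^ 2 := by
  have h1 := mul_meas_ge_le_integral_of_nonneg (μ := U01) (f := fun t => X t ^ 2)
    (Eventually.of_forall fun t => sq_nonneg _) hX2 (lam ^ 2)
  rw [le_div_iff₀ (by positivity)]
  linarith

section

variable {f m : ℕ → ℝ → ℝ} {w : ℕ → ℝ} {Q : ℕ} {G ε C : ℝ}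

theorem base_dev (hG : 0 < G) (hε : 0 < ε) (hC : 0 ≤ C)
    (hfm : ∀ q, Measurable (f q)) (hmm : ∀ q, Measurable (m q))
    (hf0 : ∀ q t, 0 ≤ f q t) (hf1 : ∀ q t, f q t ≤ 1)
    (hm0 : ∀ q t, 0 ≤ m q t) (hm1 : ∀ q t, m q t ≤ 1)
    (hw0 : ∀ q, 0 ≤ w q) (hw1 : ∀ q, w q ≤ 1)
    (hvar : ∀ T : Finset ℕ, (∀ q ∈ T, Q ≤ q ∧ q.Prime) →
      ∫ t, (∑ q ∈ T, (f q t - m q t)) ^ 2 ∂U01 ≤ C * ∑ q ∈ T, w q)
    (hlo : ∀ᵐ t ∂U01, ∀ q ≥ Q, q.Prime → (1 - ε) * G * w q ≤ m q t)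
    (hup : ∀ᵐ t ∂U01, ∀ q ≥ Q, q.Prime → m q t ≤ (1 + ε) * G * w q)
    (R : Finset ℕ) (hR : ∀ q ∈ R, q.Prime) :
    |∑ q ∈ R, ∫ t, f q t ∂U01 - G * ∑ q ∈ R, w q| ≤
      ε * G * ∑ q ∈ R, w q + Real.sqrt (C * ∑ q ∈ R, w q) + (1 + G) * Q ∧
    ∀ lam : ℝ, 0 < lam →
      U01.real {t | 2 * ε * G * ∑ q ∈ R, w q + Real.sqrt (C * ∑ q ∈ R, w q) + 2 * Q + lam <
        |∑ q ∈ R, f q t - ∑ q ∈ R, ∫ t, f q t ∂U01|} ≤ C * (∑ q ∈ R, w q) / lam ^ 2 := by
  classical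
  set V := ∑ q ∈ R, w q with hV
  set R1 := R.filter (fun q => Q ≤ q) with hR1
  set R2 := R.filter (fun q => ¬ Q ≤ q) with hR2
  have hR1p : ∀ q ∈ R1, Q ≤ q ∧ q.Prime := fun q hq => by
    rw [hR1, mem_filter] at hq
    exact ⟨hq.2, hR q hq.1⟩
  have hcard : (R2.card : ℝ) ≤ Q := by
    have : R2.card ≤ (range Q).card := Finset.card_le_card fun q hq => by
      rw [hR2, mem_filter] at hq
      exact mem_range.2 (not_le.1 hq.2)
    rw [card_range] at this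
    exact_mod_cast this
  have hsum : ∀ g : ℕ → ℝ, ∑ q ∈ R, g q = ∑ q ∈ R1, g q + ∑ q ∈ R2, g q := fun g =>
    (Finset.sum_filter_add_sum_filter_not R (fun q => Q ≤ q) g).symm
  set V1 := ∑ q ∈ R1, w q with hV1
  set V2 := ∑ q ∈ R2, w q with hV2
  have hV12 : V = V1 + V2 := hsum w
  have hV20 : 0 ≤ V2 := Finset.sum_nonneg fun q _ => hw0 q
  have hV10 : 0 ≤ V1 := Finset.sum_nonneg fun q _ => hw0 q
  have hV2Q : V2 ≤ Q := by
    refine le_trans ?_ hcard
    calc V2 ≤ ∑ q ∈ R2, (1 : ℝ) := Finset.sum_le_sum fun q _ => hw1 q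
      _ = _ := by rw [sum_const, nsmul_eq_mul, mul_one]
  have hfi : ∀ q, Integrable (f q) U01 := fun q => int_of_bdd (hfm q) 1 fun t => by
    rw [abs_of_nonneg (hf0 q t)]; exact hf1 q t
  have hmi : ∀ q, Integrable (m q) U01 := fun q => int_of_bdd (hmm q) 1 fun t => by
    rw [abs_of_nonneg (hm0 q t)]; exact hm1 q t
  set X : ℝ → ℝ := fun t => ∑ q ∈ R1, (f q t - m q t) with hX
  have hXm : Measurable X := Finset.measurable_fun_sum _ fun q _ => (hfm q).sub (hmm q)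
  have hXb : ∀ t, |X t| ≤ R1.card := by
    intro t
    refine (Finset.abs_sum_le_sum_abs _ _).trans ?_
    calc ∑ q ∈ R1, |f q t - m q t| ≤ ∑ q ∈ R1, (1 : ℝ) := Finset.sum_le_sum fun q _ => by
          rw [abs_le]
          constructor <;> linarith [hf0 q t, hf1 q t, hm0 q t, hm1 q t]
      _ = _ := by rw [sum_const, nsmul_eq_mul, mul_one]
  have hXi : Integrable X U01 := int_of_bdd hXm _ hXb
  have hX2i : Integrable (fun t => X t ^ 2) U01 := by
    refine int_of_bdd (hXm.pow_const 2) ((R1.card : ℝ) ^ 2) fun t => ?_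
    rw [abs_pow]
    exact pow_le_pow_left₀ (abs_nonneg _) (hXb t) 2
  have hX2 : ∫ t, X t ^ 2 ∂U01 ≤ C * V := by
    refine (hvar R1 hR1p).trans ?_
    exact mul_le_mul_of_nonneg_left (by rw [hV12]; linarith) hC
  have hXabs := abs_int_le hXi hX2i hX2
  set av := ∑ q ∈ R, ∫ t, f q t ∂U01 with hav
  set Mm : ℝ → ℝ := fun t => ∑ q ∈ R1, m q t with hMm
  have hMmi : Integrable Mm U01 := integrable_finsetSum _ fun q _ => hmi q
  -- the mean
  have hMmb : ∀ᵐ t ∂U01, (1 - ε) * G * V1 ≤ Mm t ∧ Mm t ≤ (1 + ε) * G * V1 := by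
    filter_upwards [hlo, hup] with t h1 h2
    constructor
    · rw [hV1, Finset.mul_sum]
      exact Finset.sum_le_sum fun q hq => h1 q (hR1p q hq).1 (hR1p q hq).2
    · rw [hV1, Finset.mul_sum]
      exact Finset.sum_le_sum fun q hq => h2 q (hR1p q hq).1 (hR1p q hq).2
  have hMm1 : (1 - ε) * G * V1 ≤ ∫ t, Mm t ∂U01 := by
    rw [← int_const' ((1 - ε) * G * V1)]
    exact integral_mono_ae (integrable_const _) hMmi (hMmb.mono fun t ht => ht.1)
  have hMm2 : ∫ t, Mm t ∂U01 ≤ (1 + ε) * G * V1 := by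
    rw [← int_const' ((1 + ε) * G * V1)]
    exact integral_mono_ae hMmi (integrable_const _) (hMmb.mono fun t ht => ht.2)
  set e2 := ∑ q ∈ R2, ∫ t, f q t ∂U01 with he2
  have he20 : 0 ≤ e2 := Finset.sum_nonneg fun q _ => integral_nonneg fun t => hf0 q t
  have he2Q : e2 ≤ Q := by
    refine le_trans ?_ hcard
    calc e2 ≤ ∑ q ∈ R2, (1 : ℝ) := Finset.sum_le_sum fun q _ => by
          rw [← int_const' 1]
          exact integral_mono (hfi q) (integrable_const _) fun t => hf1 q t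
      _ = _ := by rw [sum_const, nsmul_eq_mul, mul_one]
  have havX : av = ∫ t, X t ∂U01 + ∫ t, Mm t ∂U01 + e2 := by
    rw [hav, hsum]
    congr 1
    rw [← integral_finsetSum _ fun q _ => hfi q, ← integral_add hXi hMmi]
    refine integral_congr_ae (Eventually.of_forall fun t => ?_)
    simp only [hX, hMm]
    rw [Finset.sum_sub_distrib]
    ring
  have hQ0 : (0 : ℝ) ≤ Q := Nat.cast_nonneg Q
  have hGQ : 0 ≤ G * Q := mul_nonneg hG.le hQ0
  have hGV2 : G * V2 ≤ G * Q := mul_le_mul_of_nonneg_left hV2Q hG.le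
  have hεG : 0 ≤ ε * G * V2 := by positivity
  have hx1 := abs_le.1 hXabs
  refine ⟨?_, fun lam hl => ?_⟩
  · rw [havX, hV12, abs_le]
    rw [hV12] at hx1
    constructor
    · nlinarith [hx1.1]
    · nlinarith [hx1.2]
  · refine le_trans ?_ (cheb hX2i hX2 hl)
    unfold Measure.real
    refine ENNReal.toReal_mono (U01_ne_top _) (measure_mono_ae ?_)
    filter_upwards [hMmb] with t ht
    have hgoal : 2 * ε * G * V + Real.sqrt (C * V) + 2 * Q + lam < |∑ q ∈ R, f q t - av| →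
        lam ^ 2 ≤ X t ^ 2 := ?_
    · exact hgoal
    intro h
    have h1 : ∑ q ∈ R, f q t = X t + Mm t + ∑ q ∈ R2, f q t := by
      rw [hsum]
      simp only [hX, hMm]
      rw [Finset.sum_sub_distrib]
      ring
    have h2 : 0 ≤ ∑ q ∈ R2, f q t := Finset.sum_nonneg fun q _ => hf0 q t
    have h3 : ∑ q ∈ R2, f q t ≤ Q := by
      refine le_trans ?_ hcard
      calc ∑ q ∈ R2, f q t ≤ ∑ q ∈ R2, (1 : ℝ) := Finset.sum_le_sum fun q _ => hf1 q t
        _ = _ := by rw [sum_const, nsmul_eq_mul, mul_one]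
    rw [h1, havX] at h
    have h4 : |X t + Mm t + ∑ q ∈ R2, f q t - (∫ t, X t ∂U01 + ∫ t, Mm t ∂U01 + e2)| ≤
        |X t| + (Real.sqrt (C * V) + 2 * ε * G * V + 2 * Q) := by
      have h5 := abs_le.1 (le_refl |X t|)
      have h6 : ε * G * V = ε * G * V1 + ε * G * V2 := by rw [hV12]; ring
      rw [abs_le]
      constructor
      · nlinarith [hx1.1, hx1.2, ht.1, ht.2, h5.1, h5.2]
      · nlinarith [hx1.1, hx1.2, ht.1, ht.2, h5.1, h5.2]
    have h5 : lam < |X t| := by linarith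
    rw [← sq_abs (X t)]
    exact pow_le_pow_left₀ hl.le h5.le 2

end

end Pool.Agent.Helper88.EL
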