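import Mathlib
import Pool.Agent.Helper88.EL.Meas

set_option autoImplicit false

/-!
# Tests with polynomial bounds, and computable sequences passing a test
-/

namespace Pool.Agent.Helper88.EL

open MeasureTheory Finset
open Pool.Agent.Y895.PM (U01 U01_univ)

lemma ct_small {u : ℕ} {p : ℕ → Bool} {j : ℕ} (h : U01.real {t | p (dg u t) = true} ≤ (1 / 2) ^ j) :
    2 ^ j * ((range (2 ^ u)).filter (fun x => p x = true)).card ≤ 2 ^ u := by
  rw [meas_ct, div_le_iff₀ (by positivity), one_div, inv_pow, inv_mul_eq_div,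
    le_div_iff₀ (by positivity)] at h
  have h2 : ((2 ^ j * ct u p : ℕ) : ℝ) ≤ ((2 ^ u : ℕ) : ℝ) := by
    push_cast
    linarith
  exact_mod_cast h2

lemma comp_pow2 {α : Type*} [Primcodable α] {f : α → ℕ} (hf : Computable f) :
    Computable fun a => 2 ^ f a :=
  Computable₂.comp primrec_pow.to_comp (Computable.const 2) hf

lemma comp_mul {α : Type*} [Primcodable α] {f g : α → ℕ} (hf : Computable f) (hg : Computable g) :
    Computable fun a => f a * g a :=
  Computable₂.comp Primrec.nat_mul.to_comp hf hg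

lemma comp_add {α : Type*} [Primcodable α] {f g : α → ℕ} (hf : Computable f) (hg : Computable g) :
    Computable fun a => f a + g a :=
  Computable₂.comp Primrec.nat_add.to_comp hf hg

lemma comp_sub {α : Type*} [Primcodable α] {f g : α → ℕ} (hf : Computable f) (hg : Computable g) :
    Computable fun a => f a - g a :=
  Computable₂.comp Primrec.nat_sub.to_comp hf hg

lemma comp_div {α : Type*} [Primcodable α] {f g : α → ℕ} (hf : Computable f) (hg : Computable g) :
    Computable fun a => f a / g a :=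
  Computable₂.comp Primrec.nat_div.to_comp hf hg

lemma comp_and {α : Type*} [Primcodable α] {f g : α → Bool} (hf : Computable f)
    (hg : Computable g) : Computable fun a => f a && g a :=
  Computable₂.comp Primrec.and.to_comp hf hg

/-- **Tests with polynomial bounds.** -/
theorem solovay {u : ℕ → ℕ} {E : ℕ → ℕ → Bool} (hu : Computable u) (hE : Computable₂ E) {K k0 : ℕ}
    (hs : ∀ k, k0 ≤ k → ((k : ℝ) + 1) ^ 2 * U01.real (tset u E k) ≤ K) :
    ∃ (v : ℕ → ℕ) (D : ℕ → ℕ → Bool), SchnorrTest v D ∧ ∀ b : ℕ → Bool,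
      {j | D j (num b (v j)) = true}.Finite → {k | E k (num b (u k)) = true}.Finite := by
  set K' := K + k0 + 1 with hK'
  have hK'0 : 0 < K' := by omega
  set v : ℕ → ℕ := fun j => ∑ k ∈ range (K' * 2 ^ (j + 1)), u k with hv
  have huv : ∀ j k, k < K' * 2 ^ (j + 1) → u k ≤ v j := fun j k hk =>
    Finset.single_le_sum (f := u) (fun _ _ => Nat.zero_le _) (mem_range.2 hk)
  set D : ℕ → ℕ → Bool := fun j x => decide (∃ k < K' * 2 ^ (j + 1),
    (decide (K' * 2 ^ j ≤ k) && E k (x / 2 ^ (v j - u k))) = true) with hD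
  have hcv : Computable v := by
    have h1 : Computable₂ (fun (_ : ℕ) (k : ℕ) => u k) := hu.comp Computable.snd
    exact comp_sum h1 (comp_mul (Computable.const K') (comp_pow2 Computable.succ))
  have hcD : Computable₂ D := by
    have h1 : Computable₂ (fun (z : ℕ × ℕ) (k : ℕ) =>
        decide (K' * 2 ^ z.1 ≤ k) && E k (z.2 / 2 ^ (v z.1 - u k))) := by
      refine comp_and (comp_le (comp_mul (Computable.const K')
        (comp_pow2 (Computable.fst.comp Computable.fst))) Computable.snd) ?_
      exact Computable₂.comp hE Computable.snd (comp_div (Computable.snd.comp Computable.fst)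
        (comp_pow2 (comp_sub (hcv.comp (Computable.fst.comp Computable.fst))
          (hu.comp Computable.snd))))
    exact comp_exists h1 (comp_mul (Computable.const K')
      (comp_pow2 (Computable.succ.comp Computable.fst)))
  have hiff : ∀ j x, D j x = true ↔ ∃ k < K' * 2 ^ (j + 1), K' * 2 ^ j ≤ k ∧
      E k (x / 2 ^ (v j - u k)) = true := by
    intro j x
    simp only [hD, decide_eq_true_eq, Bool.and_eq_true]
  refine ⟨v, D, ⟨hcv, hcD, fun j => ct_small ?_⟩, fun b hb => ?_⟩
  · have hsub : {t | D j (dg (v j) t) = true} ⊆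
        ⋃ k ∈ Ico (K' * 2 ^ j) (K' * 2 ^ (j + 1)), tset u E k := by
      intro t ht
      rw [Set.mem_ofPred_eq, hiff] at ht
      obtain ⟨k, hk1, hk2, hk3⟩ := ht
      rw [dg_div (huv j k hk1)] at hk3
      exact Set.mem_biUnion (mem_coe.2 (mem_Ico.2 ⟨hk2, hk1⟩)) hk3
    refine (U01_mono hsub).trans ((measureReal_biUnion_finset_le _ _).trans ?_)
    set B : ℝ := K' * 2 ^ j with hB
    have hB0 : 0 < B := by positivity
    have h1 : ∀ k ∈ Ico (K' * 2 ^ j) (K' * 2 ^ (j + 1)), U01.real (tset u E k) ≤ K / B ^ 2 := by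
      intro k hk
      rw [mem_Ico] at hk
      have hkB : B ≤ (k : ℝ) + 1 := by
        have : ((K' * 2 ^ j : ℕ) : ℝ) ≤ k := by exact_mod_cast hk.1
        push_cast at this
        linarith
      have hk0 : k0 ≤ k := by
        have : 1 ≤ 2 ^ j := Nat.one_le_two_pow
        nlinarith [hk.1]
      have h2 := hs k hk0
      rw [le_div_iff₀ (by positivity)]
      have h3 : 0 ≤ U01.real (tset u E k) := measureReal_nonneg
      have h4 : B ^ 2 ≤ ((k : ℝ) + 1) ^ 2 := pow_le_pow_left₀ hB0.le hkB 2
      nlinarith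
    refine (Finset.sum_le_sum h1).trans ?_
    rw [Finset.sum_const, Nat.card_Ico, nsmul_eq_mul]
    have e1 : ((K' * 2 ^ (j + 1) - K' * 2 ^ j : ℕ) : ℝ) = B := by
      have : K' * 2 ^ (j + 1) - K' * 2 ^ j = K' * 2 ^ j := by
        rw [pow_succ, ← mul_assoc, mul_two]
        omega
      rw [this]
      push_cast
      rfl
    rw [e1]
    have e2 : B * (K / B ^ 2) = K / B := by field_simp
    rw [e2, div_le_iff₀ hB0, hB]
    have hKK : (K : ℝ) ≤ K' := by exact_mod_cast (by omega : K ≤ K')
    have e3 : (1 / 2 : ℝ) ^ j * (K' * 2 ^ j) = K' := by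
      rw [one_div, inv_pow]
      field_simp
    rw [e3]
    exact hKK
  · obtain ⟨N, hN⟩ := hb.bddAbove
    refine (Set.finite_lt_nat (K' * 2 ^ (N + 1))).subset fun k hk => ?_
    rw [Set.mem_ofPred_eq] at hk ⊢
    by_contra hcon
    rw [not_lt] at hcon
    set j := Nat.log 2 (k / K') with hj
    have hk1 : 2 ^ (N + 1) ≤ k / K' := (Nat.le_div_iff_mul_le hK'0).2 (by rw [mul_comm]; exact hcon)
    have hk0 : k / K' ≠ 0 := by
      have : 1 ≤ 2 ^ (N + 1) := Nat.one_le_two_pow
      omega
    have hj1 : N + 1 ≤ j := Nat.le_log_of_pow_le (by norm_num) hk1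
    have hj2 : 2 ^ j ≤ k / K' := Nat.pow_log_le_self 2 hk0
    have hj3 : k / K' < 2 ^ (j + 1) := Nat.lt_pow_succ_log_self (by norm_num) _
    have hj4 : K' * 2 ^ j ≤ k := by
      rw [mul_comm]
      exact (Nat.le_div_iff_mul_le hK'0).1 hj2
    have hj5 : k < K' * 2 ^ (j + 1) := by
      rw [mul_comm]
      exact (Nat.div_lt_iff_lt_mul hK'0).1 hj3
    have hDj : D j (num b (v j)) = true := by
      rw [hiff]
      exact ⟨k, hj5, hj4, by rw [num_div b (huv j k hj5)]; exact hk⟩
    have := hN hDj
    omega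

section

variable (u : ℕ → ℕ) (D : ℕ → ℕ → Bool) (n : ℕ)

/-- the number of the sets which are considered at stage `i` -/
def sI (i : ℕ) : ℕ := 2 * i + 5

/-- the number of digits which are considered at stage `i` -/
def vI (i : ℕ) : ℕ := i + 1 + ∑ j ∈ range (sI i), u j

/-- the strings below the string `z` of length `i + 1` in the bad set of stage `i` -/
def qI (i z x : ℕ) : Bool := decide (x / 2 ^ (vI u i - (i + 1)) = z) &&
    decide (∃ j < sI i, (decide (n + 2 ≤ j) && D j (x / 2 ^ (vI u i - u j))) = true)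

/-- their number -/
def cI (i z : ℕ) : ℕ := ct (vI u i) (qI u D n i z)

/-- the next digit -/
def bI (i y : ℕ) : Bool := decide (cI u D n i (2 * y + 1) < cI u D n i (2 * y))

/-- the prefixes -/
def yI (y0 : ℕ) : ℕ → ℕ
  | 0 => y0
  | k + 1 => 2 * yI y0 k + (bI u D n (n + k) (yI y0 k)).toNat

variable {u D n}

lemma comp_sI : Computable sI :=
  comp_add (comp_mul (Computable.const 2) Computable.id) (Computable.const 5)

lemma comp_vI (hu : Computable u) : Computable (vI u) := by
  have h1 : Computable₂ (fun (_ : ℕ) (k : ℕ) => u k) := hu.comp Computable.snd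
  exact comp_add Computable.succ (comp_sum h1 comp_sI)

lemma comp_qI (hu : Computable u) (hD : Computable₂ D) :
    Computable fun z : (ℕ × ℕ) × ℕ => qI u D n z.1.1 z.1.2 z.2 := by
  have hi : Computable fun z : (ℕ × ℕ) × ℕ => z.1.1 := Computable.fst.comp Computable.fst
  have hvi : Computable fun z : (ℕ × ℕ) × ℕ => vI u z.1.1 := (comp_vI hu).comp hi
  have h1 : Computable fun z : (ℕ × ℕ) × ℕ => z.2 / 2 ^ (vI u z.1.1 - (z.1.1 + 1)) :=
    comp_div Computable.snd (comp_pow2 (comp_sub hvi (Computable.succ.comp hi)))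
  have h2 : Computable fun z : (ℕ × ℕ) × ℕ =>
      decide (z.2 / 2 ^ (vI u z.1.1 - (z.1.1 + 1)) = z.1.2) :=
    Computable₂.comp (Primrec.eq (α := ℕ)).decide.to_comp h1 (Computable.snd.comp Computable.fst)
  have h3 : Computable fun w : ((ℕ × ℕ) × ℕ) × ℕ => w.1.2 / 2 ^ (vI u w.1.1.1 - u w.2) :=
    comp_div (Computable.snd.comp Computable.fst)
      (comp_pow2 (comp_sub (hvi.comp Computable.fst) (hu.comp Computable.snd)))
  have h4 : Computable₂ (fun (z : (ℕ × ℕ) × ℕ) (j : ℕ) =>
      decide (n + 2 ≤ j) && D j (z.2 / 2 ^ (vI u z.1.1 - u j))) :=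
    comp_and (comp_le (Computable.const (n + 2)) Computable.snd)
      (Computable₂.comp hD Computable.snd h3)
  have h5 := comp_exists h4 (comp_sI.comp hi)
  exact comp_and h2 h5

lemma comp_cI (hu : Computable u) (hD : Computable₂ D) : Computable₂ (cI u D n) := by
  have h1 : Computable₂ (fun (z : ℕ × ℕ) (x : ℕ) => (qI u D n z.1 z.2 x).toNat) :=
    comp_toNat (comp_qI hu hD)
  have h2 : Computable fun z : ℕ × ℕ => ∑ x ∈ range (2 ^ vI u z.1), (qI u D n z.1 z.2 x).toNat :=
    comp_sum h1 (comp_pow2 ((comp_vI hu).comp Computable.fst))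
  refine h2.of_eq fun z => ?_
  show _ = ct (vI u z.1) (qI u D n z.1 z.2)
  unfold ct
  rw [Finset.card_filter]
  refine Finset.sum_congr rfl fun x _ => ?_
  cases qI u D n z.1 z.2 x <;> rfl

lemma comp_bI (hu : Computable u) (hD : Computable₂ D) : Computable₂ (bI u D n) := by
  have h1 : Computable fun z : ℕ × ℕ => cI u D n z.1 (2 * z.2 + 1) :=
    Computable₂.comp (comp_cI hu hD) Computable.fst
      (Computable.succ.comp (comp_mul (Computable.const 2) Computable.snd))
  have h2 : Computable fun z : ℕ × ℕ => cI u D n z.1 (2 * z.2) :=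
    Computable₂.comp (comp_cI hu hD) Computable.fst (comp_mul (Computable.const 2) Computable.snd)
  exact comp_lt h1 h2

lemma comp_yI (hu : Computable u) (hD : Computable₂ D) (y0 : ℕ) : Computable (yI u D n y0) := by
  have h1 : Computable₂ (fun (_ : ℕ) (p : ℕ × ℕ) => 2 * p.2 + (bI u D n (n + p.1) p.2).toNat) := by
    refine comp_add (comp_mul (Computable.const 2) (Computable.snd.comp Computable.snd)) ?_
    exact comp_toNat (Computable₂.comp (comp_bI hu hD) (comp_add (Computable.const n)
      (Computable.fst.comp Computable.snd)) (Computable.snd.comp Computable.snd))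
  refine (Computable.nat_rec Computable.id (Computable.const y0) h1).of_eq fun k => ?_
  induction k with
  | zero => rfl
  | succ k ih =>
    show 2 * _ + (bI u D n (n + k) _).toNat = yI u D n y0 (k + 1)
    rw [yI, ← ih]
    rfl

end

/-- **A computable sequence with prescribed first digits which passes a test.** -/
theorem exists_comp {u : ℕ → ℕ} {D : ℕ → ℕ → Bool} (hT : SchnorrTest u D) (c : ℕ → Bool) (n : ℕ) :
    ∃ b : ℕ → Bool, Computable b ∧ (∀ i < n, b i = c i) ∧ {j | D j (num b (u j)) = true}.Finite := by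
  -- the sequence of the prefixes
  obtain ⟨s, hs⟩ : ∃ s, s = sI := ⟨_, rfl⟩
  obtain ⟨V, hV⟩ : ∃ V, V = vI u := ⟨_, rfl⟩
  obtain ⟨cn, hcn⟩ : ∃ cn, cn = cI u D n := ⟨_, rfl⟩
  obtain ⟨bit, hbit⟩ : ∃ bit, bit = bI u D n := ⟨_, rfl⟩
  obtain ⟨Y, hY⟩ : ∃ Y, Y = yI u D n (num c n) := ⟨_, rfl⟩
  have hcbit : Computable₂ bit := hbit ▸ comp_bI hT.cu hT.cD
  have hY0 : Y 0 = num c n := by rw [hY]; rfl
  have hYs : ∀ k, Y (k + 1) = 2 * Y k + (bit (n + k) (Y k)).toNat := fun k => by
    rw [hY, hbit]; rfl
  have hcY : Computable Y := hY ▸ comp_yI hT.cu hT.cD _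
  obtain ⟨b, hb⟩ : ∃ b : ℕ → Bool, b = fun i => if i < n then c i else bit i (Y (i - n)) := ⟨_, rfl⟩
  have hbc : ∀ i < n, b i = c i := fun i hi => by rw [hb]; exact if_pos hi
  have hcb : Computable b := by
    have h1 : Computable fun i : ℕ => ((List.range n).map c).getD i false :=
      ((Primrec.list_getD false).comp (Primrec.const ((List.range n).map c)) Primrec.id).to_comp
    have h2 : Computable fun i : ℕ => bit i (Y (i - n)) :=
      Computable₂.comp hcbit Computable.id (hcY.comp (comp_sub Computable.id (Computable.const n)))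
    refine (Computable.cond (comp_lt Computable.id (Computable.const n)) h1 h2).of_eq fun i => ?_
    simp only [id]
    rw [hb]
    simp only []
    by_cases hi : i < n
    · rw [if_pos hi, decide_eq_true hi, cond_true, List.getD_eq_getElem _ _ (by simpa using hi)]
      simp
    · rw [if_neg hi, decide_eq_false hi, cond_false]
  have hnum : ∀ k, num b (n + k) = Y k := by
    intro k
    induction k with
    | zero => rw [add_zero, hY0]; exact num_congr hbc
    | succ k ih =>
      have e : b (n + k) = bit (n + k) (Y k) := by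
        rw [hb]
        simp only []
        rw [if_neg (by omega), Nat.add_sub_cancel_left]
      rw [← add_assoc, num, ih, hYs, e]
  refine ⟨b, hcb, hbc, ?_⟩
  -- measures
  set Bd : Set ℝ := {t | ∃ j, n + 2 ≤ j ∧ t ∈ tset u D j} with hBd
  set Bs : ℕ → Set ℝ := fun i => {t | ∃ j < s i, n + 2 ≤ j ∧ t ∈ tset u D j} with hBs
  set I : ℕ → ℕ → Set ℝ := fun i z => {t | dg i t = z} with hI
  have hIm : ∀ i z, MeasurableSet (I i z) := fun i z => dg_meas i (fun x => x = z)
  have hBsm : ∀ i, MeasurableSet (Bs i) := by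
    intro i
    have : Bs i = ⋃ j : ℕ, ⋃ (_ : j < s i ∧ n + 2 ≤ j), tset u D j := by
      ext t
      simp only [hBs, Set.mem_ofPred_eq, Set.mem_iUnion, exists_prop, and_assoc]
    rw [this]
    exact MeasurableSet.iUnion fun j => MeasurableSet.iUnion fun _ => tset_meas j
  have huV : ∀ i j, j < s i → u j ≤ V i := fun i j hj => by
    rw [hs] at hj
    rw [hV]
    exact (Finset.single_le_sum (f := u) (fun _ _ => Nat.zero_le _) (mem_range.2 hj)).trans
      (Nat.le_add_left _ _)
  have hiV : ∀ i, i + 1 ≤ V i := fun i => by rw [hV]; exact Nat.le_add_right _ _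
  have hcnm : ∀ i z, U01.real (Bs i ∩ I (i + 1) z) = (cn i z : ℝ) / 2 ^ V i := by
    intro i z
    rw [hcn, cI, ← hV, ← meas_ct]
    congr 1
    ext t
    simp only [hBs, hI, qI, Set.mem_inter_iff, Set.mem_ofPred_eq, Bool.and_eq_true, decide_eq_true_eq,
      tset, ← hV, ← hs]
    rw [dg_div (hiV i), and_comm]
    refine and_congr_right fun _ => exists_congr fun j => ?_
    refine and_congr_right fun hj => ?_
    rw [dg_div (huV i j hj)]
  have hsplit : ∀ i z, I i z = I (i + 1) (2 * z) ∪ I (i + 1) (2 * z + 1) := by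
    intro i z
    ext t
    simp only [hI, Set.mem_union, Set.mem_ofPred_eq]
    have h1 := dg_div (Nat.le_succ i) t
    rw [Nat.succ_eq_add_one, Nat.add_sub_cancel_left, pow_one] at h1
    rw [← h1]
    omega
  have hdisj : ∀ i z, Disjoint (I (i + 1) (2 * z)) (I (i + 1) (2 * z + 1)) := by
    intro i z
    rw [Set.disjoint_left]
    intro t h1 h2
    simp only [hI, Set.mem_ofPred_eq] at h1 h2
    omega
  have hIlen : ∀ i z, z < 2 ^ i → U01.real (I i z) = (1 / 2) ^ i := by
    intro i z hz
    have h1 := meas_ct i (fun x => decide (x = z))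
    have e1 : {t | decide (dg i t = z) = true} = I i z := by
      ext t
      simp only [hI, Set.mem_ofPred_eq, decide_eq_true_eq]
    rw [e1] at h1
    rw [h1]
    have e2 : ct i (fun x => decide (x = z)) = 1 := by
      unfold ct
      have : (range (2 ^ i)).filter (fun x => decide (x = z) = true) = {z} := by
        ext x
        simp only [mem_filter, mem_range, decide_eq_true_eq, mem_singleton]
        constructor
        · rintro ⟨-, h⟩; exact h
        · rintro rfl; exact ⟨hz, rfl⟩
      rw [this, card_singleton]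
    rw [e2, Nat.cast_one, one_div, one_div, inv_pow]
  -- the chosen half
  have hstep : ∀ i y, U01.real (Bd ∩ I (i + 1) (2 * y + (bit i y).toNat)) ≤
      U01.real (Bd ∩ I i y) / 2 + (1 / 2) ^ (2 * i + 4) := by
    intro i y
    have h1 : U01.real (Bs i ∩ I (i + 1) (2 * y + (bit i y).toNat)) ≤ U01.real (Bs i ∩ I i y) / 2 := by
      have h2 : U01.real (Bs i ∩ I i y) = U01.real (Bs i ∩ I (i + 1) (2 * y)) +
          U01.real (Bs i ∩ I (i + 1) (2 * y + 1)) := by
        rw [hsplit i y, Set.inter_union_distrib_left]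
        exact measureReal_union ((hdisj i y).mono Set.inter_subset_right Set.inter_subset_right)
          ((hBsm i).inter (hIm _ _)) (U01_ne_top _) (U01_ne_top _)
      rw [h2]
      have hpos : (0 : ℝ) < 2 ^ V i := by positivity
      by_cases hc : cn i (2 * y + 1) < cn i (2 * y)
      · have e : bit i y = true := by
          rw [hbit, bI, decide_eq_true_eq, ← hcn]; exact hc
        rw [e, Bool.toNat_true, hcnm, hcnm]
        have : (cn i (2 * y + 1) : ℝ) ≤ cn i (2 * y) := by exact_mod_cast hc.le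
        have := div_le_div_of_nonneg_right this hpos.le
        linarith
      · have e : bit i y = false := by
          rw [hbit, bI, decide_eq_false_iff_not, ← hcn]; exact hc
        rw [e, Bool.toNat_false, add_zero, hcnm, hcnm]
        have : (cn i (2 * y) : ℝ) ≤ cn i (2 * y + 1) := by exact_mod_cast not_lt.1 hc
        have := div_le_div_of_nonneg_right this hpos.le
        linarith
    have h2 : Bd ∩ I (i + 1) (2 * y + (bit i y).toNat) ⊆
        (Bs i ∩ I (i + 1) (2 * y + (bit i y).toNat)) ∪ {t | ∃ j, s i ≤ j ∧ t ∈ tset u D j} := by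
      rintro t ⟨⟨j, hj, hjt⟩, ht⟩
      by_cases hjs : j < s i
      · exact Or.inl ⟨⟨j, hjs, hj, hjt⟩, ht⟩
      · exact Or.inr ⟨j, not_lt.1 hjs, hjt⟩
    have h3 := (U01_mono h2).trans (measureReal_union_le _ _)
    have h4 := hT.tail (s i)
    have h5 : Bs i ∩ I i y ⊆ Bd ∩ I i y := by
      rintro t ⟨⟨j, -, hj, hjt⟩, ht⟩
      exact ⟨⟨j, hj, hjt⟩, ht⟩
    have h6 := U01_mono h5
    have e : 2 * (1 / 2 : ℝ) ^ s i = (1 / 2) ^ (2 * i + 4) := by
      rw [hs, sI]
      rw [show 2 * i + 5 = (2 * i + 4) + 1 by ring, pow_succ]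
      ring
    rw [e] at h4
    linarith
  have hinv : ∀ k, U01.real (Bd ∩ I (n + k) (Y k)) ≤
      (1 / 2) ^ (n + k) * (3 / 4 - (1 / 2) ^ (n + k + 2)) := by
    intro k
    induction k with
    | zero =>
      have h1 := (U01_mono (Set.inter_subset_left (s := Bd) (t := I (n + 0) (Y 0)))).trans
        (hT.tail (n + 2))
      refine h1.trans ?_
      rw [add_zero]
      have h2 : (1 / 2 : ℝ) ^ n ≤ 1 := pow_le_one₀ (by norm_num) (by norm_num)
      have h3 : (0 : ℝ) < (1 / 2) ^ n := by positivity
      rw [pow_add]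
      nlinarith
    | succ k ih =>
      rw [hYs]
      have h1 := hstep (n + k) (Y k)
      rw [← add_assoc]
      refine h1.trans ?_
      have e1 : (1 / 2 : ℝ) ^ (2 * (n + k) + 4) = (1 / 2) ^ (n + k) * (1 / 2) ^ (n + k) * (1 / 16) := by
        rw [show 2 * (n + k) + 4 = (n + k) + (n + k) + 4 by ring, pow_add, pow_add]
        norm_num
      have e2 : (1 / 2 : ℝ) ^ (n + k + 1) = (1 / 2) ^ (n + k) * (1 / 2) := by rw [pow_succ]
      have e3 : (1 / 2 : ℝ) ^ (n + k + 1 + 2) = (1 / 2) ^ (n + k) * (1 / 8) := by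
        rw [show n + k + 1 + 2 = (n + k) + 3 by ring, pow_add]
        norm_num
      have e4 : (1 / 2 : ℝ) ^ (n + k + 2) = (1 / 2) ^ (n + k) * (1 / 4) := by
        rw [pow_add]
        norm_num
      rw [e1, e2, e3]
      rw [e4] at ih
      nlinarith
  refine (Set.finite_lt_nat (n + 2)).subset fun j hj => ?_
  rw [Set.mem_ofPred_eq] at hj ⊢
  by_contra hcon
  rw [not_lt] at hcon
  set k := u j with hk
  have h1 : I (n + k) (Y k) ⊆ Bd := by
    intro t ht
    refine ⟨j, hcon, ?_⟩
    simp only [hI, Set.mem_ofPred_eq] at ht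
    show D j (dg (u j) t) = true
    have h2 : u j ≤ n + k := by omega
    rw [← dg_div h2, ht, ← hnum, num_div b h2]
    exact hj
  have h2 := hinv k
  rw [Set.inter_eq_right.2 h1, hIlen _ _ (by rw [← hnum]; exact num_lt _ _)] at h2
  have h3 : (0 : ℝ) < (1 / 2) ^ (n + k) := by positivity
  have h4 : (0 : ℝ) < (1 / 2) ^ (n + k + 2) := by positivity
  nlinarith

end Pool.Agent.Helper88.EL
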