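import Mathlib
import Pool.Agent.Helper88.EL.Test
import Pool.Agent.Helper88.EL.Base

set_option autoImplicit false

/-!
# The counting functions of a family, their computability and their deviations
-/

namespace Pool.Agent.Helper88.EL

open MeasureTheory Finset Filter
open Pool.Agent.Y895.PM (U01 U01_univ fn)

lemma comp_find {P : ℕ → ℕ → Bool} (hP : Computable₂ P) (h : ∀ k, ∃ n, P k n = true) :
    Computable fun k => Nat.find (h k) := by
  refine (Partrec.rfind hP.partrec₂).of_eq fun k => ?_
  show Nat.rfind (fun n => Part.some (P k n)) = Part.some (Nat.find (h k))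
  rw [Part.eq_some_iff, Nat.mem_rfind]
  refine ⟨?_, fun {j} hj => ?_⟩
  · have := Nat.find_spec (h k)
    show true ∈ Part.some (P k (Nat.find (h k)))
    rw [this]
    exact Part.mem_some _
  · have := Nat.find_min (h k) hj
    rw [Bool.not_eq_true] at this
    show false ∈ Part.some (P k j)
    rw [this]
    exact Part.mem_some _

section

variable (A m : ℕ → ℕ) (s : ℕ → Bool)

/-- enough digits for all numbers below `n` -/
def uu (n : ℕ) : ℕ := ∑ q ∈ range n, m q

/-- is the rough part a prime -/
def rb (q N : ℕ) : Bool := decide (roughPart q N).Prime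

/-- the primes of the set -/
def ok (q : ℕ) : Bool := s q && decide q.Prime

/-- the counting function at the string `x` of length `uu m n` -/
def FF (n x : ℕ) : ℕ := ∑ q ∈ range n, (ok s q && rb q (A q + x / 2 ^ (uu m n - m q))).toNat

/-- the number of favourable strings -/
def cc (q : ℕ) : ℕ := ∑ D ∈ range (2 ^ m q), (rb q (A q + D)).toNat

/-- the mean of the counting function, times `2 ^ uu m n` -/
def GG (n : ℕ) : ℕ := ∑ q ∈ range n, (ok s q).toNat * (2 ^ (uu m n - m q) * cc A m q)

/-- the deviation, times `2 ^ uu m n` -/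
def dd (n x : ℕ) : ℕ := (FF A m s n x * 2 ^ uu m n - GG A m s n) +
  (GG A m s n - FF A m s n x * 2 ^ uu m n)

variable {A m s}

lemma comp_uu (hm : Computable m) : Computable (uu m) :=
  comp_sum (f := fun (_ : ℕ) q => m q) (hm.comp Computable.snd) Computable.id

lemma comp_rb : Computable₂ rb := (primrec_rough.decide).to_comp

lemma comp_ok (hs : Computable s) : Computable (ok s) :=
  comp_and hs primrec_prime.decide.to_comp

lemma comp_FF (hA : Computable A) (hm : Computable m) (hs : Computable s) :
    Computable₂ (FF A m s) := by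
  have h1 : Computable₂ (fun (z : ℕ × ℕ) (q : ℕ) =>
      (ok s q && rb q (A q + z.2 / 2 ^ (uu m z.1 - m q))).toNat) := by
    have h2 : Computable fun w : (ℕ × ℕ) × ℕ => A w.2 + w.1.2 / 2 ^ (uu m w.1.1 - m w.2) :=
      comp_add (hA.comp Computable.snd) (comp_div (Computable.snd.comp Computable.fst)
        (comp_pow2 (comp_sub ((comp_uu hm).comp (Computable.fst.comp Computable.fst))
          (hm.comp Computable.snd))))
    exact comp_toNat (comp_and ((comp_ok hs).comp Computable.snd)
      (Computable₂.comp comp_rb Computable.snd h2))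
  exact comp_sum h1 Computable.fst

lemma comp_cc (hA : Computable A) (hm : Computable m) : Computable (cc A m) := by
  have h1 : Computable₂ (fun (q D : ℕ) => (rb q (A q + D)).toNat) :=
    comp_toNat (Computable₂.comp comp_rb Computable.fst
      (comp_add (hA.comp Computable.fst) Computable.snd))
  exact comp_sum h1 (comp_pow2 hm)

lemma comp_GG (hA : Computable A) (hm : Computable m) (hs : Computable s) :
    Computable (GG A m s) := by
  have h1 : Computable₂ (fun (n q : ℕ) =>
      (ok s q).toNat * (2 ^ (uu m n - m q) * cc A m q)) :=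
    comp_mul (comp_toNat ((comp_ok hs).comp Computable.snd))
      (comp_mul (comp_pow2 (comp_sub ((comp_uu hm).comp Computable.fst) (hm.comp Computable.snd)))
        ((comp_cc hA hm).comp Computable.snd))
  exact comp_sum h1 Computable.id

lemma comp_dd (hA : Computable A) (hm : Computable m) (hs : Computable s) :
    Computable₂ (dd A m s) := by
  have h1 : Computable fun z : ℕ × ℕ => FF A m s z.1 z.2 * 2 ^ uu m z.1 :=
    comp_mul (comp_FF hA hm hs) (comp_pow2 ((comp_uu hm).comp Computable.fst))
  have h2 : Computable fun z : ℕ × ℕ => GG A m s z.1 := (comp_GG hA hm hs).comp Computable.fst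
  exact comp_add (comp_sub h1 h2) (comp_sub h2 h1)

lemma comp_ct {α : Type*} [Primcodable α] {u : α → ℕ} {p : α → ℕ → Bool} (hu : Computable u)
    (hp : Computable₂ p) : Computable fun a => ct (u a) (p a) := by
  have h1 : Computable₂ (fun (a : α) (x : ℕ) => (p a x).toNat) := comp_toNat hp
  refine (comp_sum h1 (comp_pow2 hu)).of_eq fun a => ?_
  unfold ct
  rw [Finset.card_filter]
  refine Finset.sum_congr rfl fun x _ => ?_
  cases p a x <;> rfl

/-! ### Relation with the functions on the unit interval -/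

/-- the events -/
noncomputable def fq (A m : ℕ → ℕ) (q : ℕ) (t : ℝ) : ℝ := fn q (A q + dg (m q) t)

/-- the indices of the events -/
def RR (s : ℕ → Bool) (n : ℕ) : Finset ℕ := (range n).filter (fun q => ok s q = true)

lemma RR_prime (n : ℕ) : ∀ q ∈ RR s n, q.Prime := by
  intro q hq
  unfold RR ok at hq
  rw [mem_filter, Bool.and_eq_true, decide_eq_true_eq] at hq
  exact hq.2.2

lemma fn_rb (q N : ℕ) : fn q N = ((rb q N).toNat : ℝ) := by
  unfold fn rb
  by_cases h : (roughPart q N).Prime
  · rw [decide_eq_true h]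
    have h' : (Pool.Agent.H305R2.roughPart q N).Prime := h
    rw [if_pos h']
    simp
  · rw [decide_eq_false h]
    have h' : ¬ (Pool.Agent.H305R2.roughPart q N).Prime := h
    rw [if_neg h']
    simp

lemma mle_uu {n q : ℕ} (h : q < n) : m q ≤ uu m n :=
  Finset.single_le_sum (f := m) (fun _ _ => Nat.zero_le _) (mem_range.2 h)

lemma sum_ok (n : ℕ) (g : ℕ → ℝ) : ∑ q ∈ RR s n, g q =
    ∑ q ∈ range n, ((ok s q).toNat : ℝ) * g q := by
  unfold RR
  rw [Finset.sum_filter]
  refine Finset.sum_congr rfl fun q _ => ?_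
  cases ok s q <;> simp

lemma FF_eq (n : ℕ) (t : ℝ) : (FF A m s n (dg (uu m n) t) : ℝ) = ∑ q ∈ RR s n, fq A m q t := by
  rw [sum_ok]
  unfold FF
  push_cast
  refine Finset.sum_congr rfl fun q hq => ?_
  rw [dg_div (mle_uu (mem_range.1 hq))]
  unfold fq
  rw [fn_rb]
  cases ok s q <;> simp

/-- for digit sequences -/
lemma FF_num (b : ℕ → Bool) (n : ℕ) : FF A m s n (num b (uu m n)) =
    ((RR s n).filter (fun q => (roughPart q (A q + num b (m q))).Prime)).card := by
  unfold FF RR
  rw [Finset.filter_filter, Finset.card_filter]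
  refine Finset.sum_congr rfl fun q hq => ?_
  rw [num_div b (mle_uu (mem_range.1 hq))]
  unfold rb
  by_cases h1 : ok s q = true
  · by_cases h2 : (roughPart q (A q + num b (m q))).Prime
    · simp [h1, h2]
    · simp [h1, h2]
  · rw [Bool.not_eq_true] at h1
    simp [h1]

lemma fq_meas (q : ℕ) : Measurable (fq A m q) := by
  have h := Pool.Agent.Y895.PM.floor_meas 2 (fun D => fn q (A q + D)) (m q)
  simp only [Nat.cast_ofNat] at h
  exact h

lemma fq_int (q : ℕ) : ∫ t, fq A m q t ∂U01 = (cc A m q : ℝ) / 2 ^ m q := by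
  have h := Pool.Agent.Y895.PM.avg (b := 2) le_rfl (G := fun D => fn q (A q + D)) (fun n => by
    rw [abs_of_nonneg (Pool.Agent.Y895.PM.fn_nonneg _ _)]
    exact Pool.Agent.Y895.PM.fn_le_one _ _) (m q)
  simp only [Nat.cast_ofNat] at h
  have e : ∫ t, fq A m q t ∂U01 = ∫ t, fn q (A q + ⌊(2 : ℝ) ^ m q * t⌋₊) ∂U01 := rfl
  rw [e, h, inv_mul_eq_div]
  congr 1
  unfold cc
  push_cast
  exact Finset.sum_congr rfl fun D _ => fn_rb _ _

lemma GG_eq (n : ℕ) : (GG A m s n : ℝ) / 2 ^ uu m n = ∑ q ∈ RR s n, ∫ t, fq A m q t ∂U01 := by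
  rw [sum_ok]
  unfold GG
  push_cast
  rw [Finset.sum_div]
  refine Finset.sum_congr rfl fun q hq => ?_
  rw [fq_int, mul_div_assoc]
  congr 1
  have h1 := mle_uu (m := m) (mem_range.1 hq)
  obtain ⟨d, hd⟩ := Nat.exists_eq_add_of_le h1
  rw [hd, Nat.add_sub_cancel_left, pow_add]
  field_simp

lemma dd_eq (n x : ℕ) : (dd A m s n x : ℝ) / 2 ^ uu m n =
    |(FF A m s n x : ℝ) - (GG A m s n : ℝ) / 2 ^ uu m n| := by
  have hpos : (0 : ℝ) < 2 ^ uu m n := by positivity
  set u : ℝ := 2 ^ uu m n with hu
  have h1 : (FF A m s n x : ℝ) - (GG A m s n : ℝ) / u = (FF A m s n x * u - GG A m s n) / u := by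
    field_simp
  rw [h1, abs_div, abs_of_pos hpos]
  congr 1
  unfold dd
  push_cast
  rcases le_total (GG A m s n) (FF A m s n x * 2 ^ uu m n) with h | h
  · have h' : (GG A m s n : ℝ) ≤ FF A m s n x * u := by rw [hu]; exact_mod_cast h
    rw [abs_of_nonneg (by linarith), Nat.sub_eq_zero_of_le h, Nat.cast_sub h]
    push_cast
    rw [hu]
    ring
  · have h' : (FF A m s n x * u : ℝ) ≤ GG A m s n := by rw [hu]; exact_mod_cast h
    rw [abs_of_nonpos (by linarith), Nat.sub_eq_zero_of_le h, Nat.cast_sub h]
    push_cast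
    rw [hu]
    ring

end

end Pool.Agent.Helper88.EL
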