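import Mathlib
import Pool.Agent.Helper88.EL.Fam

set_option autoImplicit false

/-!
# The test attached to a family
-/

namespace Pool.Agent.Helper88.EL

open MeasureTheory Finset Filter Topology
open Pool.Agent.Y895.PM (U01 U01_univ fn)

section

variable (A m : ℕ → ℕ) (s : ℕ → Bool)

/-- the mean of the counting function -/
noncomputable def av (n : ℕ) : ℝ := (GG A m s n : ℝ) / 2 ^ uu m n

/-- the points with a relative deviation of more than `1 / r` -/
def bad (n r : ℕ) : Set ℝ := {t | decide (GG A m s n < r * dd A m s n (dg (uu m n) t)) = true}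

/-- is the probability of a relative deviation of more than `1 / r` at most `1 / (k + 1) ^ 3` -/
def cnd (N : ℕ → ℕ) (k r : ℕ) : Bool :=
  decide ((k + 1) ^ 3 * ct (uu m (N k)) (fun x => decide (GG A m s (N k) < r * dd A m s (N k) x)) ≤
    2 ^ uu m (N k))

/-- the largest such `r ≤ k` -/
def rk (N : ℕ → ℕ) (k : ℕ) : ℕ := ∑ r ∈ range k, (cnd A m s N k (r + 1)).toNat

/-- the test -/
def EE (N : ℕ → ℕ) (k x : ℕ) : Bool :=
  decide (GG A m s (N k) < rk A m s N k * dd A m s (N k) x)

variable {A m s}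

lemma comp_cnd (hA : Computable A) (hm : Computable m) (hs : Computable s) {N : ℕ → ℕ}
    (hN : Computable N) : Computable₂ (cnd A m s N) := by
  have hu : Computable fun z : ℕ × ℕ => uu m (N z.1) := (comp_uu hm).comp (hN.comp Computable.fst)
  have h1 : Computable₂ (fun (z : ℕ × ℕ) (x : ℕ) =>
      decide (GG A m s (N z.1) < z.2 * dd A m s (N z.1) x)) :=
    comp_lt ((comp_GG hA hm hs).comp (hN.comp (Computable.fst.comp Computable.fst)))
      (comp_mul (Computable.snd.comp Computable.fst)
        (Computable₂.comp (comp_dd hA hm hs) (hN.comp (Computable.fst.comp Computable.fst))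
          Computable.snd))
  have h2 : Computable fun z : ℕ × ℕ => (z.1 + 1) ^ 3 :=
    Computable₂.comp primrec_pow.to_comp (Computable.succ.comp Computable.fst) (Computable.const 3)
  exact comp_le (comp_mul h2 (comp_ct hu h1)) (comp_pow2 hu)

lemma comp_rk (hA : Computable A) (hm : Computable m) (hs : Computable s) {N : ℕ → ℕ}
    (hN : Computable N) : Computable (rk A m s N) := by
  have h1 : Computable₂ (fun (k r : ℕ) => (cnd A m s N k (r + 1)).toNat) :=
    comp_toNat (Computable₂.comp (comp_cnd hA hm hs hN) Computable.fst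
      (Computable.succ.comp Computable.snd))
  exact comp_sum h1 Computable.id

lemma comp_EE (hA : Computable A) (hm : Computable m) (hs : Computable s) {N : ℕ → ℕ}
    (hN : Computable N) : Computable₂ (EE A m s N) :=
  comp_lt ((comp_GG hA hm hs).comp (hN.comp Computable.fst))
    (comp_mul ((comp_rk hA hm hs hN).comp Computable.fst)
      (Computable₂.comp (comp_dd hA hm hs) (hN.comp Computable.fst) Computable.snd))

lemma bad_iff (n r : ℕ) (t : ℝ) : t ∈ bad A m s n r ↔
    av A m s n < r * |∑ q ∈ RR s n, fq A m q t - av A m s n| := by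
  have hpos : (0 : ℝ) < 2 ^ uu m n := by positivity
  have h := dd_eq (A := A) (m := m) (s := s) n (dg (uu m n) t)
  rw [FF_eq] at h
  unfold bad av
  rw [Set.mem_ofPred_eq, decide_eq_true_eq, ← h, mul_div_assoc', div_lt_div_iff_of_pos_right hpos]
  exact_mod_cast Iff.rfl

lemma bad_mono (n : ℕ) {r r' : ℕ} (h : r ≤ r') : bad A m s n r ⊆ bad A m s n r' := by
  intro t ht
  rw [bad_iff] at ht ⊢
  refine ht.trans_le (mul_le_mul_of_nonneg_right ?_ (abs_nonneg _))
  exact_mod_cast h

lemma cnd_iff (N : ℕ → ℕ) (k r : ℕ) : cnd A m s N k r = true ↔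
    ((k : ℝ) + 1) ^ 3 * U01.real (bad A m s (N k) r) ≤ 1 := by
  unfold cnd bad
  rw [meas_ct (uu m (N k)) (fun x => decide (GG A m s (N k) < r * dd A m s (N k) x)),
    decide_eq_true_eq, mul_div_assoc', div_le_one (by positivity)]
  exact_mod_cast Iff.rfl

lemma cnd_anti (N : ℕ → ℕ) (k : ℕ) {r r' : ℕ} (h : r ≤ r') (h1 : cnd A m s N k r' = true) :
    cnd A m s N k r = true := by
  rw [cnd_iff] at h1 ⊢
  refine le_trans (mul_le_mul_of_nonneg_left (U01_mono (bad_mono _ h)) (by positivity)) h1

lemma rk_spec (N : ℕ → ℕ) (k : ℕ) (h : rk A m s N k ≠ 0) : cnd A m s N k (rk A m s N k) = true := by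
  by_contra hcon
  have h1 : rk A m s N k ≤ rk A m s N k - 1 := by
    conv_lhs => unfold rk
    calc ∑ r ∈ range k, (cnd A m s N k (r + 1)).toNat ≤
          ∑ r ∈ range k, if r < rk A m s N k - 1 then 1 else 0 := by
          refine Finset.sum_le_sum fun r _ => ?_
          by_cases hr : cnd A m s N k (r + 1) = true
          · have h2 : r < rk A m s N k - 1 := by
              by_contra h3
              exact hcon (cnd_anti N k (by omega) hr)
            rw [if_pos h2, hr]
            simp
          · rw [Bool.not_eq_true] at hr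
            rw [hr]
            simp
      _ = ((range k).filter (fun r => r < rk A m s N k - 1)).card := by
          rw [Finset.card_filter]
      _ ≤ (range (rk A m s N k - 1)).card := Finset.card_le_card fun r hr => by
          rw [mem_filter] at hr
          exact mem_range.2 hr.2
      _ = _ := card_range _
  omega

lemma rk_ge (N : ℕ → ℕ) {k r : ℕ} (hr : r ≤ k) (h : cnd A m s N k r = true) :
    r ≤ rk A m s N k := by
  unfold rk
  calc r = ∑ i ∈ range r, 1 := by simp
    _ ≤ ∑ i ∈ range r, (cnd A m s N k (i + 1)).toNat := by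
        refine Finset.sum_le_sum fun i hi => ?_
        rw [mem_range] at hi
        rw [cnd_anti N k (by omega : i + 1 ≤ r) h]
        simp
    _ ≤ _ := Finset.sum_le_sum_of_subset_of_nonneg (Finset.range_mono hr) fun _ _ _ => Nat.zero_le _

lemma EE_meas (N : ℕ → ℕ) (k : ℕ) :
    ((k : ℝ) + 1) ^ 2 * U01.real (tset (fun k => uu m (N k)) (EE A m s N) k) ≤ 1 := by
  have e : tset (fun k => uu m (N k)) (EE A m s N) k = bad A m s (N k) (rk A m s N k) := rfl
  rw [e]
  by_cases h : rk A m s N k = 0
  · rw [h]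
    have : bad A m s (N k) 0 = ∅ := by
      ext t
      unfold bad
      simp
    rw [this, measureReal_empty, mul_zero]
    norm_num
  · have h1 := (cnd_iff N k _).1 (rk_spec N k h)
    have h2 : 0 ≤ U01.real (bad A m s (N k) (rk A m s N k)) := measureReal_nonneg
    have h3 : ((k : ℝ) + 1) ^ 2 ≤ ((k : ℝ) + 1) ^ 3 :=
      pow_le_pow_right₀ (by have := Nat.cast_nonneg (α := ℝ) k; linarith) (by norm_num)
    nlinarith [mul_le_mul_of_nonneg_right h3 h2]

lemma av_eq (n : ℕ) : av A m s n = ∑ q ∈ RR s n, ∫ t, fq A m q t ∂U01 := GG_eq n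

lemma fq0 (q : ℕ) (t : ℝ) : 0 ≤ fq A m q t := Pool.Agent.Y895.PM.fn_nonneg _ _

lemma fq1 (q : ℕ) (t : ℝ) : fq A m q t ≤ 1 := Pool.Agent.Y895.PM.fn_le_one _ _

lemma av_zero : av A m s 0 = 0 := by
  rw [av_eq]
  unfold RR
  simp

lemma int_fq_bd (q : ℕ) : 0 ≤ ∫ t, fq A m q t ∂U01 ∧ ∫ t, fq A m q t ∂U01 ≤ 1 := by
  refine ⟨integral_nonneg fun t => fq0 q t, ?_⟩
  rw [← int_const' 1]
  refine integral_mono (int_of_bdd (fq_meas q) 1 fun t => ?_) (integrable_const _) fun t => fq1 q t
  rw [abs_of_nonneg (fq0 q t)]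
  exact fq1 q t

lemma av_succ (n : ℕ) : av A m s n ≤ av A m s (n + 1) ∧ av A m s (n + 1) ≤ av A m s n + 1 := by
  rw [av_eq, av_eq]
  have h := int_fq_bd (A := A) (m := m) n
  unfold RR
  rw [Finset.range_add_one, Finset.filter_insert]
  split_ifs with h1
  · rw [Finset.sum_insert (by simp)]
    constructor <;> linarith
  · constructor <;> linarith

lemma av_mono : Monotone (av A m s) := monotone_nat_of_le_succ fun n => (av_succ n).1

/-- the count for a digit sequence -/
def Fb (A m : ℕ → ℕ) (s : ℕ → Bool) (b : ℕ → Bool) (n : ℕ) : ℕ :=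
  ((RR s n).filter (fun q => (roughPart q (A q + num b (m q))).Prime)).card

lemma Fb_mono (b : ℕ → Bool) : Monotone (Fb A m s b) := by
  intro n n' h
  unfold Fb RR
  exact Finset.card_le_card (Finset.filter_subset_filter _ (Finset.filter_subset_filter _
    (Finset.range_mono h)))

lemma EE_num (N : ℕ → ℕ) (k : ℕ) (b : ℕ → Bool) : EE A m s N k (num b (uu m (N k))) = false ↔
    rk A m s N k * |(Fb A m s b (N k) : ℝ) - av A m s (N k)| ≤ av A m s (N k) := by
  have hpos : (0 : ℝ) < 2 ^ uu m (N k) := by positivity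
  have h := dd_eq (A := A) (m := m) (s := s) (N k) (num b (uu m (N k)))
  rw [FF_num] at h
  unfold EE
  rw [decide_eq_false_iff_not, not_lt]
  unfold Fb av
  rw [← h, mul_div_assoc', div_le_div_iff_of_pos_right hpos]
  exact_mod_cast Iff.rfl

/-- the counting times -/
lemma exists_times (hA : Computable A) (hm : Computable m) (hs : Computable s)
    (hinf : Tendsto (av A m s) atTop atTop) :
    ∃ N : ℕ → ℕ, Computable N ∧ (∀ k : ℕ, (k : ℝ) ^ 4 ≤ av A m s (N k)) ∧
      (∀ k n : ℕ, n < N k → av A m s n < (k : ℝ) ^ 4) := by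
  have hP : Computable₂ (fun k n : ℕ => decide (k ^ 4 * 2 ^ uu m n ≤ GG A m s n)) := by
    have h1 : Computable fun z : ℕ × ℕ => z.1 ^ 4 :=
      Computable₂.comp primrec_pow.to_comp Computable.fst (Computable.const 4)
    exact comp_le (comp_mul h1 (comp_pow2 ((comp_uu hm).comp Computable.snd)))
      ((comp_GG hA hm hs).comp Computable.snd)
  have hiff : ∀ k n, decide (k ^ 4 * 2 ^ uu m n ≤ GG A m s n) = true ↔ (k : ℝ) ^ 4 ≤ av A m s n := by
    intro k n
    have hpos : (0 : ℝ) < 2 ^ uu m n := by positivity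
    unfold av
    rw [decide_eq_true_eq, le_div_iff₀ hpos]
    exact_mod_cast Iff.rfl
  have hex : ∀ k, ∃ n, decide (k ^ 4 * 2 ^ uu m n ≤ GG A m s n) = true := by
    intro k
    obtain ⟨n, hn⟩ := (hinf.eventually_ge_atTop ((k : ℝ) ^ 4)).exists
    exact ⟨n, (hiff k n).2 hn⟩
  refine ⟨fun k => Nat.find (hex k), comp_find hP hex, fun k => (hiff k _).1 (Nat.find_spec (hex k)),
    fun k n hn => ?_⟩
  have h1 := Nat.find_min (hex k) hn
  rw [hiff] at h1
  exact not_le.1 h1

end

end Pool.Agent.Helper88.EL
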