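import Mathlib
import Pool.Agent.Helper88.EL.Law

set_option autoImplicit false

/-!
# The law for the sequences which pass the test
-/

namespace Pool.Agent.Helper88.EL

open MeasureTheory Finset Filter Topology
open Pool.Agent.Y895.PM (U01 U01_univ fn)

section

variable {A m : ℕ → ℕ} {s : ℕ → Bool} {w : ℕ → ℝ} {G : ℝ}

/-- the sum of the weights -/
noncomputable def Vw (s : ℕ → Bool) (w : ℕ → ℝ) (n : ℕ) : ℝ := ∑ q ∈ RR s n, w q

/-- the conclusion of `base_dev` -/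
def DevE (A m : ℕ → ℕ) (s : ℕ → Bool) (w : ℕ → ℝ) (G ε : ℝ) : Prop :=
  ∃ C Q : ℝ, 0 ≤ C ∧ 0 ≤ Q ∧ ∀ n : ℕ,
    |av A m s n - G * Vw s w n| ≤ ε * G * Vw s w n + Real.sqrt (C * Vw s w n) + Q ∧
    ∀ lam : ℝ, 0 < lam →
      U01.real {t | 2 * ε * G * Vw s w n + Real.sqrt (C * Vw s w n) + Q + lam <
        |∑ q ∈ RR s n, fq A m q t - av A m s n|} ≤ C * Vw s w n / lam ^ 2

/-- the conclusion of `base_dev` for all `ε` -/
def Dev (A m : ℕ → ℕ) (s : ℕ → Bool) (w : ℕ → ℝ) (G : ℝ) : Prop :=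
  ∀ ε : ℝ, 0 < ε → ε < 1 → DevE A m s w G ε

lemma sqrt_small {C Q a : ℝ} (hC : 0 ≤ C) (hQ : 0 ≤ Q) (ha : 0 < a) :
    ∃ V0 : ℝ, 0 < V0 ∧ ∀ V : ℝ, V0 ≤ V → Real.sqrt (C * V) + Q ≤ a * V := by
  refine ⟨4 * C / a ^ 2 + 2 * Q / a + 1, by positivity, fun V hV => ?_⟩
  have h1 : 0 ≤ 4 * C / a ^ 2 := by positivity
  have h2 : 0 ≤ 2 * Q / a := by positivity
  have hV0 : 0 < V := by linarith
  have h3 : Q ≤ a / 2 * V := by
    have : 2 * Q / a ≤ V := by linarith
    rw [div_le_iff₀ ha] at this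
    linarith
  have h4 : Real.sqrt (C * V) ≤ a / 2 * V := by
    have h5 : 4 * C / a ^ 2 ≤ V := by linarith
    rw [div_le_iff₀ (by positivity)] at h5
    rw [Real.sqrt_le_left (by positivity)]
    nlinarith
  linarith

lemma dev_bad {r : ℕ} (hr : 1 ≤ r) (h : DevE A m s w G (1 / (16 * r))) (hG : 0 < G) :
    ∃ K V0 : ℝ, 0 ≤ K ∧ 0 < V0 ∧ ∀ n, V0 ≤ Vw s w n → U01.real (bad A m s n r) ≤ K / Vw s w n := by
  have hr0 : (1 : ℝ) ≤ r := by exact_mod_cast hr
  have hrp : (0 : ℝ) < r := by linarith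
  obtain ⟨C, Q, hC, hQ, hb⟩ := h
  obtain ⟨V0, hV0, hs⟩ := sqrt_small hC hQ (a := G / (16 * r)) (by positivity)
  refine ⟨4 * r ^ 2 * C / G ^ 2, V0, by positivity, hV0, fun n hn => ?_⟩
  obtain ⟨h1, h2⟩ := hb n
  set V := Vw s w n with hV
  have hVp : 0 < V := by linarith
  have h3 := hs V hn
  have e1 : 1 / (16 * r) * G * V = G / (16 * r) * V := by ring
  set g := G / (16 * r) * V with hg
  have hgp : 0 < g := by positivity
  have e2 : G * V = 16 * r * g := by rw [hg]; field_simp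
  have h4 : 14 * r * g ≤ av A m s n := by
    have h5 := (abs_le.1 h1).1
    rw [e1, e2] at h5
    nlinarith
  have h5 := h2 (8 * g) (by positivity)
  have e3 : C * V / (8 * g) ^ 2 = 4 * r ^ 2 * C / G ^ 2 / V := by
    rw [hg]
    field_simp
    ring
  rw [e3] at h5
  refine le_trans (U01_mono fun t ht => ?_) h5
  rw [bad_iff] at ht
  rw [Set.mem_ofPred_eq]
  have h6 : 14 * g < |∑ q ∈ RR s n, fq A m q t - av A m s n| := by
    by_contra hcon
    rw [not_lt] at hcon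
    have : r * |∑ q ∈ RR s n, fq A m q t - av A m s n| ≤ r * (14 * g) :=
      mul_le_mul_of_nonneg_left hcon hrp.le
    nlinarith
  have e4 : 2 * (1 / (16 * r)) * G * V = 2 * g := by rw [hg]; field_simp
  rw [e4]
  linarith

/-- the mean is close to `G V` -/
lemma dev_avE {ε : ℝ} (h : DevE A m s w G ε) (hV : Tendsto (Vw s w) atTop atTop) {η : ℝ}
    (hη : 0 < η) : ∀ᶠ n in atTop, |av A m s n - G * Vw s w n| ≤ (ε * G + η) * Vw s w n := by
  obtain ⟨C, Q, hC, hQ, hb⟩ := h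
  obtain ⟨V0, hV0, hs⟩ := sqrt_small hC hQ hη
  filter_upwards [hV.eventually_ge_atTop V0] with n hn
  obtain ⟨h1, -⟩ := hb n
  have h2 := hs _ hn
  linarith

/-- the mean is asymptotic to `G V` -/
lemma dev_av (h : Dev A m s w G) (hG : 0 < G) (hV : Tendsto (Vw s w) atTop atTop) :
    ∀ ε : ℝ, 0 < ε → ∀ᶠ n in atTop, |av A m s n - G * Vw s w n| ≤ ε * Vw s w n := by
  intro ε hε
  filter_upwards [dev_avE (h (min (ε / (2 * G)) (1 / 2)) (by positivity)
    (lt_of_le_of_lt (min_le_right _ _) (by norm_num))) hV (half_pos hε),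
    hV.eventually_gt_atTop 0] with n hn hVp
  have h3 : min (ε / (2 * G)) (1 / 2) * G ≤ ε / 2 := by
    calc min (ε / (2 * G)) (1 / 2) * G ≤ ε / (2 * G) * G :=
          mul_le_mul_of_nonneg_right (min_le_left _ _) hG.le
      _ = ε / 2 := by field_simp
  refine hn.trans (mul_le_mul_of_nonneg_right ?_ hVp.le)
  linarith

lemma avE_tendsto {ε : ℝ} (h : DevE A m s w G ε) (hε : ε < 1) (hG : 0 < G)
    (hV : Tendsto (Vw s w) atTop atTop) : Tendsto (av A m s) atTop atTop := by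
  have h1 := dev_avE h hV (η := (1 - ε) * G / 2) (by
    have : 0 < 1 - ε := by linarith
    positivity)
  refine tendsto_atTop_mono' _ ?_ (hV.const_mul_atTop (show 0 < (1 - ε) * G / 2 by
    have : 0 < 1 - ε := by linarith
    positivity))
  filter_upwards [h1] with n hn
  have := (abs_le.1 hn).1
  linarith

lemma dev_av_tendsto (h : Dev A m s w G) (hG : 0 < G) (hV : Tendsto (Vw s w) atTop atTop) :
    Tendsto (av A m s) atTop atTop := by
  have h1 := dev_av h hG hV (G / 2) (by positivity)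
  refine tendsto_atTop_mono' _ ?_ (hV.const_mul_atTop (show 0 < G / 2 by positivity))
  filter_upwards [h1] with n hn
  have := (abs_le.1 hn).1
  linarith

lemma times_le {N : ℕ → ℕ} (hN2 : ∀ k n : ℕ, n < N k → av A m s n < (k : ℝ) ^ 4) (k : ℕ) :
    av A m s (N k) ≤ (k : ℝ) ^ 4 + 1 := by
  rcases Nat.eq_zero_or_pos (N k) with h0 | h0
  · rw [h0, av_zero]; positivity
  · obtain ⟨n, hn⟩ : ∃ n, N k = n + 1 := ⟨N k - 1, by omega⟩
    have h1 := hN2 k n (by omega)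
    have h2 := (av_succ (A := A) (m := m) (s := s) n).2
    rw [hn]
    linarith

/-- from the counting times to all times -/
lemma ratio_all {N : ℕ → ℕ} (hN1 : ∀ k : ℕ, (k : ℝ) ^ 4 ≤ av A m s (N k))
    (hN2 : ∀ k n : ℕ, n < N k → av A m s n < (k : ℝ) ^ 4) {b : ℕ → Bool} {r : ℕ} (hr : 2 ≤ r)
    (hE : ∀ᶠ k in atTop, r * |(Fb A m s b (N k) : ℝ) - av A m s (N k)| ≤ av A m s (N k)) :
    ∀ᶠ n in atTop, (1 - 2 / (r : ℝ)) * av A m s n ≤ Fb A m s b n ∧
        (Fb A m s b n : ℝ) ≤ (1 + 3 / (r : ℝ)) * av A m s n := by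
  have hNle := times_le hN2
  have hr0 : (2 : ℝ) ≤ r := by exact_mod_cast hr
  have hrp : (0 : ℝ) < r := by linarith
  obtain ⟨k1, hk1⟩ := eventually_atTop.1 hE
  -- `(k + 1) ^ 4 + 1` is close to `k ^ 4`
  have h2 : ∀ᶠ k : ℕ in atTop, ((k : ℝ) + 1) ^ 4 + 1 ≤ (1 + 1 / r) * (k : ℝ) ^ 4 := by
    filter_upwards [tendsto_natCast_atTop_atTop.eventually_ge_atTop (16 * (r : ℝ)),
      eventually_ge_atTop 1] with k hk hk1
    have hk1' : (1 : ℝ) ≤ k := by exact_mod_cast hk1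
    have e : (1 + 1 / (r : ℝ)) * (k : ℝ) ^ 4 = (k : ℝ) ^ 4 + (k : ℝ) ^ 4 / r := by ring
    rw [e]
    have h3 : 16 * (k : ℝ) ^ 3 ≤ (k : ℝ) ^ 4 / r := by
      rw [le_div_iff₀ hrp]
      have : (k : ℝ) ^ 3 * (16 * r) ≤ (k : ℝ) ^ 3 * k := mul_le_mul_of_nonneg_left hk (by positivity)
      nlinarith
    have h4 : (k : ℝ) ≤ (k : ℝ) ^ 3 := by nlinarith [mul_pos (show (0:ℝ) < k by linarith) (show (0:ℝ) < k by linarith)]
    have h5 : (k : ℝ) ^ 2 ≤ (k : ℝ) ^ 3 := by nlinarith [sq_nonneg (k : ℝ)]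
    have h6 : (1 : ℝ) ≤ (k : ℝ) ^ 3 := one_le_pow₀ hk1'
    nlinarith
  obtain ⟨k2, hk2⟩ := eventually_atTop.1 h2
  set k3 := k1 + k2 + 1 with hk3
  filter_upwards [eventually_ge_atTop (N k3)] with n hn
  -- the time interval
  have hex : ∃ k, n < N k := by
    have h3 : Tendsto (fun k : ℕ => (k : ℝ) ^ 4) atTop atTop :=
      (tendsto_pow_atTop (by norm_num)).comp tendsto_natCast_atTop_atTop
    obtain ⟨k, hk⟩ := (h3.eventually_gt_atTop (av A m s n)).exists
    refine ⟨k, ?_⟩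
    by_contra hcon
    have h4 := av_mono (A := A) (m := m) (s := s) (not_lt.1 hcon)
    have := hN1 k
    linarith
  have hNmono : Monotone N := by
    refine monotone_nat_of_le_succ fun k => ?_
    by_contra hcon
    have h3 := hN2 k _ (not_le.1 hcon)
    have h4 := hN1 (k + 1)
    have h5 : (k : ℝ) ^ 4 ≤ ((k + 1 : ℕ) : ℝ) ^ 4 := by
      push_cast
      exact pow_le_pow_left₀ (by positivity) (by linarith) 4
    linarith
  set K := Nat.find hex with hKdef
  have hK1 : n < N K := Nat.find_spec hex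
  have hK3 : k3 < K := by
    by_contra hcon
    have := hNmono (not_lt.1 hcon)
    omega
  obtain ⟨k, hk⟩ : ∃ k, K = k + 1 := ⟨K - 1, by omega⟩
  have hk4 : N k ≤ n := not_lt.1 (Nat.find_min hex (by omega))
  rw [hk] at hK1
  have a5 := hk2 k (by omega)
  have b1 := hk1 k (by omega)
  have b2 := hk1 (k + 1) (by omega)
  have c1 : (Fb A m s b (N k) : ℝ) ≤ Fb A m s b n := by exact_mod_cast Fb_mono b hk4
  have c2 : (Fb A m s b n : ℝ) ≤ Fb A m s b (N (k + 1)) := by exact_mod_cast Fb_mono b hK1.le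
  have d1 := hN1 k
  have d2 := hNle (k + 1)
  push_cast at d2
  have d3 : av A m s (N k) ≤ av A m s n := av_mono hk4
  have d4 : av A m s n < (k + 1 : ℕ) ^ 4 := by exact_mod_cast hN2 (k + 1) n hK1
  push_cast at d4
  have e1 : (1 - 1 / (r : ℝ)) * av A m s (N k) ≤ Fb A m s b (N k) := by
    have h3 := neg_abs_le ((Fb A m s b (N k) : ℝ) - av A m s (N k))
    have h4 : |(Fb A m s b (N k) : ℝ) - av A m s (N k)| ≤ av A m s (N k) / r := by
      rw [le_div_iff₀ hrp]; linarith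
    have h5 : (1 - 1 / (r : ℝ)) * av A m s (N k) = av A m s (N k) - av A m s (N k) / r := by ring
    linarith
  have e2 : (Fb A m s b (N (k + 1)) : ℝ) ≤ (1 + 1 / (r : ℝ)) * av A m s (N (k + 1)) := by
    have h3 := le_abs_self ((Fb A m s b (N (k + 1)) : ℝ) - av A m s (N (k + 1)))
    have h4 : |(Fb A m s b (N (k + 1)) : ℝ) - av A m s (N (k + 1))| ≤ av A m s (N (k + 1)) / r := by
      rw [le_div_iff₀ hrp]; linarith
    have h5 : (1 + 1 / (r : ℝ)) * av A m s (N (k + 1)) =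
        av A m s (N (k + 1)) + av A m s (N (k + 1)) / r := by ring
    linarith
  set ρ := 1 / (r : ℝ) with hρ
  have hρ0 : 0 < ρ := by positivity
  have hρ1 : ρ ≤ 1 / 2 := by rw [hρ]; exact one_div_le_one_div_of_le (by norm_num) hr0
  have e3 : 2 / (r : ℝ) = 2 * ρ := by rw [hρ]; ring
  have e4 : 3 / (r : ℝ) = 3 * ρ := by rw [hρ]; ring
  rw [e3, e4]
  have hk0' : (0 : ℝ) ≤ (k : ℝ) ^ 4 := by positivity
  constructor
  · -- `(1 - 2 ρ) av n ≤ (1 - 2 ρ) (1 + ρ) k ^ 4 ≤ (1 - ρ) k ^ 4`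
    have f1 : av A m s n ≤ (1 + ρ) * (k : ℝ) ^ 4 := by linarith
    have f2 : (1 - ρ) * (k : ℝ) ^ 4 ≤ Fb A m s b n := by
      have : (1 - ρ) * (k : ℝ) ^ 4 ≤ (1 - ρ) * av A m s (N k) :=
        mul_le_mul_of_nonneg_left d1 (by linarith)
      linarith
    have f3 : (1 - 2 * ρ) * av A m s n ≤ (1 - 2 * ρ) * ((1 + ρ) * (k : ℝ) ^ 4) :=
      mul_le_mul_of_nonneg_left f1 (by linarith)
    nlinarith [mul_nonneg (mul_nonneg hρ0.le hρ0.le) hk0']
  · have f1 : (k : ℝ) ^ 4 ≤ av A m s n := by linarith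
    have f2 : (Fb A m s b n : ℝ) ≤ (1 + ρ) * ((1 + ρ) * (k : ℝ) ^ 4) := by
      have : (1 + ρ) * av A m s (N (k + 1)) ≤ (1 + ρ) * ((1 + ρ) * (k : ℝ) ^ 4) :=
        mul_le_mul_of_nonneg_left (by linarith) (by linarith)
      linarith
    have f3 : (1 + ρ) * (1 + ρ) ≤ 1 + 3 * ρ := by nlinarith
    have f4 : (1 + ρ) * ((1 + ρ) * (k : ℝ) ^ 4) ≤ (1 + 3 * ρ) * (k : ℝ) ^ 4 := by
      rw [← mul_assoc]
      exact mul_le_mul_of_nonneg_right f3 hk0'
    have f5 : (1 + 3 * ρ) * (k : ℝ) ^ 4 ≤ (1 + 3 * ρ) * av A m s n :=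
      mul_le_mul_of_nonneg_left f1 (by linarith)
    linarith
lemma cnd_ev {r : ℕ} (hr : 1 ≤ r) (h : DevE A m s w G (1 / (16 * r))) (hG : 0 < G)
    (hV : Tendsto (Vw s w) atTop atTop) {N : ℕ → ℕ}
    (hN1 : ∀ k : ℕ, (k : ℝ) ^ 4 ≤ av A m s (N k)) : ∀ᶠ k in atTop, cnd A m s N k r = true := by
  obtain ⟨K, V0, hK, hV0, hbad⟩ := dev_bad hr h hG
  have hr0 : (1 : ℝ) ≤ r := by exact_mod_cast hr
  -- `V (N k) ≥ k ^ 4 / (2 G)`
  have h1 := dev_avE h hV (η := G / 2) (by positivity)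
  obtain ⟨n1, hn1⟩ := eventually_atTop.1 h1
  have h2 : ∀ᶠ k : ℕ in atTop, av A m s n1 < (k : ℝ) ^ 4 ∧ 2 * G * V0 ≤ (k : ℝ) ^ 4 ∧
      16 * G * K ≤ (k : ℝ) ∧ 1 ≤ k := by
    have h3 : Tendsto (fun k : ℕ => (k : ℝ) ^ 4) atTop atTop :=
      (tendsto_pow_atTop (by norm_num)).comp tendsto_natCast_atTop_atTop
    filter_upwards [h3.eventually_gt_atTop (av A m s n1), h3.eventually_ge_atTop (2 * G * V0),
      tendsto_natCast_atTop_atTop.eventually_ge_atTop (16 * G * K),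
      eventually_ge_atTop 1] with k a1 a2 a3 a5
    exact ⟨a1, a2, a3, a5⟩
  filter_upwards [h2] with k hk
  obtain ⟨a1, a2, a3, a5⟩ := hk
  rw [cnd_iff]
  have hn : n1 ≤ N k := by
    by_contra hcon
    have := av_mono (A := A) (m := m) (s := s) (not_le.1 hcon).le
    have := hN1 k
    linarith
  have h3 := (abs_le.1 (hn1 _ hn)).2
  have h4 := hN1 k
  have hVp : 0 < Vw s w (N k) := by
    by_contra hcon
    have h5 : (1 / (16 * (r : ℝ)) * G + G / 2) * Vw s w (N k) ≤ 0 :=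
      mul_nonpos_of_nonneg_of_nonpos (by positivity) (not_lt.1 hcon)
    have h6 : G * Vw s w (N k) ≤ 0 := mul_nonpos_of_nonneg_of_nonpos hG.le (not_lt.1 hcon)
    have hk1 : (1 : ℝ) ≤ k := by exact_mod_cast a5
    have h7 : (1 : ℝ) ≤ (k : ℝ) ^ 4 := one_le_pow₀ hk1
    linarith
  have h5 : (k : ℝ) ^ 4 / (2 * G) ≤ Vw s w (N k) := by
    rw [div_le_iff₀ (by positivity)]
    have h6 : 1 / (16 * (r : ℝ)) ≤ 1 / 2 := by
      rw [div_le_div_iff₀ (by positivity) (by norm_num)]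
      linarith
    have h7 : 1 / (16 * (r : ℝ)) * G * Vw s w (N k) ≤ 1 / 2 * G * Vw s w (N k) :=
      mul_le_mul_of_nonneg_right (mul_le_mul_of_nonneg_right h6 hG.le) hVp.le
    nlinarith
  have h6 : V0 ≤ Vw s w (N k) := by
    refine le_trans ?_ h5
    rw [le_div_iff₀ (by positivity)]
    linarith
  have h7 := hbad (N k) h6
  have hk1 : (1 : ℝ) ≤ k := by exact_mod_cast a5
  have hkp : (0 : ℝ) < (k : ℝ) ^ 4 / (2 * G) := by positivity
  have h8 : K / Vw s w (N k) ≤ K / ((k : ℝ) ^ 4 / (2 * G)) :=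
    div_le_div_of_nonneg_left hK hkp h5
  have h9 : ((k : ℝ) + 1) ^ 3 ≤ (2 * k) ^ 3 := pow_le_pow_left₀ (by positivity) (by linarith) 3
  calc ((k : ℝ) + 1) ^ 3 * U01.real (bad A m s (N k) r) ≤
        (2 * k) ^ 3 * (K / ((k : ℝ) ^ 4 / (2 * G))) :=
        mul_le_mul h9 (h7.trans h8) measureReal_nonneg (by positivity)
    _ = 16 * G * K / k := by
        field_simp
        ring
    _ ≤ 1 := by
        rw [div_le_one (by linarith)]
        exact a3

lemma one_sixteenth {r : ℕ} (hr : 1 ≤ r) : 0 < 1 / (16 * (r : ℝ)) ∧ 1 / (16 * (r : ℝ)) < 1 := by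
  have hr0 : (1 : ℝ) ≤ r := by exact_mod_cast hr
  refine ⟨by positivity, ?_⟩
  rw [div_lt_one (by positivity)]
  linarith

/-- **The law up to a constant factor close to one.** -/
theorem law_testE (hA : Computable A) (hm : Computable m) (hs : Computable s) {r : ℕ} (hr : 2 ≤ r)
    (h : DevE A m s w G (1 / (16 * r))) (hG : 0 < G) (hV : Tendsto (Vw s w) atTop atTop) :
    ∃ (v : ℕ → ℕ) (D : ℕ → ℕ → Bool), SchnorrTest v D ∧ ∀ b : ℕ → Bool,
      {j | D j (num b (v j)) = true}.Finite →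
        ∀ᶠ n in atTop, (1 - 4 / (r : ℝ)) * G * Vw s w n ≤ Fb A m s b n ∧
          (Fb A m s b n : ℝ) ≤ (1 + 4 / (r : ℝ)) * G * Vw s w n := by
  have hr1 : 1 ≤ r := by omega
  have hinf := avE_tendsto h (one_sixteenth hr1).2 hG hV
  obtain ⟨N, hN, hN1, hN2⟩ := exists_times hA hm hs hinf
  obtain ⟨k1, hk1⟩ := eventually_atTop.1 (cnd_ev hr1 h hG hV hN1)
  set E : ℕ → ℕ → Bool := fun k x => decide (GG A m s (N k) < r * dd A m s (N k) x) with hE
  have hcE : Computable₂ E :=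
    comp_lt ((comp_GG hA hm hs).comp (hN.comp Computable.fst))
      (comp_mul (Computable.const r)
        (Computable₂.comp (comp_dd hA hm hs) (hN.comp Computable.fst) Computable.snd))
  obtain ⟨v, D, hT, hb⟩ := solovay (u := fun k => uu m (N k)) (E := E) (K := 1) (k0 := k1)
    ((comp_uu hm).comp hN) hcE (fun k hk => by
      have h1 := (cnd_iff N k r).1 (hk1 k hk)
      have e : tset (fun k => uu m (N k)) E k = bad A m s (N k) r := rfl
      rw [e]
      have h2 : 0 ≤ U01.real (bad A m s (N k) r) := measureReal_nonneg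
      have h3 : ((k : ℝ) + 1) ^ 2 ≤ ((k : ℝ) + 1) ^ 3 :=
        pow_le_pow_right₀ (by have := Nat.cast_nonneg (α := ℝ) k; linarith) (by norm_num)
      push_cast
      nlinarith [mul_le_mul_of_nonneg_right h3 h2])
  refine ⟨v, D, hT, fun b hfin => ?_⟩
  obtain ⟨k0, hk0⟩ := (hb b hfin).bddAbove
  have hpass : ∀ᶠ k in atTop,
      r * |(Fb A m s b (N k) : ℝ) - av A m s (N k)| ≤ av A m s (N k) := by
    filter_upwards [eventually_gt_atTop k0] with k hk
    have h1 : ¬ (E k (num b (uu m (N k))) = true) := fun hcon => by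
      have := hk0 hcon
      omega
    have hpos : (0 : ℝ) < 2 ^ uu m (N k) := by positivity
    have h2 := dd_eq (A := A) (m := m) (s := s) (N k) (num b (uu m (N k)))
    rw [FF_num] at h2
    simp only [hE, decide_eq_true_eq, not_lt] at h1
    unfold Fb av
    rw [← h2, mul_div_assoc', div_le_div_iff_of_pos_right hpos]
    exact_mod_cast h1
  have hr2 : (2 : ℝ) ≤ r := by exact_mod_cast hr
  filter_upwards [ratio_all hN1 hN2 hr hpass, dev_avE h hV (η := G / (16 * r)) (by positivity),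
    hV.eventually_gt_atTop 0] with n h1 h2 h3
  obtain ⟨g1, g2⟩ := h1
  have h4 := abs_le.1 h2
  set V := Vw s w n with hVd
  set ρ := 1 / (r : ℝ) with hρ
  have hρ0 : 0 < ρ := by positivity
  have hρ1 : ρ ≤ 1 / 2 := by rw [hρ]; exact one_div_le_one_div_of_le (by norm_num) hr2
  have e1 : (1 / (16 * (r : ℝ)) * G + G / (16 * r)) * V = ρ / 8 * (G * V) := by
    rw [hρ]; field_simp; ring
  have e2 : 2 / (r : ℝ) = 2 * ρ := by rw [hρ]; ring
  have e3 : 3 / (r : ℝ) = 3 * ρ := by rw [hρ]; ring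
  have e4 : 4 / (r : ℝ) = 4 * ρ := by rw [hρ]; ring
  rw [e1] at h4
  rw [e2] at g1
  rw [e3] at g2
  rw [e4, mul_assoc, mul_assoc]
  have hGV : 0 < G * V := by positivity
  set g := G * V with hg
  constructor
  · have f1 : (1 - 2 * ρ) * ((1 - ρ / 8) * g) ≤ (1 - 2 * ρ) * av A m s n :=
      mul_le_mul_of_nonneg_left (by linarith) (by linarith)
    nlinarith [mul_pos hρ0 hGV, mul_pos (mul_pos hρ0 hρ0) hGV]
  · have f1 : (1 + 3 * ρ) * av A m s n ≤ (1 + 3 * ρ) * ((1 + ρ / 8) * g) :=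
      mul_le_mul_of_nonneg_left (by linarith) (by linarith)
    nlinarith [mul_pos hρ0 hGV, mul_le_mul_of_nonneg_right hρ1 (mul_pos hρ0 hGV).le]

/-- **The law for the sequences which pass the test.** -/
theorem law_test (hA : Computable A) (hm : Computable m) (hs : Computable s)
    (h : Dev A m s w G) (hG : 0 < G) (hV : Tendsto (Vw s w) atTop atTop) :
    ∃ (v : ℕ → ℕ) (D : ℕ → ℕ → Bool), SchnorrTest v D ∧ ∀ b : ℕ → Bool,
      {j | D j (num b (v j)) = true}.Finite →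
        Tendsto (fun n => (Fb A m s b n : ℝ) / Vw s w n) atTop (𝓝 G) := by
  have hinf := dev_av_tendsto h hG hV
  obtain ⟨N, hN, hN1, hN2⟩ := exists_times hA hm hs hinf
  obtain ⟨v, D, hT, hb⟩ := solovay (u := fun k => uu m (N k)) (E := EE A m s N) (K := 1) (k0 := 0)
    ((comp_uu hm).comp hN) (comp_EE hA hm hs hN) (fun k _ => by
      have := EE_meas (A := A) (m := m) (s := s) N k
      exact_mod_cast this)
  refine ⟨v, D, hT, fun b hfin => ?_⟩
  obtain ⟨k0, hk0⟩ := (hb b hfin).bddAbove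
  have hE : ∀ k, k0 < k →
      rk A m s N k * |(Fb A m s b (N k) : ℝ) - av A m s (N k)| ≤ av A m s (N k) := by
    intro k hk
    rw [← EE_num, ← Bool.not_eq_true]
    intro hcon
    have := hk0 hcon
    omega
  -- the precision tends to infinity
  have hrk : ∀ r : ℕ, 1 ≤ r → ∀ᶠ k in atTop, r ≤ rk A m s N k := by
    intro r hr
    filter_upwards [cnd_ev hr (h _ (one_sixteenth hr).1 (one_sixteenth hr).2) hG hV hN1,
      eventually_ge_atTop r] with k h1 h2
    exact rk_ge N h2 h1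
  have hratio : ∀ r : ℕ, 2 ≤ r → ∀ᶠ n in atTop,
      (1 - 2 / (r : ℝ)) * av A m s n ≤ Fb A m s b n ∧
        (Fb A m s b n : ℝ) ≤ (1 + 3 / (r : ℝ)) * av A m s n := by
    intro r hr
    refine ratio_all hN1 hN2 hr ?_
    filter_upwards [hrk r (by omega), eventually_gt_atTop k0] with k h1 h2
    have h3 : (r : ℝ) ≤ rk A m s N k := by exact_mod_cast h1
    exact (mul_le_mul_of_nonneg_right h3 (abs_nonneg _)).trans (hE k h2)
  -- conclusion
  rw [Metric.tendsto_atTop']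
  intro η hη
  -- choose `ε` and `r`
  obtain ⟨r, hr⟩ := exists_nat_gt (max 2 (6 * (G + 1) / η))
  have hr2 : (2 : ℝ) < r := lt_of_le_of_lt (le_max_left _ _) hr
  have hr3 : 6 * (G + 1) / η < r := lt_of_le_of_lt (le_max_right _ _) hr
  have hrp : (0 : ℝ) < r := by linarith
  have hr2' : 2 ≤ r := by exact_mod_cast hr2.le
  have h1 := dev_av h hG hV (min (η / 4) 1) (by positivity)
  obtain ⟨n0, hn0⟩ := eventually_atTop.1 ((hratio r hr2').and (h1.and (hV.eventually_gt_atTop 0)))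
  refine ⟨n0, fun n hn => ?_⟩
  obtain ⟨⟨g1, g2⟩, g3, g4⟩ := hn0 n hn.le
  rw [Real.dist_eq]
  set V := Vw s w n with hVdef
  have e : (Fb A m s b n : ℝ) / V - G = (Fb A m s b n - G * V) / V := by field_simp
  rw [e, abs_div, abs_of_pos g4, div_lt_iff₀ g4]
  have g5 := abs_le.1 g3
  have g6 : min (η / 4) 1 * V ≤ η / 4 * V := mul_le_mul_of_nonneg_right (min_le_left _ _) g4.le
  have g7 : min (η / 4) 1 * V ≤ 1 * V := mul_le_mul_of_nonneg_right (min_le_right _ _) g4.le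
  have g8 : av A m s n ≤ (G + 1) * V := by nlinarith [g5.2]
  have g9 : 0 ≤ av A m s n := by
    rw [← av_zero (A := A) (m := m) (s := s)]
    exact av_mono (Nat.zero_le n)
  have g10 : 3 / (r : ℝ) * av A m s n ≤ η / 2 * V := by
    have h3 : 3 / (r : ℝ) * (G + 1) ≤ η / 2 := by
      rw [div_mul_eq_mul_div, div_le_iff₀ hrp]
      rw [div_lt_iff₀ hη] at hr3
      linarith
    calc 3 / (r : ℝ) * av A m s n ≤ 3 / (r : ℝ) * ((G + 1) * V) :=
          mul_le_mul_of_nonneg_left g8 (by positivity)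
      _ = (3 / (r : ℝ) * (G + 1)) * V := by ring
      _ ≤ _ := mul_le_mul_of_nonneg_right h3 g4.le
  have g11 : 2 / (r : ℝ) * av A m s n ≤ 3 / (r : ℝ) * av A m s n := by
    refine mul_le_mul_of_nonneg_right ?_ g9
    exact div_le_div_of_nonneg_right (by norm_num) hrp.le
  have g12 : 0 < η * V := by positivity
  rw [abs_lt]
  constructor
  · nlinarith [g5.1]
  · nlinarith [g5.2]

end

end Pool.Agent.Helper88.EL
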