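import Mathlib
import Pool.Agent.Helper88.EL.Law2

set_option autoImplicit false

/-!
# Martin-Löf random sequences
-/

namespace Pool.Agent.Helper88.EL

open MeasureTheory Finset Filter Topology
open Pool.Agent.Y895.PM (U01 U01_univ fn)

lemma re_exists {α : Type*} [Primcodable α] {f : α → ℕ → Bool} (hf : Computable₂ f) :
    REPred fun a => ∃ n, f a n = true := by
  have h1 := Partrec.rfind hf.partrec₂
  refine (Partrec.dom_re h1).of_eq fun a => ?_
  constructor
  · intro h
    have h2 := Part.get_mem h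
    rw [Nat.mem_rfind] at h2
    exact ⟨_, (Part.mem_some_iff.1 h2.1).symm⟩
  · rintro ⟨n, hn⟩
    rw [Part.dom_iff_mem]
    have hex : ∃ n, f a n = true := ⟨n, hn⟩
    refine ⟨Nat.find hex, ?_⟩
    rw [Nat.mem_rfind]
    refine ⟨Part.mem_some_iff.2 (Nat.find_spec hex).symm, fun {j} hj => ?_⟩
    have := Nat.find_min hex hj
    rw [Bool.not_eq_true] at this
    exact Part.mem_some_iff.2 this.symm

lemma ncard_meas (n : ℕ) (P : ℕ → Prop) :
    ({x : ℕ | x < 2 ^ n ∧ P x}.ncard : ℝ) = 2 ^ n * U01.real {t | P (dg n t)} := by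
  classical
  have h := meas_ct n (fun x => decide (P x))
  simp only [decide_eq_true_eq] at h
  rw [h]
  have e : {x : ℕ | x < 2 ^ n ∧ P x}.ncard = ct n (fun x => decide (P x)) := by
    unfold ct
    rw [← Set.ncard_coe_finset]
    congr 1
    ext x
    simp
  rw [e]
  field_simp

lemma small_of_meas {j n : ℕ} {P : ℕ → Prop} (h : U01.real {t | P (dg n t)} ≤ (1 / 2) ^ j) :
    2 ^ j * {x : ℕ | x < 2 ^ n ∧ P x}.ncard ≤ 2 ^ n := by
  have h1 := ncard_meas n P
  have h2 : ((2 ^ j * {x : ℕ | x < 2 ^ n ∧ P x}.ncard : ℕ) : ℝ) ≤ ((2 ^ n : ℕ) : ℝ) := by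
    push_cast
    rw [h1]
    have h3 : (2 : ℝ) ^ j * (2 ^ n * U01.real {t | P (dg n t)}) ≤
        (2 : ℝ) ^ j * (2 ^ n * (1 / 2) ^ j) := by gcongr
    refine h3.trans (le_of_eq ?_)
    rw [one_div, inv_pow]
    field_simp
  exact_mod_cast h2

lemma comp_eq {α : Type*} [Primcodable α] {f g : α → ℕ} (hf : Computable f)
    (hg : Computable g) : Computable fun a => decide (f a = g a) :=
  Computable₂.comp (Primrec.eq (α := ℕ)).decide.to_comp hf hg

lemma re_T {u : ℕ → ℕ} {D : ℕ → ℕ → Bool} (hT : SchnorrTest u D) :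
    REPred fun x : ℕ × ℕ × ℕ =>
      ∃ i, (decide (x.1 < i) && (decide (u i = x.2.1) && D i x.2.2)) = true := by
  have h0 : Computable fun z : (ℕ × ℕ × ℕ) × ℕ => u z.2 := hT.cu.comp Computable.snd
  have h1 : Computable fun z : (ℕ × ℕ × ℕ) × ℕ => decide (u z.2 = z.1.2.1) :=
    comp_eq h0 (Computable.fst.comp (Computable.snd.comp Computable.fst))
  have h2 : Computable fun z : (ℕ × ℕ × ℕ) × ℕ => D z.2 z.1.2.2 :=
    Computable₂.comp hT.cD Computable.snd (Computable.snd.comp (Computable.snd.comp Computable.fst))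
  have h3 : Computable fun z : (ℕ × ℕ × ℕ) × ℕ => decide (z.1.1 < z.2) :=
    comp_lt (Computable.fst.comp Computable.fst) Computable.snd
  have h4 : Computable₂ fun (x : ℕ × ℕ × ℕ) (i : ℕ) =>
      (decide (x.1 < i) && (decide (u i = x.2.1) && D i x.2.2)) := comp_and h3 (comp_and h1 h2)
  exact re_exists h4

/-- Martin-Löf random sequences are Schnorr random. -/
theorem MartinLof.schnorr {b : ℕ → Bool} (hb : MartinLof b) : Schnorr b := by
  intro u D hT
  have hU : MartinLofTest
      (fun j k x => ∃ i, (decide (j < i) && (decide (u i = k) && D i x)) = true) := by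
    constructor
    · exact re_T hT
    · intro j n
      refine small_of_meas ?_
      refine (U01_mono ?_).trans ((hT.tail (j + 1)).trans (le_of_eq ?_))
      · rintro t ⟨k, hk, i, hi⟩
        rw [Bool.and_eq_true, Bool.and_eq_true, decide_eq_true_eq, decide_eq_true_eq] at hi
        obtain ⟨h1, rfl, h3⟩ := hi
        rw [dg_div hk] at h3
        exact ⟨i, h1, h3⟩
      · rw [pow_succ]
        ring
  obtain ⟨j, hj⟩ := hb _ hU
  refine (Set.finite_le_nat j).subset fun i hi => ?_
  rw [Set.mem_ofPred_eq] at hi ⊢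
  by_contra hcon
  refine hj (u i) ⟨i, ?_⟩
  rw [Bool.and_eq_true, Bool.and_eq_true, decide_eq_true_eq, decide_eq_true_eq]
  exact ⟨not_le.1 hcon, rfl, hi⟩

section

variable {A m : ℕ → ℕ} {s : ℕ → Bool} {w : ℕ → ℝ}

/-- The open sets of the test are uniformly computably enumerable. -/
lemma re_U (hA : Computable A) (hm : Computable m) (hs : Computable s) (B : ℕ) :
    REPred fun x : ℕ × ℕ × ℕ => ∃ l, (decide (uu m l = x.2.1) &&
      decide (2 ^ x.1 * B ≤ FF A m s l x.2.2)) = true := by
  have h0 : Computable fun z : (ℕ × ℕ × ℕ) × ℕ => uu m z.2 := (comp_uu hm).comp Computable.snd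
  have h1 : Computable fun z : (ℕ × ℕ × ℕ) × ℕ => decide (uu m z.2 = z.1.2.1) :=
    comp_eq h0 (Computable.fst.comp (Computable.snd.comp Computable.fst))
  have h2 : Computable fun z : (ℕ × ℕ × ℕ) × ℕ => FF A m s z.2 z.1.2.2 :=
    Computable₂.comp (comp_FF hA hm hs) Computable.snd
      (Computable.snd.comp (Computable.snd.comp Computable.fst))
  have h3 : Computable fun z : (ℕ × ℕ × ℕ) × ℕ => 2 ^ z.1.1 * B :=
    comp_mul (comp_pow2 (Computable.fst.comp Computable.fst)) (Computable.const B)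
  have h4 : Computable fun z : (ℕ × ℕ × ℕ) × ℕ =>
      decide (2 ^ z.1.1 * B ≤ FF A m s z.2 z.1.2.2) := comp_le h3 h2
  have h5 : Computable fun z : (ℕ × ℕ × ℕ) × ℕ => (decide (uu m z.2 = z.1.2.1) &&
      decide (2 ^ z.1.1 * B ≤ FF A m s z.2 z.1.2.2)) := comp_and h1 h4
  have h6 : Computable₂ fun (x : ℕ × ℕ × ℕ) (l : ℕ) => (decide (uu m l = x.2.1) &&
      decide (2 ^ x.1 * B ≤ FF A m s l x.2.2)) := h5
  exact re_exists h6

lemma FF_div (n l x : ℕ) (h : uu m l ≤ n) : FF A m s l (x / 2 ^ (n - uu m l)) =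
    ∑ q ∈ range l, (ok s q && rb q (A q + x / 2 ^ (n - m q))).toNat := by
  unfold FF
  refine Finset.sum_congr rfl fun q hq => ?_
  have h1 := mle_uu (m := m) (mem_range.1 hq)
  rw [Nat.div_div_eq_div_mul, ← pow_add]
  have e : n - uu m l + (uu m l - m q) = n - m q := by omega
  rw [e]

lemma FF_div_mono {n l l' x : ℕ} (hl : l ≤ l') (h : uu m l' ≤ n) :
    FF A m s l (x / 2 ^ (n - uu m l)) ≤ FF A m s l' (x / 2 ^ (n - uu m l')) := by
  have h0 : uu m l ≤ uu m l' :=
    Finset.sum_le_sum_of_subset_of_nonneg (Finset.range_mono hl) fun _ _ _ => Nat.zero_le _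
  rw [FF_div n l x (h0.trans h), FF_div n l' x h]
  exact Finset.sum_le_sum_of_subset_of_nonneg (Finset.range_mono hl) fun _ _ _ => Nat.zero_le _

/-- **The convergence part, for Martin-Löf random sequences.** -/
theorem ml_fin (hA : Computable A) (hm : Computable m) (hs : Computable s)
    (hw0 : ∀ q, 0 ≤ w q)
    (hone : ∃ (K : ℝ) (Q : ℕ), 0 ≤ K ∧ ∀ q ≥ Q, q.Prime → ∫ t, fq A m q t ∂U01 ≤ K * w q)
    {L : ℝ} (hL : ∀ n, Vw s w n ≤ L) {b : ℕ → Bool} (hb : MartinLof b) :
    {q : ℕ | ok s q = true ∧ (roughPart q (A q + num b (m q))).Prime}.Finite := by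
  classical
  obtain ⟨K, Q, hK, hone⟩ := hone
  -- the means are bounded
  obtain ⟨B, hB0, hB⟩ : ∃ B : ℕ, 0 < B ∧ ∀ n, av A m s n ≤ B := by
    obtain ⟨B, hB⟩ := exists_nat_gt (Q + K * L)
    refine ⟨B + 1, Nat.succ_pos _, fun n => ?_⟩
    have h1 : av A m s n ≤ Q + K * L := by
      rw [av_eq]
      calc ∑ q ∈ RR s n, ∫ t, fq A m q t ∂U01 ≤
            ∑ q ∈ RR s n, ((if q < Q then (1 : ℝ) else 0) + K * w q) := by
            refine Finset.sum_le_sum fun q hq => ?_
            have h2 := int_fq_bd (A := A) (m := m) q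
            have h3 := mul_nonneg hK (hw0 q)
            split_ifs with h4
            · linarith [h2.2]
            · have := hone q (not_lt.1 h4) (RR_prime n q hq)
              linarith
        _ = ((RR s n).filter (fun q => q < Q)).card + K * Vw s w n := by
            rw [Finset.sum_add_distrib, ← Finset.mul_sum, Finset.sum_boole]
            rfl
        _ ≤ Q + K * L := by
            have h2 : ((RR s n).filter (fun q => q < Q)).card ≤ (range Q).card :=
              Finset.card_le_card fun q hq => by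
                rw [mem_filter] at hq
                exact mem_range.2 hq.2
            rw [card_range] at h2
            have h3 : (((RR s n).filter (fun q => q < Q)).card : ℝ) ≤ Q := by exact_mod_cast h2
            have h4 := mul_le_mul_of_nonneg_left (hL n) hK
            linarith
    push_cast
    linarith
  -- Markov's inequality
  have hmark : ∀ n c : ℕ, 0 < c →
      U01.real {t | c ≤ FF A m s n (dg (uu m n) t)} ≤ av A m s n / c := by
    intro n c hc
    have hc' : (0 : ℝ) < c := by exact_mod_cast hc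
    have hmeas : Measurable fun t => ∑ q ∈ RR s n, fq A m q t :=
      Finset.measurable_fun_sum _ fun q _ => fq_meas q
    have h0 : ∀ t, 0 ≤ ∑ q ∈ RR s n, fq A m q t := fun t => Finset.sum_nonneg fun q _ => fq0 q t
    have hint : Integrable (fun t => ∑ q ∈ RR s n, fq A m q t) U01 := by
      refine int_of_bdd hmeas (RR s n).card fun t => ?_
      rw [abs_of_nonneg (h0 t)]
      calc ∑ q ∈ RR s n, fq A m q t ≤ ∑ q ∈ RR s n, (1 : ℝ) :=
            Finset.sum_le_sum fun q _ => fq1 q t
        _ = _ := by rw [sum_const, nsmul_eq_mul, mul_one]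
    have h1 := mul_meas_ge_le_integral_of_nonneg (μ := U01) (Eventually.of_forall h0) hint (c : ℝ)
    have h2 : ∫ t, ∑ q ∈ RR s n, fq A m q t ∂U01 = av A m s n := by
      rw [av_eq]
      exact integral_finsetSum _ fun q _ => int_of_bdd (fq_meas q) 1 fun t => by
        rw [abs_of_nonneg (fq0 q t)]
        exact fq1 q t
    rw [h2] at h1
    rw [le_div_iff₀ hc', mul_comm]
    refine le_trans (mul_le_mul_of_nonneg_left (U01_mono fun t ht => ?_) hc'.le) h1
    rw [Set.mem_ofPred_eq] at ht ⊢
    rw [← FF_eq]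
    exact_mod_cast ht
  have hU : MartinLofTest (fun j k x => ∃ l, (decide (uu m l = k) &&
      decide (2 ^ j * B ≤ FF A m s l x)) = true) := by
    constructor
    · exact re_U hA hm hs B
    · intro j n
      set X : Set ℕ := {x : ℕ | x < 2 ^ n ∧ ∃ k ≤ n, ∃ l, (decide (uu m l = k) &&
        decide (2 ^ j * B ≤ FF A m s l (x / 2 ^ (n - k)))) = true} with hX
      have hXfin : X.Finite := (Set.finite_lt_nat (2 ^ n)).subset fun x hx => hx.1
      have hXw : ∀ x ∈ X, ∃ l, uu m l ≤ n ∧ 2 ^ j * B ≤ FF A m s l (x / 2 ^ (n - uu m l)) := by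
        rintro x ⟨-, k, hk, l, hl⟩
        rw [Bool.and_eq_true, decide_eq_true_eq, decide_eq_true_eq] at hl
        obtain ⟨rfl, h2⟩ := hl
        exact ⟨l, hk, h2⟩
      rcases X.eq_empty_or_nonempty with h0 | h0
      · rw [h0, Set.ncard_empty, mul_zero]
        positivity
      · choose! l hl using hXw
        obtain ⟨x0, hx0, hmax⟩ := Set.exists_max_image X l hXfin h0
        have hsub : X ⊆ {x : ℕ | x < 2 ^ n ∧
            2 ^ j * B ≤ FF A m s (l x0) (x / 2 ^ (n - uu m (l x0)))} := by
          intro x hx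
          refine ⟨hx.1, (hl x hx).2.trans ?_⟩
          exact FF_div_mono (hmax x hx) (hl x0 hx0).1
        have h1 : X.ncard ≤ {x : ℕ | x < 2 ^ n ∧
            2 ^ j * B ≤ FF A m s (l x0) (x / 2 ^ (n - uu m (l x0)))}.ncard :=
          Set.ncard_le_ncard hsub ((Set.finite_lt_nat (2 ^ n)).subset fun x hx => hx.1)
        refine le_trans (Nat.mul_le_mul_left _ h1) (small_of_meas ?_)
        have h2 : {t | 2 ^ j * B ≤ FF A m s (l x0) (dg n t / 2 ^ (n - uu m (l x0)))} =
            {t | 2 ^ j * B ≤ FF A m s (l x0) (dg (uu m (l x0)) t)} := by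
          ext t
          simp only [Set.mem_ofPred_eq]
          rw [dg_div (hl x0 hx0).1]
        rw [h2]
        refine (hmark (l x0) (2 ^ j * B) (by positivity)).trans ?_
        have hB' : (0 : ℝ) < B := by exact_mod_cast hB0
        push_cast
        rw [div_le_iff₀ (by positivity), one_div, inv_pow]
        have h3 : ((2 : ℝ) ^ j)⁻¹ * (2 ^ j * B) = B := by field_simp
        rw [h3]
        exact hB _
  obtain ⟨j, hj⟩ := hb _ hU
  -- the counts are bounded
  have hbd : ∀ l, Fb A m s b l < 2 ^ j * B := by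
    intro l
    have h1 := hj (uu m l)
    by_contra hcon
    refine h1 ⟨l, ?_⟩
    rw [Bool.and_eq_true, decide_eq_true_eq, decide_eq_true_eq, FF_num]
    exact ⟨rfl, not_lt.1 hcon⟩
  by_contra hinf
  obtain ⟨T, hT, hTc⟩ := (Set.not_finite.1 hinf : Set.Infinite _).exists_subset_card_eq (2 ^ j * B)
  have h1 := hbd (T.sup id + 1)
  have h2 : T ⊆ (RR s (T.sup id + 1)).filter
      (fun q => (roughPart q (A q + num b (m q))).Prime) := by
    intro q hq
    have h3 := hT (mem_coe.2 hq)
    unfold RR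
    rw [mem_filter, mem_filter, mem_range]
    exact ⟨⟨Nat.lt_succ_of_le (Finset.le_sup (f := id) hq), h3.1⟩, h3.2⟩
  have h3 := Finset.card_le_card h2
  unfold Fb at h1
  omega

end

end Pool.Agent.Helper88.EL
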