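import Mathlib
import Pool.Agent.Helper88.EL.ML

set_option autoImplicit false

/-!
# Tails of random sequences
-/

namespace Pool.Agent.Helper88.EL

open MeasureTheory Finset Filter Topology
open Pool.Agent.Y895.PM (U01 U01_univ fn)

lemma sum_mod (f : ℕ → ℕ) (a b : ℕ) :
    ∑ x ∈ range (a * b), f (x % b) = a * ∑ x ∈ range b, f x := by
  induction a with
  | zero => simp
  | succ a ih =>
    rw [Nat.succ_mul, Finset.sum_range_add, ih, Nat.succ_mul]
    congr 1
    refine Finset.sum_congr rfl fun x hx => ?_
    rw [mul_comm a b, Nat.mul_add_mod, Nat.mod_eq_of_lt (mem_range.1 hx)]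

lemma card_mod (p : ℕ → Bool) (a b : ℕ) :
    ((range (a * b)).filter (fun x => p (x % b) = true)).card =
      a * ((range b).filter (fun x => p x = true)).card := by
  rw [Finset.card_filter, Finset.card_filter]
  exact sum_mod (fun x => if p x = true then 1 else 0) a b

lemma num_mod (b : ℕ → Bool) (k i : ℕ) : num b (k + i) % 2 ^ i = num (fun j => b (k + j)) i := by
  rw [num_add, mul_comm, Nat.mul_add_mod, Nat.mod_eq_of_lt (num_lt _ _)]

lemma comp_mod {α : Type*} [Primcodable α] {f g : α → ℕ} (hf : Computable f) (hg : Computable g) :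
    Computable fun a => f a % g a :=
  Computable₂.comp Primrec.nat_mod.to_comp hf hg

/-- Tails of Schnorr random sequences are Schnorr random. -/
theorem Schnorr.tail {b : ℕ → Bool} (hb : Schnorr b) (k : ℕ) : Schnorr (fun j => b (k + j)) := by
  intro u D hT
  have hT' : SchnorrTest (fun j => k + u j) (fun j x => D j (x % 2 ^ u j)) := by
    constructor
    · exact comp_add (Computable.const k) hT.cu
    · have h1 : Computable fun z : ℕ × ℕ => z.2 % 2 ^ u z.1 :=
        comp_mod Computable.snd (comp_pow2 (hT.cu.comp Computable.fst))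
      exact Computable₂.comp hT.cD Computable.fst h1
    · intro j
      have h1 := hT.small j
      rw [pow_add, card_mod]
      calc 2 ^ j * (2 ^ k * ((range (2 ^ u j)).filter (fun x => D j x = true)).card) =
            2 ^ k * (2 ^ j * ((range (2 ^ u j)).filter (fun x => D j x = true)).card) := by ring
        _ ≤ 2 ^ k * 2 ^ u j := Nat.mul_le_mul_left _ h1
  have h := hb _ _ hT'
  simp only [num_mod] at h
  exact h

/-- Schnorr random sequences contain a digit `1`. -/
theorem Schnorr.one {b : ℕ → Bool} (hb : Schnorr b) : ∃ k, 1 ≤ num b k := by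
  have hT : SchnorrTest (fun j => j) (fun _ x => decide (x < 1)) := by
    constructor
    · exact Computable.id
    · exact comp_lt Computable.snd (Computable.const 1)
    · intro j
      have e : (range (2 ^ j)).filter (fun x => decide (x < 1) = true) = {0} := by
        ext x
        rw [mem_filter, mem_range, decide_eq_true_eq, mem_singleton]
        have : 1 ≤ 2 ^ j := Nat.one_le_two_pow
        omega
      rw [e, card_singleton, mul_one]
  by_contra hcon
  push Not at hcon
  have h := hb _ _ hT
  have e : {j | decide (num b j < 1) = true} = Set.univ := by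
    ext j
    simpa using Nat.lt_one_iff.1 (hcon j)
  rw [e] at h
  exact Set.infinite_univ h

lemma div_mod_tail {k l n x : ℕ} (hkl : k ≤ l) (hln : l ≤ n) :
    x / 2 ^ (n - l) % 2 ^ (l - k) = x % 2 ^ (n - k) / 2 ^ (n - k - (l - k)) := by
  have e1 : n - k - (l - k) = n - l := by omega
  have e2 : n - k = (n - l) + (l - k) := by omega
  rw [e1, e2, pow_add, Nat.mod_mul_right_div_self]

lemma re_and {α : Type*} [Primcodable α] {f : α → Bool} {q : α → Prop} (hf : Computable f)
    (hq : REPred q) : REPred fun a => (f a = true) ∧ q a := by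
  have h := Partrec.cond hf hq (Partrec.none : Partrec fun _ : α => (Part.none : Part Unit))
  refine (Partrec.dom_re h).of_eq fun a => ?_
  cases hfa : f a <;> simp [Part.assert]

/-- Tails of Martin-Löf random sequences are Martin-Löf random. -/
theorem MartinLof.tail {b : ℕ → Bool} (hb : MartinLof b) (k : ℕ) :
    MartinLof (fun j => b (k + j)) := by
  classical
  intro U hT
  have hT' : MartinLofTest (fun j n x => k ≤ n ∧ U j (n - k) (x % 2 ^ (n - k))) := by
    constructor
    · have h2 : Computable fun x : ℕ × ℕ × ℕ =>
          ((x.1, x.2.1 - k, x.2.2 % 2 ^ (x.2.1 - k)) : ℕ × ℕ × ℕ) := by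
        have h3 : Computable fun x : ℕ × ℕ × ℕ => x.2.1 - k :=
          comp_sub (Computable.fst.comp Computable.snd) (Computable.const k)
        have h4 : Computable fun x : ℕ × ℕ × ℕ => x.2.2 % 2 ^ (x.2.1 - k) :=
          comp_mod (Computable.snd.comp Computable.snd) (comp_pow2 h3)
        exact Computable.pair Computable.fst (Computable.pair h3 h4)
      have h5 : REPred fun x : ℕ × ℕ × ℕ => U x.1 (x.2.1 - k) (x.2.2 % 2 ^ (x.2.1 - k)) := by
        have := Partrec.comp hT.ce h2
        exact this
      refine (re_and (f := fun x : ℕ × ℕ × ℕ => decide (k ≤ x.2.1))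
        (comp_le (Computable.const k) (Computable.fst.comp Computable.snd)) h5).of_eq fun x => ?_
      rw [decide_eq_true_eq]
    · intro j n
      rcases lt_or_ge n k with hnk | hnk
      · have e : {x : ℕ | x < 2 ^ n ∧ ∃ l ≤ n, k ≤ l ∧
            U j (l - k) (x / 2 ^ (n - l) % 2 ^ (l - k))} = ∅ := by
          ext x
          simp only [Set.mem_ofPred_eq, Set.mem_empty_iff_false, iff_false]
          rintro ⟨-, l, hl, hkl, -⟩
          omega
        rw [e, Set.ncard_empty, mul_zero]
        exact Nat.zero_le _
      · have h1 := hT.small j (n - k)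
        set p : ℕ → Bool := fun z => decide (∃ l ≤ n - k, U j l (z / 2 ^ (n - k - l))) with hp
        have e1 : {x : ℕ | x < 2 ^ (n - k) ∧ ∃ l ≤ n - k, U j l (x / 2 ^ (n - k - l))}.ncard =
            ((range (2 ^ (n - k))).filter (fun x => p x = true)).card := by
          rw [← Set.ncard_coe_finset]
          congr 1
          ext x
          simp [hp]
        have e2 : {x : ℕ | x < 2 ^ n ∧ ∃ l ≤ n, k ≤ l ∧
            U j (l - k) (x / 2 ^ (n - l) % 2 ^ (l - k))}.ncard =
            ((range (2 ^ k * 2 ^ (n - k))).filter (fun x => p (x % 2 ^ (n - k)) = true)).card := by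
          rw [← Set.ncard_coe_finset]
          congr 1
          ext x
          have e3 : 2 ^ k * 2 ^ (n - k) = 2 ^ n := by rw [← pow_add]; congr 1; omega
          rw [e3]
          simp only [Set.mem_ofPred_eq, coe_filter, mem_range, hp, decide_eq_true_eq]
          refine and_congr_right fun _ => ⟨?_, ?_⟩
          · rintro ⟨l, hl, hkl, h⟩
            rw [div_mod_tail hkl hl] at h
            exact ⟨l - k, by omega, h⟩
          · rintro ⟨l, hl, h⟩
            refine ⟨l + k, by omega, by omega, ?_⟩
            rw [div_mod_tail (by omega) (by omega), Nat.add_sub_cancel]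
            exact h
        rw [e1] at h1
        rw [e2, card_mod]
        calc 2 ^ j * (2 ^ k * ((range (2 ^ (n - k))).filter (fun x => p x = true)).card) =
              2 ^ k * (2 ^ j * ((range (2 ^ (n - k))).filter (fun x => p x = true)).card) := by ring
          _ ≤ 2 ^ k * 2 ^ (n - k) := Nat.mul_le_mul_left _ h1
          _ = 2 ^ n := by rw [← pow_add]; congr 1; omega
  obtain ⟨j, hj⟩ := hb _ hT'
  refine ⟨j, fun i hi => hj (k + i) ⟨Nat.le_add_right _ _, ?_⟩⟩
  rw [Nat.add_sub_cancel_left, num_mod]
  exact hi

end Pool.Agent.Helper88.EL
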