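import Mathlib
import Pool.Agent.Helper88.EL.Tail

set_option autoImplicit false

/-!
# Properties which can be tested
-/

namespace Pool.Agent.Helper88.EL

open MeasureTheory Finset Filter Topology
open Pool.Agent.Y895.PM (U01 U01_univ fn)

/-- a property shared by all sequences which pass some Schnorr test -/
def Testable (P : (ℕ → Bool) → Prop) : Prop :=
  ∃ (v : ℕ → ℕ) (D : ℕ → ℕ → Bool), SchnorrTest v D ∧ ∀ b : ℕ → Bool,
    {j | D j (num b (v j)) = true}.Finite → P b

lemma Testable.mono {P Q : (ℕ → Bool) → Prop} (h : Testable P) (hPQ : ∀ b, P b → Q b) :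
    Testable Q := by
  obtain ⟨v, D, hT, hb⟩ := h
  exact ⟨v, D, hT, fun b hf => hPQ b (hb b hf)⟩

lemma Testable.triv : Testable (fun _ => True) := by
  refine ⟨fun j => j, fun _ _ => false, ⟨Computable.id, Computable.const false, fun j => ?_⟩,
    fun _ _ => trivial⟩
  simp

lemma Testable.tail {P : (ℕ → Bool) → Prop} (h : Testable P) (k : ℕ) :
    Testable (fun b => P (fun j => b (k + j))) := by
  obtain ⟨u, D, hT, hb⟩ := h
  refine ⟨fun j => k + u j, fun j x => D j (x % 2 ^ u j), ?_, fun b hf => hb _ ?_⟩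
  · constructor
    · exact comp_add (Computable.const k) hT.cu
    · have h1 : Computable fun z : ℕ × ℕ => z.2 % 2 ^ u z.1 :=
        comp_mod Computable.snd (comp_pow2 (hT.cu.comp Computable.fst))
      exact Computable₂.comp hT.cD Computable.fst h1
    · intro j
      have h1 := hT.small j
      rw [pow_add, card_mod]
      calc 2 ^ j * (2 ^ k * ((range (2 ^ u j)).filter (fun x => D j x = true)).card) =
            2 ^ k * (2 ^ j * ((range (2 ^ u j)).filter (fun x => D j x = true)).card) := by ring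
        _ ≤ 2 ^ k * 2 ^ u j := Nat.mul_le_mul_left _ h1
  · simp only [num_mod] at hf
    exact hf

lemma Testable.schnorr {P : (ℕ → Bool) → Prop} (h : Testable P) {b : ℕ → Bool} (hb : Schnorr b) :
    P b := by
  obtain ⟨u, D, hT, h1⟩ := h
  exact h1 b (hb u D hT)

lemma Testable.comp {P : (ℕ → Bool) → Prop} (h : Testable P) (c : ℕ → Bool) (n : ℕ) :
    ∃ b : ℕ → Bool, Computable b ∧ (∀ i < n, b i = c i) ∧ P b := by
  obtain ⟨u, D, hT, h1⟩ := h
  obtain ⟨b, hb1, hb2, hb3⟩ := exists_comp hT c n
  exact ⟨b, hb1, hb2, h1 b hb3⟩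

lemma comp_or {α : Type*} [Primcodable α] {f g : α → Bool} (hf : Computable f)
    (hg : Computable g) : Computable fun a => f a || g a :=
  Computable₂.comp Primrec.or.to_comp hf hg

lemma card_div (p : ℕ → Bool) (a b : ℕ) :
    ((range (2 ^ (a + b))).filter (fun x => p (x / 2 ^ b) = true)).card =
      2 ^ b * ((range (2 ^ a)).filter (fun x => p x = true)).card := by
  have h := ct_div (u := a) (v := a + b) (Nat.le_add_right _ _) p
  rw [Nat.add_sub_cancel_left, pow_add, div_eq_div_iff (by positivity) (by positivity)] at h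
  have h2 : (0 : ℝ) < 2 ^ a := by positivity
  have h3 : (ct (a + b) (fun x => p (x / 2 ^ b)) : ℝ) = 2 ^ b * ct a p := by
    have h4 : 2 ^ a * (ct (a + b) (fun x => p (x / 2 ^ b)) : ℝ) = 2 ^ a * (2 ^ b * ct a p) := by
      linarith
    exact mul_left_cancel₀ h2.ne' h4
  have h5 : ct (a + b) (fun x => p (x / 2 ^ b)) = 2 ^ b * ct a p := by exact_mod_cast h3
  exact h5

lemma Testable.and {P Q : (ℕ → Bool) → Prop} (hP : Testable P) (hQ : Testable Q) :
    Testable (fun b => P b ∧ Q b) := by
  obtain ⟨u, D, hT, h1⟩ := hP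
  obtain ⟨u', D', hT', h2⟩ := hQ
  refine ⟨fun j => u (j + 1) + u' (j + 1), fun j x => D (j + 1) (x / 2 ^ u' (j + 1)) ||
    D' (j + 1) (x / 2 ^ u (j + 1)), ?_, fun b hf => ⟨h1 b ?_, h2 b ?_⟩⟩
  · constructor
    · exact comp_add (hT.cu.comp Computable.succ) (hT'.cu.comp Computable.succ)
    · have g1 : Computable fun z : ℕ × ℕ => u (z.1 + 1) :=
        hT.cu.comp (Computable.succ.comp Computable.fst)
      have g2 : Computable fun z : ℕ × ℕ => u' (z.1 + 1) :=
        hT'.cu.comp (Computable.succ.comp Computable.fst)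
      have g3 : Computable fun z : ℕ × ℕ => D (z.1 + 1) (z.2 / 2 ^ u' (z.1 + 1)) :=
        Computable₂.comp hT.cD (Computable.succ.comp Computable.fst)
          (comp_div Computable.snd (comp_pow2 g2))
      have g4 : Computable fun z : ℕ × ℕ => D' (z.1 + 1) (z.2 / 2 ^ u (z.1 + 1)) :=
        Computable₂.comp hT'.cD (Computable.succ.comp Computable.fst)
          (comp_div Computable.snd (comp_pow2 g1))
      exact comp_or g3 g4
    · intro j
      have a1 := hT.small (j + 1)
      have a2 := hT'.small (j + 1)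
      have a3 := card_div (D (j + 1)) (u (j + 1)) (u' (j + 1))
      have a4 := card_div (D' (j + 1)) (u' (j + 1)) (u (j + 1))
      rw [add_comm (u' (j + 1)) (u (j + 1))] at a4
      have a5 : ((range (2 ^ (u (j + 1) + u' (j + 1)))).filter (fun x =>
          (D (j + 1) (x / 2 ^ u' (j + 1)) || D' (j + 1) (x / 2 ^ u (j + 1))) = true)).card ≤
          2 ^ u' (j + 1) * ((range (2 ^ u (j + 1))).filter (fun x => D (j + 1) x = true)).card +
          2 ^ u (j + 1) * ((range (2 ^ u' (j + 1))).filter (fun x => D' (j + 1) x = true)).card := by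
        rw [← a3, ← a4]
        refine le_trans (Finset.card_le_card ?_) (Finset.card_union_le _ _)
        intro x hx
        rw [mem_filter, Bool.or_eq_true] at hx
        rw [mem_union, mem_filter, mem_filter]
        rcases hx.2 with h | h
        · exact Or.inl ⟨hx.1, h⟩
        · exact Or.inr ⟨hx.1, h⟩
      generalize hX : ((range (2 ^ (u (j + 1) + u' (j + 1)))).filter (fun x =>
          (D (j + 1) (x / 2 ^ u' (j + 1)) || D' (j + 1) (x / 2 ^ u (j + 1))) = true)).card = X at a5 ⊢
      generalize ((range (2 ^ u (j + 1))).filter (fun x => D (j + 1) x = true)).card = Y at a1 a5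
      generalize ((range (2 ^ u' (j + 1))).filter (fun x => D' (j + 1) x = true)).card = Z at a2 a5
      have b1 := Nat.mul_le_mul_left (2 ^ u' (j + 1)) a1
      have b2 := Nat.mul_le_mul_left (2 ^ u (j + 1)) a2
      have b3 := Nat.mul_le_mul_left (2 ^ (j + 1)) a5
      rw [pow_add]
      have e1 : 2 ^ (j + 1) = 2 * 2 ^ j := by rw [pow_succ]; ring
      rw [e1] at b1 b2 b3
      have b4 : 2 * (2 ^ j * X) ≤ 2 * (2 ^ u (j + 1) * 2 ^ u' (j + 1)) := by
        calc 2 * (2 ^ j * X) = 2 * 2 ^ j * X := by ring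
          _ ≤ 2 * 2 ^ j * (2 ^ u' (j + 1) * Y + 2 ^ u (j + 1) * Z) := b3
          _ = 2 ^ u' (j + 1) * (2 * 2 ^ j * Y) + 2 ^ u (j + 1) * (2 * 2 ^ j * Z) := by ring
          _ ≤ 2 ^ u' (j + 1) * 2 ^ u (j + 1) + 2 ^ u (j + 1) * 2 ^ u' (j + 1) := add_le_add b1 b2
          _ = _ := by ring
      omega
  · refine ((hf.image (fun j => j + 1)).union (Set.finite_singleton 0)).subset fun j hj => ?_
    rcases Nat.eq_zero_or_pos j with h0 | h0
    · exact Or.inr (by rw [h0]; rfl)
    · refine Or.inl ⟨j - 1, ?_, by show j - 1 + 1 = j; omega⟩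
      have e : j - 1 + 1 = j := by omega
      rw [Set.mem_ofPred_eq] at hj
      show (D (j - 1 + 1) (num b (u (j - 1 + 1) + u' (j - 1 + 1)) / 2 ^ u' (j - 1 + 1)) ||
        D' (j - 1 + 1) (num b (u (j - 1 + 1) + u' (j - 1 + 1)) / 2 ^ u (j - 1 + 1))) = true
      rw [e, Bool.or_eq_true]
      left
      have h3 := num_div b (Nat.le_add_right (u j) (u' j))
      rw [Nat.add_sub_cancel_left] at h3
      rw [h3]
      exact hj
  · refine ((hf.image (fun j => j + 1)).union (Set.finite_singleton 0)).subset fun j hj => ?_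
    rcases Nat.eq_zero_or_pos j with h0 | h0
    · exact Or.inr (by rw [h0]; rfl)
    · refine Or.inl ⟨j - 1, ?_, by show j - 1 + 1 = j; omega⟩
      have e : j - 1 + 1 = j := by omega
      rw [Set.mem_ofPred_eq] at hj
      show (D (j - 1 + 1) (num b (u (j - 1 + 1) + u' (j - 1 + 1)) / 2 ^ u' (j - 1 + 1)) ||
        D' (j - 1 + 1) (num b (u (j - 1 + 1) + u' (j - 1 + 1)) / 2 ^ u (j - 1 + 1))) = true
      rw [e, Bool.or_eq_true]
      right
      have h3 := num_div b (Nat.le_add_left (u' j) (u j))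
      rw [Nat.add_sub_cancel] at h3
      rw [h3]
      exact hj

lemma Testable.forall_fin : ∀ {r : ℕ} {P : Fin r → (ℕ → Bool) → Prop},
    (∀ i, Testable (P i)) → Testable (fun b => ∀ i, P i b)
  | 0, _, _ => Testable.triv.mono fun _ _ i => i.elim0
  | r + 1, P, h => by
    have h1 := Testable.forall_fin (P := fun i : Fin r => P i.succ) fun i => h i.succ
    refine ((h 0).and h1).mono fun b hb i => ?_
    refine Fin.cases hb.1 (fun j => hb.2 j) i

end Pool.Agent.Helper88.EL
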