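import Mathlib
import Pool.Agent.Helper88.EL.Tail

set_option autoImplicit false

/-!
# Almost every sequence is random
-/

namespace Pool.Agent.Helper88.EL

open MeasureTheory Finset Filter Topology
open Pool.Agent.Y895.PM (U01 U01_univ fn)

lemma num_dgs {t : ℝ} (h0 : 0 ≤ t) (h1 : t < 1) (k : ℕ) : num (dgs t) k = ⌊2 ^ k * t⌋₊ := by
  induction k with
  | zero =>
    rw [num, pow_zero, one_mul]
    exact (Nat.floor_eq_zero.2 h1).symm
  | succ k ih =>
    rw [num, ih]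
    have h2 := dg_div (u := k) (v := k + 1) (t := t) (Nat.le_succ k)
    have e : k + 1 - k = 1 := by omega
    unfold dg at h2
    rw [e, pow_one] at h2
    rw [← h2]
    unfold dgs
    have h3 := Nat.div_add_mod ⌊2 ^ (k + 1) * t⌋₊ 2
    have h4 : (decide (⌊2 ^ (k + 1) * t⌋₊ % 2 = 1)).toNat = ⌊2 ^ (k + 1) * t⌋₊ % 2 := by
      rcases Nat.mod_two_eq_zero_or_one ⌊2 ^ (k + 1) * t⌋₊ with h | h <;> simp [h]
    rw [h4]
    exact h3

lemma countable_re {α : Type*} [Primcodable α] : {p : α → Prop | REPred p}.Countable := by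
  refine (Set.countable_range (fun (c : Nat.Partrec.Code) (a : α) =>
    (c.eval (Encodable.encode a)).Dom)).mono fun p hp => ?_
  obtain ⟨c, hc⟩ := Nat.Partrec.Code.exists_code.1 hp
  refine ⟨c, funext fun a => ?_⟩
  simp only [hc, Encodable.encodek, Part.coe_some, Part.bind_some, eq_iff_iff]
  simp [Part.assert]

lemma MartinLofTest.null {U : ℕ → ℕ → ℕ → Prop} (hU : MartinLofTest U) :
    ∀ᵐ t ∂U01, ∃ j, ∀ k, ¬ U j k (dg k t) := by
  classical
  have hj : ∀ j, U01 {t | ∃ k, U j k (dg k t)} ≤ ENNReal.ofReal ((1 / 2) ^ j) := by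
    intro j
    have e : {t | ∃ k, U j k (dg k t)} = ⋃ n : ℕ, {t | ∃ k ≤ n, U j k (dg k t)} := by
      ext t
      simp only [Set.mem_ofPred_eq, Set.mem_iUnion]
      exact ⟨fun ⟨k, hk⟩ => ⟨k, k, le_rfl, hk⟩, fun ⟨_, k, _, hk⟩ => ⟨k, hk⟩⟩
    have hmono : Monotone fun n : ℕ => {t : ℝ | ∃ k ≤ n, U j k (dg k t)} := by
      rintro a b hab t ⟨k, hk, h⟩
      exact ⟨k, hk.trans hab, h⟩
    rw [e, hmono.measure_iUnion]
    refine iSup_le fun n => ?_
    rw [← ENNReal.ofReal_toReal (U01_ne_top {t : ℝ | ∃ k ≤ n, U j k (dg k t)})]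
    refine ENNReal.ofReal_le_ofReal ?_
    have h1 := hU.small j n
    have h2 := ncard_meas n (fun x => ∃ k ≤ n, U j k (x / 2 ^ (n - k)))
    have h3 : {t | ∃ k ≤ n, U j k (dg n t / 2 ^ (n - k))} = {t | ∃ k ≤ n, U j k (dg k t)} := by
      ext t
      simp only [Set.mem_ofPred_eq]
      refine exists_congr fun k => and_congr_right fun hk => ?_
      rw [dg_div hk]
    rw [h3] at h2
    have h4 : ((2 ^ j * {x : ℕ | x < 2 ^ n ∧ ∃ k ≤ n, U j k (x / 2 ^ (n - k))}.ncard : ℕ) : ℝ) ≤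
        ((2 ^ n : ℕ) : ℝ) := by exact_mod_cast h1
    push_cast at h4
    rw [h2] at h4
    have h5 : (0 : ℝ) < 2 ^ n := by positivity
    have h6 : (0 : ℝ) < 2 ^ j := by positivity
    have h7 : 2 ^ j * U01.real {t | ∃ k ≤ n, U j k (dg k t)} ≤ 1 := by
      have h8 : 2 ^ n * (2 ^ j * U01.real {t | ∃ k ≤ n, U j k (dg k t)}) ≤ 2 ^ n * 1 := by
        linarith
      exact le_of_mul_le_mul_left h8 h5
    have h9 : U01.real {t | ∃ k ≤ n, U j k (dg k t)} ≤ (1 / 2) ^ j := by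
      rw [one_div, inv_pow, ← one_div, le_div_iff₀ h6]
      linarith
    exact h9
  rw [ae_iff]
  have hsub : ∀ j, {t | ¬ ∃ j, ∀ k, ¬ U j k (dg k t)} ⊆ {t | ∃ k, U j k (dg k t)} := by
    intro j t ht
    rw [Set.mem_ofPred_eq] at ht ⊢
    push Not at ht
    exact ht j
  refine le_antisymm (ge_of_tendsto' (f := fun j : ℕ => ENNReal.ofReal ((1 / 2) ^ j))
    (x := atTop) ?_ fun j => (measure_mono (hsub j)).trans (hj j)) zero_le
  rw [← ENNReal.ofReal_zero]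
  exact (ENNReal.tendsto_ofReal (tendsto_pow_atTop_nhds_zero_of_lt_one (by norm_num) (by norm_num)))

/-- **Almost every sequence of digits is Martin-Löf random.** -/
theorem ae_ml : ∀ᵐ t ∂(volume.restrict (Set.Ico (0 : ℝ) 1)), MartinLof (dgs t) := by
  have hc : {U : ℕ → ℕ → ℕ → Prop | MartinLofTest U}.Countable := by
    refine ((countable_re (α := ℕ × ℕ × ℕ)).image (fun p j k x => p (j, k, x))).mono fun U hU => ?_
    exact ⟨_, hU.ce, rfl⟩
  have h1 : ∀ᵐ t ∂U01, ∀ U ∈ {U : ℕ → ℕ → ℕ → Prop | MartinLofTest U},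
      ∃ j, ∀ k, ¬ U j k (dg k t) := (ae_ball_iff hc).2 fun U hU => hU.null
  have h2 : ∀ᵐ t ∂(volume.restrict (Set.Ico (0 : ℝ) 1)), t ∈ Set.Ico (0 : ℝ) 1 :=
    ae_restrict_mem measurableSet_Ico
  filter_upwards [h1, h2] with t ht ht2 U hU
  obtain ⟨j, hj⟩ := ht U hU
  refine ⟨j, fun k => ?_⟩
  rw [num_dgs ht2.1 ht2.2]
  exact hj k

end Pool.Agent.Helper88.EL
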