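import Mathlib
import Pool.Agent.Helper88.EL.Law2
import Pool.Graph.R_pool_sql_team_seeded_1acbe0a2.Y895.PS.T5

set_option autoImplicit false

/-!
# The families of digits below prescribed leading digits
-/

namespace Pool.Agent.Helper88.EL

open MeasureTheory Finset Filter Topology
open Pool.Agent.Y895.PM (U01 U01_univ fn fn01)
open Pool.Agent.TH888.R (wt wt_nonneg wt_le_one)
open Pool.Agent.Y895.OL (AdmD lv gF gM gF_meas gM_meas gF_nonneg gF_le_one gM_nonneg gM_le_one Row)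
open Pool.Agent.W66S (moment_rows)

/-- the constant of the law -/
noncomputable def cG : ℝ := Real.exp Real.eulerMascheroniConstant / Real.log 2

lemma cG_pos : 0 < cG := div_pos (Real.exp_pos _) (Real.log_pos (by norm_num))

/-- variance of a sum of rows -/
lemma row_var {f m : ℕ → ℝ → ℝ} {Q : ℕ}
    (h : Row U01 f m {p | p.Prime} wt (fun _ => 1) Q) :
    ∃ C : ℝ, 0 ≤ C ∧ ∀ T : Finset ℕ, (∀ q ∈ T, Q ≤ q ∧ q.Prime) →
      ∫ t, (∑ q ∈ T, (f q t - m q t)) ^ 2 ∂U01 ≤ C * ∑ q ∈ T, wt q := by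
  obtain ⟨C, hC, hdiag, hrow⟩ := h.row
  refine ⟨3 * C, by positivity, fun T hT => ?_⟩
  have hGm : ∀ q, Measurable (fun x => f q x - m q x) := fun q => (h.fm q).sub (h.mm q)
  refine (moment_rows (μ := U01) (G := fun q x => f q x - m q x) hGm h.hb T).trans ?_
  rw [Finset.mul_sum]
  refine Finset.sum_le_sum fun q hq => ?_
  have hqc := hT q hq
  have h1 := hdiag q hqc.1 hqc.2
  have h2 := hrow q hqc.1 hqc.2 (T.filter (fun p => p < q)) (by
    intro p hp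
    rw [mem_filter] at hp
    exact ⟨(hT p hp.1).2, (hT p hp.1).1, hp.2⟩)
  simp only [mul_one] at h1 h2
  linarith

/-- the conditions on a family, without the condition on the number of free digits -/
structure Fam (A m : ℕ → ℕ) : Prop where
  mono : ∀ᶠ p in atTop, m p ≤ m (p + 1)
  size : ∃ c C : ℝ, 0 < c ∧ 0 < C ∧ ∀ᶠ p : ℕ in atTop, c * 2 ^ p ≤ A p ∧ (A p : ℝ) ≤ C * 2 ^ p
  dig : ∀ᶠ p in atTop, 2 ^ m p ≤ A p

lemma Fam.adm {A m : ℕ → ℕ} (h : Fam A m) {δ : ℝ} (hbig : ∀ᶠ p : ℕ in atTop, (1 - δ) * p ≤ m p) :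
    ∃ c C : ℝ, 0 < c ∧ 0 < C ∧ ∃ P : ℕ, AdmD 2 2 δ c C A m P := by
  obtain ⟨c, C, hc, hC, hs⟩ := h.size
  refine ⟨c, C, hc, hC, ?_⟩
  obtain ⟨P, hP⟩ := (h.mono.and (hs.and (h.dig.and hbig))).exists_forall_of_atTop
  refine ⟨P, fun p hp q hq => ?_, fun p hp => (hP p hp).2.1.1, fun p hp => (hP p hp).2.1.2,
    fun p hp => (hP p hp).2.2.1, fun p hp => ?_⟩
  · induction q, hq using Nat.le_induction with
    | base => exact le_rfl
    | succ q hq ih => exact ih.trans (hP q (le_trans hp hq)).1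
  · have h1 := (hP p hp).2.2.2
    have h2 : (0 : ℝ) ≤ Real.log 2 := Real.log_nonneg (by norm_num)
    have h3 := mul_le_mul_of_nonneg_right h1 h2
    simp only [Nat.cast_ofNat]
    linarith

theorem dev_fam : ∀ ε : ℝ, 0 < ε → ε < 1 → ∃ δ : ℝ, 0 < δ ∧ δ < 1 ∧ ∀ A m : ℕ → ℕ, Fam A m →
    (∀ᶠ p : ℕ in atTop, (1 - δ) * p ≤ m p) →
    (∃ (K : ℝ) (Q : ℕ), 0 ≤ K ∧ ∀ q ≥ Q, q.Prime → ∫ t, fq A m q t ∂U01 ≤ K * wt q) ∧
    ∀ s : ℕ → Bool, DevE A m s wt cG ε := by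
  intro ε hε hε1
  obtain ⟨δ, hδ, hδ1, hrow⟩ := Pool.Agent.Y895.PT.row_asy ε hε hε1.le
  obtain ⟨K, hK, hrow⟩ := hrow 2 (by norm_num)
  refine ⟨δ, hδ, hδ1, fun A m h hbig => ?_⟩
  obtain ⟨c, C, hc, hC, P, hP⟩ := h.adm hbig
  obtain ⟨Q, hR, hlo, hup, hone⟩ := hrow 2 le_rfl c C hc hC A m P hP
  have ef : ∀ q t, gF fn 2 A m q t = fq A m q t := fun q t => by
    unfold gF fq dg
    simp only [Nat.cast_ofNat]
  obtain ⟨C', hC', hvar⟩ := row_var hR
  refine ⟨⟨K, Q, hK.le, fun q hq hqp => ?_⟩, fun s => ⟨C', (2 + cG) * Q, hC',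
    mul_nonneg (by linarith [cG_pos]) (Nat.cast_nonneg Q), fun n => ?_⟩⟩
  · have h1 := hone q hq hqp
    simp only [ef] at h1
    exact h1
  obtain ⟨h1, h2⟩ := base_dev (f := gF fn 2 A m) (m := gM fn 2 A m (lv 2 2 δ)) (w := wt) (Q := Q)
    (G := cG) (ε := ε) (C := C') cG_pos hε hC' (gF_meas fn 2 A m) (gM_meas fn 2 A m _)
    (gF_nonneg fn01 2 A m) (gF_le_one fn01 2 A m) (gM_nonneg fn01 2 A m _)
    (gM_le_one fn01 le_rfl A m _) wt_nonneg wt_le_one hvar hlo hup (RR s n) (RR_prime n)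
  simp only [ef] at h1 h2
  have hQ : (0 : ℝ) ≤ Q := Nat.cast_nonneg Q
  have hcQ : 0 ≤ cG * Q := mul_nonneg cG_pos.le hQ
  rw [← av_eq] at h1
  constructor
  · unfold Vw
    linarith
  · intro lam hl
    refine le_trans (U01_mono fun t ht => ?_) (h2 lam hl)
    rw [Set.mem_ofPred_eq] at ht ⊢
    rw [av_eq] at ht
    unfold Vw at ht
    linarith

end Pool.Agent.Helper88.EL
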