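import Mathlib
import Pool.Agent.Helper88.EL.Testable
import Pool.Agent.Helper88.EL.Dev
import Pool.Graph.R_seed8.TH888.R.Asy

set_option autoImplicit false

/-!
# The law for digit sequences
-/

namespace Pool.Agent.Helper88.EL

open MeasureTheory Finset Filter Topology
open Pool.Agent.Y895.PM (U01 U01_univ fn)
open Pool.Agent.TH888.R (wt wt_nonneg wt_le_one VS VS_univ VS_univ_bound VS_univ_tendsto)

lemma Lead.fam {A m : ℕ → ℕ} (h : Lead A m) : Fam A m := by
  obtain ⟨K, hK⟩ := h.size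
  refine ⟨h.mono, ?_, h.dig⟩
  have hK0 : 0 < K := by
    obtain ⟨p, hp⟩ := hK.exists
    by_contra h0
    have : K = 0 := by omega
    rw [this, zero_mul] at hp
    have := Nat.one_le_two_pow (n := p)
    omega
  have hK' : (0 : ℝ) < K := by exact_mod_cast hK0
  refine ⟨1 / K, K, by positivity, hK', ?_⟩
  filter_upwards [hK] with p hp
  have h1 : (2 : ℝ) ^ p ≤ K * A p := by exact_mod_cast hp.1
  have h2 : (A p : ℝ) ≤ K * 2 ^ p := by exact_mod_cast hp.2
  refine ⟨?_, h2⟩
  rw [one_div, inv_mul_eq_div, div_le_iff₀ hK']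
  linarith

lemma M_eq (A m : ℕ → ℕ) (s b : ℕ → Bool) (n : ℕ) :
    M (fun p => A p + num b (m p)) s n = Fb A m s b (n + 1) := by
  unfold M Fb RR
  congr 1
  ext p
  simp only [mem_filter, ok, Bool.and_eq_true, decide_eq_true_eq]
  tauto

lemma V_eq (s : ℕ → Bool) (n : ℕ) : V s n = Vw s wt (n + 1) := by
  unfold V Vw RR
  have e : (range (n + 1)).filter (fun p => p.Prime ∧ s p = true) =
      (range (n + 1)).filter (fun q => ok s q = true) := by
    ext p
    simp only [mem_filter, ok, Bool.and_eq_true, decide_eq_true_eq]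
    tauto
  rw [e]
  rfl

lemma V_univ (n : ℕ) : V (fun _ => true) n = VS Set.univ n := by
  classical
  unfold V VS
  rw [Finset.sum_filter]
  refine Finset.sum_congr rfl fun p _ => ?_
  simp only [and_true, Set.mem_univ, true_and]
  rfl

lemma V_univ_tendsto : Tendsto (V (fun _ => true)) atTop atTop := by
  have : V (fun _ => true) = VS Set.univ := funext V_univ
  rw [this]
  exact VS_univ_tendsto

lemma V_univ_log : Tendsto (fun n : ℕ => V (fun _ => true) n / Real.log n) atTop (𝓝 1) := by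
  obtain ⟨C, hC0, hC⟩ := VS_univ_bound
  have hlog : Tendsto (fun n : ℕ => Real.log n) atTop atTop :=
    Real.tendsto_log_atTop.comp tendsto_natCast_atTop_atTop
  have h1 : Tendsto (fun n : ℕ => C / Real.log n) atTop (𝓝 0) := hlog.const_div_atTop C
  rw [tendsto_iff_dist_tendsto_zero]
  refine squeeze_zero' (Eventually.of_forall fun n => dist_nonneg) ?_ h1
  filter_upwards [hlog.eventually_gt_atTop 0, eventually_ge_atTop 1] with n hn hn1
  rw [Real.dist_eq, V_univ]
  have e : VS Set.univ n / Real.log n - 1 = (VS Set.univ n - Real.log n) / Real.log n := by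
    field_simp
  rw [e, abs_div, abs_of_pos hn]
  exact div_le_div_of_nonneg_right (hC n hn1) hn.le

lemma Vw_shift {s : ℕ → Bool} (hV : Tendsto (V s) atTop atTop) :
    Tendsto (Vw s wt) atTop atTop := by
  rw [← tendsto_add_atTop_iff_nat 1]
  exact hV.congr fun n => V_eq s n

lemma M_close {N N' : ℕ → ℕ} {k : ℕ} (h : ∀ p, k ≤ p → N p = N' p) (s : ℕ → Bool) (n : ℕ) :
    M N s n ≤ M N' s n + k := by
  unfold M
  have h1 : (range (n + 1)).filter (fun p => p.Prime ∧ s p = true ∧ (roughPart p (N p)).Prime) ⊆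
      (range (n + 1)).filter (fun p => p.Prime ∧ s p = true ∧ (roughPart p (N' p)).Prime) ∪
      range k := by
    intro p hp
    rw [mem_filter] at hp
    rw [mem_union, mem_filter, mem_range]
    rcases lt_or_ge p k with h2 | h2
    · exact Or.inr (mem_range.2 h2)
    · rw [h p h2] at hp
      exact Or.inl ⟨mem_range.1 hp.1, hp.2⟩
  have h2 := (Finset.card_le_card h1).trans (Finset.card_union_le _ _)
  rw [card_range] at h2
  exact h2

lemma M_close' {N N' : ℕ → ℕ} {k : ℕ} (h : ∀ p, k ≤ p → N p = N' p) (s : ℕ → Bool) (n : ℕ) :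
    |(M N s n : ℝ) - M N' s n| ≤ k := by
  have h1 := M_close h s n
  have h2 := M_close (fun p hp => (h p hp).symm) s n
  have h3 : (M N s n : ℝ) ≤ M N' s n + k := by exact_mod_cast h1
  have h4 : (M N' s n : ℝ) ≤ M N s n + k := by exact_mod_cast h2
  rw [abs_le]
  constructor <;> linarith

lemma tendsto_close {F F' W : ℕ → ℝ} {k G : ℝ} (h : ∀ n, |F n - F' n| ≤ k)
    (hW : Tendsto W atTop atTop) (hF : Tendsto (fun n => F' n / W n) atTop (𝓝 G)) :
    Tendsto (fun n => F n / W n) atTop (𝓝 G) := by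
  have h1 : Tendsto (fun n => k / W n) atTop (𝓝 0) := hW.const_div_atTop k
  have h2 : Tendsto (fun n => (F n - F' n) / W n) atTop (𝓝 0) := by
    refine squeeze_zero_norm' ?_ h1
    filter_upwards [hW.eventually_gt_atTop 0] with n hn
    rw [Real.norm_eq_abs, abs_div, abs_of_pos hn]
    exact div_le_div_of_nonneg_right (h n) hn.le
  have h3 := hF.add h2
  rw [add_zero] at h3
  refine h3.congr fun n => ?_
  rw [← add_div]
  congr 1
  ring

/-- **The law for the family, in the form of a test.** -/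
theorem lead_test {A m : ℕ → ℕ} (h : Lead A m)
    (hbig : ∀ δ : ℝ, 0 < δ → ∀ᶠ p : ℕ in atTop, (1 - δ) * p ≤ m p) {s : ℕ → Bool}
    (hs : Computable s) (hV : Tendsto (V s) atTop atTop) :
    Testable (fun b => Tendsto (fun n => (M (fun p => A p + num b (m p)) s n : ℝ) / V s n) atTop
      (𝓝 cG)) := by
  have hdev : Dev A m s wt cG := fun ε hε hε1 => by
    obtain ⟨δ, hδ, -, h1⟩ := dev_fam ε hε hε1
    exact (h1 A m h.fam (hbig δ hδ)).2 s
  obtain ⟨v, D, hT, hb⟩ := law_test h.cA h.cm hs hdev cG_pos (Vw_shift hV)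
  refine ⟨v, D, hT, fun b hf => ?_⟩
  have h1 := (tendsto_add_atTop_iff_nat 1).2 (hb b hf)
  refine h1.congr fun n => ?_
  rw [M_eq, V_eq]

/-- the precision -/
lemma exists_r {ε : ℝ} (hε : 0 < ε) : ∃ r : ℕ, 2 ≤ r ∧ 4 / (r : ℝ) ≤ ε := by
  obtain ⟨r, hr⟩ := exists_nat_gt (max 2 (4 / ε))
  have hr2 : (2 : ℝ) < r := lt_of_le_of_lt (le_max_left _ _) hr
  have hr3 : 4 / ε < r := lt_of_le_of_lt (le_max_right _ _) hr
  refine ⟨r, by exact_mod_cast hr2.le, ?_⟩
  rw [div_le_iff₀ (by linarith)]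
  rw [div_lt_iff₀ hε] at hr3
  linarith

/-- **The law up to a factor close to one, in the form of a test.** -/
theorem lead_testE {ε : ℝ} (hε : 0 < ε) : ∃ δ : ℝ, 0 < δ ∧ δ < 1 ∧ ∀ A m : ℕ → ℕ, Lead A m →
    (∀ᶠ p : ℕ in atTop, (1 - δ) * p ≤ m p) → ∀ s : ℕ → Bool, Computable s →
    Tendsto (V s) atTop atTop →
    Testable (fun b => ∀ᶠ n in atTop,
      (1 - ε) * cG * V s n ≤ M (fun p => A p + num b (m p)) s n ∧
      (M (fun p => A p + num b (m p)) s n : ℝ) ≤ (1 + ε) * cG * V s n) := by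
  obtain ⟨r, hr, hrε⟩ := exists_r hε
  obtain ⟨δ, hδ, hδ1, h1⟩ := dev_fam (1 / (16 * r)) (one_sixteenth (by omega)).1
    (one_sixteenth (by omega)).2
  refine ⟨δ, hδ, hδ1, fun A m h hbig s hs hV => ?_⟩
  obtain ⟨v, D, hT, hb⟩ := law_testE h.cA h.cm hs hr ((h1 A m h.fam hbig).2 s) cG_pos (Vw_shift hV)
  refine ⟨v, D, hT, fun b hf => ?_⟩
  have h3 := hb b hf
  have h4 : ∀ᶠ n in atTop, (1 - 4 / (r : ℝ)) * cG * Vw s wt (n + 1) ≤ Fb A m s b (n + 1) ∧
      (Fb A m s b (n + 1) : ℝ) ≤ (1 + 4 / (r : ℝ)) * cG * Vw s wt (n + 1) :=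
    (tendsto_add_atTop_nat 1).eventually h3
  filter_upwards [h4, hV.eventually_gt_atTop 0] with n hn hVn
  rw [← V_eq, ← M_eq] at hn
  have h5 : 0 < cG * V s n := mul_pos cG_pos hVn
  constructor
  · refine le_trans ?_ hn.1
    rw [mul_assoc, mul_assoc]
    exact mul_le_mul_of_nonneg_right (by linarith) h5.le
  · refine le_trans hn.2 ?_
    rw [mul_assoc, mul_assoc]
    exact mul_le_mul_of_nonneg_right (by linarith) h5.le

/-- the leading block `a` followed by `p - k` digits -/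
lemma lead_plain {a k : ℕ} (ha : 1 ≤ a) :
    Lead (fun p => a * 2 ^ (p - k)) (fun p => p - k) := by
  have hk : 1 ≤ 2 ^ k := Nat.one_le_two_pow
  refine ⟨comp_mul (Computable.const a) (comp_pow2 (comp_sub Computable.id (Computable.const k))),
    comp_sub Computable.id (Computable.const k), Eventually.of_forall fun p => by omega,
    ⟨a * 2 ^ k, ?_⟩, Eventually.of_forall fun p => Nat.le_mul_of_pos_left _ (by omega)⟩
  filter_upwards [eventually_ge_atTop k] with p hp
  have e : 2 ^ p = 2 ^ k * 2 ^ (p - k) := by rw [← pow_add]; congr 1; omega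
  constructor
  · rw [e]
    calc 2 ^ k * 2 ^ (p - k) = 1 * 2 ^ k * (1 * 2 ^ (p - k)) := by ring
      _ ≤ a * 2 ^ k * (a * 2 ^ (p - k)) :=
        Nat.mul_le_mul (Nat.mul_le_mul_right _ ha) (Nat.mul_le_mul_right _ ha)
  · calc a * 2 ^ (p - k) ≤ (a * 2 ^ k) * 2 ^ p :=
        Nat.mul_le_mul (Nat.le_mul_of_pos_right _ (by omega))
          (Nat.pow_le_pow_right (by norm_num) (Nat.sub_le _ _))
      _ = _ := rfl

lemma big_plain (k : ℕ) : ∀ δ : ℝ, 0 < δ → ∀ᶠ p : ℕ in atTop, (1 - δ) * p ≤ ((p - k : ℕ) : ℝ) := by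
  intro δ hδ
  filter_upwards [eventually_ge_atTop k, (tendsto_natCast_atTop_atTop (R := ℝ)).eventually_ge_atTop
    (k / δ)] with p hp hp2
  rw [Nat.cast_sub hp]
  rw [div_le_iff₀ hδ] at hp2
  linarith

lemma plain_eq (b : ℕ → Bool) {k p : ℕ} (hp : k ≤ p) :
    num b p = num b k * 2 ^ (p - k) + num (fun j => b (k + j)) (p - k) := by
  rw [← num_add]
  congr 1
  omega

/-- **The law for the plain digits, in the form of a test.** -/
theorem plain_test {a k : ℕ} (ha : 1 ≤ a) {s : ℕ → Bool} (hs : Computable s)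
    (hV : Tendsto (V s) atTop atTop) :
    Testable (fun b => num b k = a →
      Tendsto (fun n => (M (num b) s n : ℝ) / V s n) atTop (𝓝 cG)) := by
  refine ((lead_test (lead_plain (k := k) ha) (big_plain k) hs hV).tail k).mono fun b hb hk => ?_
  refine tendsto_close (k := k) (fun n => M_close' (fun p hp => ?_) s n) hV hb
  rw [plain_eq b hp, hk]

end Pool.Agent.Helper88.EL
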