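import Mathlib
import Pool.Agent.Helper88.EL.Stm
import Pool.Graph.R_pool_sql_team_seeded_1acbe0a2.Y895.PM.G3

set_option autoImplicit false

/-!
# Variances of the blocks, for the set of all primes
-/

namespace Pool.Agent.Helper88.EL

open MeasureTheory Finset Filter Topology
open Pool.Agent.Y895.PM (U01 U01_univ fn gf ee Adm sys_pm ee_eq)
open Pool.Agent.TH888.R (wt wt_nonneg wt_le_one VS VS_univ VS_univ_bound Sys loglog_nonneg)
open Pool.Agent.W66S (moment_rows mid_weights)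

/-- variance of sums of a system -/
lemma sys_var {f m : ℕ → ℝ → ℝ} {c : ℝ → ℝ} (h : Sys U01 f m c) :
    ∃ C : ℝ, 0 ≤ C ∧ ∃ P : ℕ, ∀ (R : ℕ) (T : Finset ℕ), (∀ q ∈ T, q.Prime ∧ P ≤ q ∧ q < 2 ^ 2 ^ R) →
      ∫ x, (∑ q ∈ T, (f q x - m q x)) ^ 2 ∂U01 ≤ C * ((R : ℝ) + 1) * ∑ q ∈ T, wt q := by
  classical
  obtain ⟨κ, C, hκ, hC, P1, hP13, hdiag, hrow⟩ := h.row
  obtain ⟨C2, hC2, hmid⟩ := mid_weights hκ
  obtain ⟨P3, hP3⟩ := eventually_atTop.1 hmid
  refine ⟨C * (3 + 2 * C2), by positivity, P1 + P3, fun R T hT => ?_⟩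
  have hGm : ∀ q, Measurable (fun x => f q x - m q x) := fun q => (h.fm q).sub (h.mm q)
  refine (moment_rows (μ := U01) (G := fun q x => f q x - m q x) hGm h.hb T).trans ?_
  rw [Finset.mul_sum]
  refine Finset.sum_le_sum fun q hq => ?_
  obtain ⟨hqp, hqP, hqR⟩ := hT q hq
  have h1 := hdiag q (by omega) hqp
  have h2 := hrow q (by omega) hqp (T.filter (fun p => p < q)) (by
    intro p hp
    rw [mem_filter] at hp
    obtain ⟨a1, a2, -⟩ := hT p hp.1
    exact ⟨a1, by omega, hp.2⟩)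
  have h3 : ∑ p ∈ (T.filter (fun p => p < q)).filter (fun p : ℕ => κ * q / Real.log q < (p : ℝ)),
      wt p ≤ C2 * (1 + Real.log (Real.log q)) := hP3 q (by omega) _ (by
    intro p hp
    rw [mem_filter, mem_filter] at hp
    exact ⟨(hT p hp.1.1).1, hp.1.2.le, hp.2⟩)
  have hq3 : 3 ≤ q := by omega
  have h4 : Real.log (Real.log q) ≤ R := by
    have hq3' : (3 : ℝ) ≤ q := by exact_mod_cast hq3
    have hlq : 0 < Real.log q := Real.log_pos (by linarith)
    have h5 : (q : ℝ) ≤ 2 ^ 2 ^ R := by exact_mod_cast hqR.le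
    have h6 : Real.log q ≤ 2 ^ R := by
      have h7 := Real.log_le_log (by linarith) h5
      rw [Real.log_pow] at h7
      have h8 := Real.log_two_lt_d9
      push_cast at h7
      have h9 : (0 : ℝ) < 2 ^ R := by positivity
      nlinarith
    have h10 := Real.log_le_log hlq h6
    rw [Real.log_pow] at h10
    have h8 := Real.log_two_lt_d9
    have h9 : (0 : ℝ) ≤ R := Nat.cast_nonneg R
    nlinarith
  have hR0 : (0 : ℝ) ≤ R := Nat.cast_nonneg R
  have hw := wt_nonneg q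
  set Z := ∑ p ∈ (T.filter (fun p => p < q)).filter (fun p : ℕ => κ * q / Real.log q < (p : ℝ)), wt p
  have h5 : Z ≤ C2 * (1 + R) := h3.trans (by gcongr)
  have h6 : C * (wt q * (1 + Z)) ≤ C * (wt q * (1 + C2 * (1 + R))) := by gcongr
  have h7 : 0 ≤ C * wt q := by positivity
  have h8 : 0 ≤ C * wt q * R := by positivity
  have h9 : C * wt q + 2 * (C * (wt q * (1 + C2 * (1 + R)))) ≤
      C * (3 + 2 * C2) * ((R : ℝ) + 1) * wt q := by
    have e : C * (3 + 2 * C2) * ((R : ℝ) + 1) * wt q -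
        (C * wt q + 2 * (C * (wt q * (1 + C2 * (1 + R))))) = 3 * (C * wt q * R) := by ring
    linarith
  linarith

/-- the square of a sum whose first part is bounded -/
lemma sq_split {X : ℝ → ℝ} {Y : ℝ → ℝ} (hX : Measurable X) (hY : Measurable Y) {K B : ℝ}
    (hXb : ∀ t, |X t| ≤ K) {M : ℝ} (hYb : ∀ t, |Y t| ≤ M) (hB : ∫ t, Y t ^ 2 ∂U01 ≤ B) :
    ∫ t, (X t + Y t) ^ 2 ∂U01 ≤ 2 * K ^ 2 + 2 * B := by
  have i1 : Integrable (fun t => Y t ^ 2) U01 := int_of_bdd (hY.pow_const 2) (M ^ 2) fun t => by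
    rw [abs_pow]
    exact pow_le_pow_left₀ (abs_nonneg _) (hYb t) 2
  have i2 : Integrable (fun t => 2 * K ^ 2 + 2 * Y t ^ 2) U01 :=
    (integrable_const _).add (i1.const_mul 2)
  have i3 : Integrable (fun t => (X t + Y t) ^ 2) U01 :=
    int_of_bdd ((hX.add hY).pow_const 2) ((K + M) ^ 2) fun t => by
      rw [abs_pow]
      exact pow_le_pow_left₀ (abs_nonneg _)
        ((abs_add_le _ _).trans (add_le_add (hXb t) (hYb t))) 2
  have h1 : ∫ t, (X t + Y t) ^ 2 ∂U01 ≤ ∫ t, (2 * K ^ 2 + 2 * Y t ^ 2) ∂U01 := by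
    refine integral_mono i3 i2 fun t => ?_
    have h2 : X t ^ 2 ≤ K ^ 2 := by
      rw [← sq_abs]
      exact pow_le_pow_left₀ (abs_nonneg _) (hXb t) 2
    show (X t + Y t) ^ 2 ≤ 2 * K ^ 2 + 2 * Y t ^ 2
    nlinarith [sq_nonneg (X t - Y t)]
  rw [integral_add (integrable_const _) (i1.const_mul 2), int_const', integral_const_mul] at h1
  linarith

/-- the conditions on a family, with its number of free digits -/
def Big (κ : ℝ) (m : ℕ → ℕ) : Prop := ∀ᶠ p : ℕ in atTop, (p : ℝ) - κ * p / Real.log p ≤ m p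

lemma Fam.admK {A m : ℕ → ℕ} (h : Fam A m) {κ : ℝ} (hbig : Big κ m) :
    ∃ c C : ℝ, 0 < c ∧ 0 < C ∧ ∃ P : ℕ, Adm 2 κ c C A m P := by
  obtain ⟨c, C, hc, hC, hs⟩ := h.size
  refine ⟨c, C, hc, hC, ?_⟩
  obtain ⟨P, hP⟩ := (h.mono.and (hs.and (h.dig.and hbig))).exists_forall_of_atTop
  refine ⟨P, fun p hp q hq => ?_, fun p hp => (hP p hp).2.1.1, fun p hp => (hP p hp).2.1.2,
    fun p hp => (hP p hp).2.2.1, fun p hp => (hP p hp).2.2.2⟩
  induction q, hq using Nat.le_induction with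
  | base => exact le_rfl
  | succ q hq ih => exact ih.trans (hP q (le_trans hp hq)).1

/-- all primes -/
abbrev al : ℕ → Bool := fun _ => true

/-- the centred sums of blocks -/
noncomputable def Xb (A m : ℕ → ℕ) (a b : ℕ) (t : ℝ) : ℝ :=
  ∑ q ∈ (Ico a b).filter Nat.Prime, (fq A m q t - ∫ x, fq A m q x ∂U01)

lemma Xb_meas (A m : ℕ → ℕ) (a b : ℕ) : Measurable (Xb A m a b) :=
  Finset.measurable_fun_sum _ fun q _ => (fq_meas q).sub measurable_const

lemma fq_cent (A m : ℕ → ℕ) (q : ℕ) (t : ℝ) : |fq A m q t - ∫ x, fq A m q x ∂U01| ≤ 1 := by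
  have h1 := int_fq_bd (A := A) (m := m) q
  have h2 := fq0 (A := A) (m := m) q t
  have h3 := fq1 (A := A) (m := m) q t
  rw [abs_le]
  constructor <;> linarith

lemma sum_cent_le (A m : ℕ → ℕ) (T : Finset ℕ) (t : ℝ) :
    |∑ q ∈ T, (fq A m q t - ∫ x, fq A m q x ∂U01)| ≤ T.card := by
  calc _ ≤ ∑ q ∈ T, |fq A m q t - ∫ x, fq A m q x ∂U01| := Finset.abs_sum_le_sum_abs _ _
    _ ≤ ∑ q ∈ T, (1 : ℝ) := Finset.sum_le_sum fun q _ => fq_cent A m q t
    _ = T.card := by simp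

/-- the data of a family: variances of the blocks, and the means -/
theorem fam_err : ∃ κ : ℝ, 0 < κ ∧ ∀ A m : ℕ → ℕ, Fam A m → Big κ m →
    (∃ C : ℝ, 0 ≤ C ∧ ∀ R a b : ℕ, b ≤ 2 ^ 2 ^ R → ∫ t, Xb A m a b t ^ 2 ∂U01 ≤
      C * ((R : ℝ) + 1) * (1 + ∑ q ∈ (Ico a b).filter Nat.Prime, wt q)) ∧
    (∃ (K : ℝ) (P : ℕ), 0 ≤ K ∧ ∀ q ≥ P, q.Prime →
      |∫ x, fq A m q x ∂U01 - cG * wt q| ≤ K * (1 / q)) := by
  obtain ⟨κ, hκ, hsys⟩ := sys_pm (b := 2) le_rfl
  refine ⟨κ, hκ, fun A m h hbig => ?_⟩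
  obtain ⟨c, C, hc, hC, P, hadm⟩ := h.admK hbig
  have hS := hsys c C hc hC A m P hadm
  have ef : ∀ q t, gf 2 A m q t = fq A m q t := fun q t => by
    unfold gf fq dg Pool.Agent.Y895.PM.XX
    simp only [Nat.cast_ofNat]
  have em : ∀ q, ee 2 A m q = ∫ x, fq A m q x ∂U01 := fun q => by
    rw [← ee_eq le_rfl]
    simp only [ef]
  obtain ⟨C1, hC1, P1, hvar⟩ := sys_var hS
  simp only [ef, em] at hvar
  refine ⟨⟨2 * P1 ^ 2 + 2 * C1, by positivity, fun R a b hb => ?_⟩, ?_⟩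
  · classical
    set T := (Ico a b).filter Nat.Prime with hT
    set T1 := T.filter (fun q => q < P1) with hT1
    set T2 := T.filter (fun q => ¬ q < P1) with hT2
    have e1 : ∀ t, Xb A m a b t = (∑ q ∈ T1, (fq A m q t - ∫ x, fq A m q x ∂U01)) +
        ∑ q ∈ T2, (fq A m q t - ∫ x, fq A m q x ∂U01) := fun t =>
      (Finset.sum_filter_add_sum_filter_not T (fun q => q < P1) _).symm
    have hm : ∀ T' : Finset ℕ, Measurable fun t =>
        ∑ q ∈ T', (fq A m q t - ∫ x, fq A m q x ∂U01) := fun T' =>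
      Finset.measurable_fun_sum _ fun q _ => (fq_meas q).sub measurable_const
    have h1 := hvar R T2 (fun q hq => by
      rw [hT2, hT, mem_filter, mem_filter, mem_Ico] at hq
      exact ⟨hq.1.2, by omega, by omega⟩)
    have hc1 : (T1.card : ℝ) ≤ P1 := by
      have : T1.card ≤ (range P1).card := Finset.card_le_card fun q hq => by
        rw [hT1, mem_filter] at hq
        exact mem_range.2 hq.2
      rw [card_range] at this
      exact_mod_cast this
    have h2 := sq_split (hm T1) (hm T2) (K := P1) (M := T2.card)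
      (fun t => (sum_cent_le A m T1 t).trans hc1) (sum_cent_le A m T2) h1
    simp only [e1]
    refine h2.trans ?_
    have h3 : ∑ q ∈ T2, wt q ≤ ∑ q ∈ T, wt q :=
      Finset.sum_le_sum_of_subset_of_nonneg (Finset.filter_subset _ _) fun _ _ _ => wt_nonneg _
    have hR0 : (0 : ℝ) ≤ R := Nat.cast_nonneg R
    have hw0 : 0 ≤ ∑ q ∈ T, wt q := Finset.sum_nonneg fun _ _ => wt_nonneg _
    set W := ∑ q ∈ T, wt q
    have h4 : C1 * ((R : ℝ) + 1) * ∑ q ∈ T2, wt q ≤ C1 * ((R : ℝ) + 1) * W :=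
      mul_le_mul_of_nonneg_left h3 (by positivity)
    have h5 : 0 ≤ C1 * ((R : ℝ) + 1) := by positivity
    have h6 : 2 * (P1 : ℝ) ^ 2 ≤ 2 * (P1 : ℝ) ^ 2 * (((R : ℝ) + 1) * (1 + W)) := by
      refine le_mul_of_one_le_right (by positivity) ?_
      nlinarith
    nlinarith
  · obtain ⟨K, hK, P2, hmean⟩ := hS.mean
    refine ⟨K, P2, hK, fun q hq hqp => ?_⟩
    have hne : (ae U01).NeBot := by
      rw [ae_neBot]
      intro h0
      have := U01_univ
      rw [h0] at this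
      simp at this
    obtain ⟨x, hx⟩ := hmean.exists
    have h1 := hx q hq hqp
    rw [em] at h1
    unfold cG
    simp only [Nat.cast_ofNat] at h1
    exact h1

end Pool.Agent.Helper88.EL
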