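import Mathlib
import Pool.Agent.Helper88.EL.Err1
import Pool.Graph.R_seed8.TH888.R.GK

set_option autoImplicit false

/-!
# The dyadic energy of the counting function
-/

namespace Pool.Agent.Helper88.EL

open MeasureTheory Finset Filter Topology
open Pool.Agent.Y895.PM (U01 U01_univ fn)
open Pool.Agent.TH888.R (wt wt_nonneg wt_le_one VS VS_univ VS_univ_bound En sq_le_En pr2 sum_pr2)

/-! ### weights of dyadic blocks -/

/-- the sum of the weights below `n` -/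
noncomputable def WW (n : ℕ) : ℝ := ∑ q ∈ (range n).filter Nat.Prime, wt q

lemma WW_succ (n : ℕ) : WW (n + 1) = VS Set.univ n := by
  rw [← V_univ]
  unfold WW V
  simp only [and_true]
  rfl

lemma WW_pow : ∃ C : ℝ, 0 ≤ C ∧ ∀ j : ℕ, |WW (2 ^ j) - j * Real.log 2| ≤ C := by
  obtain ⟨C, hC0, hC⟩ := VS_univ_bound
  refine ⟨C + 1, by positivity, fun j => ?_⟩
  have hl2 := Real.log_two_lt_d9
  have hl2' := Real.log_two_gt_d9
  rcases Nat.eq_zero_or_pos j with h0 | h0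
  · rw [h0]
    have e : WW (2 ^ 0) = 0 := by
      unfold WW
      rw [pow_zero, Finset.range_one, Finset.filter_singleton, if_neg Nat.not_prime_zero,
        Finset.sum_empty]
    rw [e]
    simp
    linarith
  · obtain ⟨i, rfl⟩ := Nat.exists_eq_add_of_le h0
    have h1 : 1 ≤ 2 ^ i := Nat.one_le_two_pow
    have e1 : 2 ^ (1 + i) = 2 * 2 ^ i := by rw [pow_add, pow_one]
    obtain ⟨n, hn⟩ : ∃ n, 2 ^ (1 + i) = n + 1 := ⟨2 ^ (1 + i) - 1, by omega⟩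
    have hn1 : 1 ≤ n := by omega
    have h2 := hC n hn1
    rw [hn, WW_succ]
    have h3 : (2 : ℝ) ^ (1 + i) = n + 1 := by exact_mod_cast hn
    have hnR : (1 : ℝ) ≤ n := by exact_mod_cast hn1
    have h4 : Real.log n ≤ ((1 + i : ℕ) : ℝ) * Real.log 2 := by
      rw [← Real.log_pow]
      exact Real.log_le_log (by linarith) (by rw [h3]; linarith)
    have h5 : (i : ℝ) * Real.log 2 ≤ Real.log n := by
      rw [← Real.log_pow]
      refine Real.log_le_log (by positivity) ?_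
      have : 2 ^ i ≤ n := by omega
      exact_mod_cast this
    push_cast at h4 ⊢
    rw [abs_le] at h2 ⊢
    constructor <;> linarith [h2.1, h2.2]

lemma WW_Ico {a b : ℕ} (h : a ≤ b) :
    ∑ q ∈ (Ico a b).filter Nat.Prime, wt q = WW b - WW a := by
  unfold WW
  rw [Finset.sum_filter, Finset.sum_filter, Finset.sum_filter, Finset.sum_Ico_eq_sub _ h]

lemma WW_block : ∃ C : ℝ, 0 ≤ C ∧ ∀ i d : ℕ, 1 ≤ d →
    1 + ∑ q ∈ (Ico (2 ^ i) (2 ^ (i + d))).filter Nat.Prime, wt q ≤ C * d := by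
  obtain ⟨C, hC0, hC⟩ := WW_pow
  refine ⟨2 + 2 * C, by positivity, fun i d hd => ?_⟩
  rw [WW_Ico (Nat.pow_le_pow_right (by norm_num) (Nat.le_add_right _ _))]
  have h1 := abs_le.1 (hC i)
  have h2 := abs_le.1 (hC (i + d))
  have hd' : (1 : ℝ) ≤ d := by exact_mod_cast hd
  have hl2 := Real.log_two_lt_d9
  push_cast at h2
  nlinarith [h1.1, h2.2]

/-! ### the energy -/

/-- the closed form of the dyadic energy -/
lemma En_closed (R : ℕ) : ∀ Y : ℕ → ℝ, En R Y = ∑ r ∈ range (R + 1), ∑ i ∈ range (2 ^ (R - r)),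
    (∑ j ∈ Ico (i * 2 ^ r) ((i + 1) * 2 ^ r), Y j) ^ 2 := by
  induction R with
  | zero =>
    intro Y
    simp [En]
  | succ R ih =>
    intro Y
    show (∑ j ∈ range (2 ^ (R + 1)), Y j ^ 2) + En R (pr2 Y) = _
    rw [ih, Finset.sum_range_succ' _ (R + 1), add_comm]
    congr 1
    · refine Finset.sum_congr rfl fun r _ => ?_
      have e1 : R + 1 - (r + 1) = R - r := by omega
      rw [e1]
      refine Finset.sum_congr rfl fun i _ => ?_
      congr 1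
      have h1 : i * 2 ^ r ≤ (i + 1) * 2 ^ r := Nat.mul_le_mul_right _ (Nat.le_succ i)
      have h2 : i * 2 ^ (r + 1) ≤ (i + 1) * 2 ^ (r + 1) := Nat.mul_le_mul_right _ (Nat.le_succ i)
      rw [Finset.sum_Ico_eq_sub _ h1, Finset.sum_Ico_eq_sub _ h2, sum_pr2, sum_pr2]
      have e2 : 2 * ((i + 1) * 2 ^ r) = (i + 1) * 2 ^ (r + 1) := by rw [pow_succ]; ring
      have e3 : 2 * (i * 2 ^ r) = i * 2 ^ (r + 1) := by rw [pow_succ]; ring
      rw [e2, e3]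
    · rw [Nat.sub_zero]
      refine Finset.sum_congr rfl fun i _ => ?_
      simp

/-- the energy of the centred counting function -/
noncomputable def EnT (A m : ℕ → ℕ) (R : ℕ) (t : ℝ) : ℝ :=
  ∑ r ∈ range (R + 1), ∑ i ∈ range (2 ^ (R - r)),
    Xb A m (2 ^ (i * 2 ^ r)) (2 ^ ((i + 1) * 2 ^ r)) t ^ 2

lemma EnT_nonneg (A m : ℕ → ℕ) (R : ℕ) (t : ℝ) : 0 ≤ EnT A m R t :=
  Finset.sum_nonneg fun _ _ => Finset.sum_nonneg fun _ _ => sq_nonneg _

lemma Xb_sq_int (A m : ℕ → ℕ) (a b : ℕ) : Integrable (fun t => Xb A m a b t ^ 2) U01 :=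
  int_of_bdd ((Xb_meas A m a b).pow_const 2) (((Ico a b).filter Nat.Prime).card ^ 2) fun t => by
    rw [abs_pow]
    exact pow_le_pow_left₀ (abs_nonneg _) (sum_cent_le A m _ t) 2

lemma EnT_int (A m : ℕ → ℕ) (R : ℕ) : Integrable (EnT A m R) U01 :=
  integrable_finsetSum _ fun _ _ => integrable_finsetSum _ fun _ _ => Xb_sq_int A m _ _

theorem EnT_mean {A m : ℕ → ℕ} {C : ℝ} (hC0 : 0 ≤ C)
    (hvar : ∀ R a b : ℕ, b ≤ 2 ^ 2 ^ R → ∫ t, Xb A m a b t ^ 2 ∂U01 ≤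
      C * ((R : ℝ) + 1) * (1 + ∑ q ∈ (Ico a b).filter Nat.Prime, wt q)) :
    ∃ C' : ℝ, 0 ≤ C' ∧ ∀ R : ℕ, ∫ t, EnT A m R t ∂U01 ≤ C' * (((R : ℝ) + 1) ^ 2 * 2 ^ R) := by
  obtain ⟨C2, hC20, hC2⟩ := WW_block
  refine ⟨C * C2, by positivity, fun R => ?_⟩
  unfold EnT
  rw [integral_finsetSum _ fun _ _ => integrable_finsetSum _ fun _ _ => Xb_sq_int A m _ _]
  have h1 : ∀ r ∈ range (R + 1), ∫ t, ∑ i ∈ range (2 ^ (R - r)),
      Xb A m (2 ^ (i * 2 ^ r)) (2 ^ ((i + 1) * 2 ^ r)) t ^ 2 ∂U01 ≤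
      C * C2 * (((R : ℝ) + 1) * 2 ^ R) := by
    intro r hr
    have hrR : r ≤ R := by rw [mem_range] at hr; omega
    rw [integral_finsetSum _ fun _ _ => Xb_sq_int A m _ _]
    have h2 : ∀ i ∈ range (2 ^ (R - r)),
        ∫ t, Xb A m (2 ^ (i * 2 ^ r)) (2 ^ ((i + 1) * 2 ^ r)) t ^ 2 ∂U01 ≤
          C * ((R : ℝ) + 1) * (C2 * 2 ^ r) := by
      intro i hi
      rw [mem_range] at hi
      have h3 : (i + 1) * 2 ^ r ≤ 2 ^ R := by
        calc (i + 1) * 2 ^ r ≤ 2 ^ (R - r) * 2 ^ r := Nat.mul_le_mul_right _ hi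
          _ = 2 ^ R := by rw [← pow_add]; congr 1; omega
      have h4 := hvar R (2 ^ (i * 2 ^ r)) (2 ^ ((i + 1) * 2 ^ r))
        (Nat.pow_le_pow_right (by norm_num) h3)
      have h5 := hC2 (i * 2 ^ r) (2 ^ r) Nat.one_le_two_pow
      have e : i * 2 ^ r + 2 ^ r = (i + 1) * 2 ^ r := by ring
      rw [e] at h5
      push_cast at h5
      refine h4.trans (mul_le_mul_of_nonneg_left h5 (by positivity))
    refine (Finset.sum_le_sum h2).trans (le_of_eq ?_)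
    rw [Finset.sum_const, card_range, nsmul_eq_mul]
    have e : (2 : ℝ) ^ R = 2 ^ (R - r) * 2 ^ r := by rw [← pow_add]; congr 1; omega
    rw [e]
    push_cast
    ring
  refine (Finset.sum_le_sum h1).trans (le_of_eq ?_)
  rw [Finset.sum_const, card_range, nsmul_eq_mul]
  push_cast
  ring

theorem EnT_meas {A m : ℕ → ℕ} {C : ℝ} (hC0 : 0 ≤ C)
    (hvar : ∀ R a b : ℕ, b ≤ 2 ^ 2 ^ R → ∫ t, Xb A m a b t ^ 2 ∂U01 ≤
      C * ((R : ℝ) + 1) * (1 + ∑ q ∈ (Ico a b).filter Nat.Prime, wt q)) :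
    ∃ K : ℕ, ∀ R : ℕ, ((R : ℝ) + 1) ^ 2 *
      U01.real {t | 2 ^ R * ((R : ℝ) + 1) ^ 4 < EnT A m R t} ≤ K := by
  obtain ⟨C', hC', h⟩ := EnT_mean hC0 hvar
  obtain ⟨K, hK⟩ := exists_nat_gt C'
  refine ⟨K, fun R => le_trans ?_ hK.le⟩
  have h1 := mul_meas_ge_le_integral_of_nonneg (μ := U01) (f := EnT A m R)
    (Eventually.of_forall (EnT_nonneg A m R)) (EnT_int A m R) (2 ^ R * ((R : ℝ) + 1) ^ 4)
  have h2 : U01.real {t | 2 ^ R * ((R : ℝ) + 1) ^ 4 < EnT A m R t} ≤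
      U01.real {t | 2 ^ R * ((R : ℝ) + 1) ^ 4 ≤ EnT A m R t} := U01_mono fun t ht => by
    rw [Set.mem_ofPred_eq] at ht ⊢
    exact ht.le
  have h3 := h R
  have hp : (0 : ℝ) < 2 ^ R * ((R : ℝ) + 1) ^ 2 := by positivity
  set X := U01.real {t | 2 ^ R * ((R : ℝ) + 1) ^ 4 < EnT A m R t}
  have h4 : 2 ^ R * ((R : ℝ) + 1) ^ 4 * X ≤ C' * (((R : ℝ) + 1) ^ 2 * 2 ^ R) :=
    (mul_le_mul_of_nonneg_left h2 (by positivity)).trans (h1.trans h3)
  have h5 : 2 ^ R * ((R : ℝ) + 1) ^ 2 * (((R : ℝ) + 1) ^ 2 * X) ≤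
      2 ^ R * ((R : ℝ) + 1) ^ 2 * C' := by
    calc _ = 2 ^ R * ((R : ℝ) + 1) ^ 4 * X := by ring
      _ ≤ C' * (((R : ℝ) + 1) ^ 2 * 2 ^ R) := h4
      _ = _ := by ring
  exact le_of_mul_le_mul_left h5 hp

end Pool.Agent.Helper88.EL
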