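import Mathlib
import Pool.Agent.Helper88.EL.Err2

set_option autoImplicit false

/-!
# The test for the error term
-/

namespace Pool.Agent.Helper88.EL

open MeasureTheory Finset Filter Topology
open Pool.Agent.Y895.PM (U01 U01_univ fn)
open Pool.Agent.TH888.R (wt wt_nonneg wt_le_one VS VS_univ VS_univ_bound En sq_le_En pr2 sum_pr2)

section

variable (A m : ℕ → ℕ)

/-- the counting function at the string `x` of length `u` -/
def FU (u n x : ℕ) : ℕ := ∑ q ∈ range n, (decide q.Prime && rb q (A q + x / 2 ^ (u - m q))).toNat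

/-- the mean of the counting function, times `2 ^ u` -/
def GU (u n : ℕ) : ℕ := ∑ q ∈ range n, (decide q.Prime).toNat * (2 ^ (u - m q) * cc A m q)

/-- the deviation of a block, times `2 ^ u` -/
def DU (u a b x : ℕ) : ℕ :=
  ((FU A m u b x - FU A m u a x) * 2 ^ u - (GU A m u b - GU A m u a)) +
    ((GU A m u b - GU A m u a) - (FU A m u b x - FU A m u a x) * 2 ^ u)

/-- the number of digits -/
def uR (R : ℕ) : ℕ := uu m (2 ^ 2 ^ R)

/-- the energy, times `2 ^ (2 * uR R)` -/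
def EU (R x : ℕ) : ℕ := ∑ r ∈ range (R + 1), ∑ i ∈ range (2 ^ (R - r)),
  DU A m (uR m R) (2 ^ (i * 2 ^ r)) (2 ^ ((i + 1) * 2 ^ r)) x ^ 2

/-- the test -/
def TE (R x : ℕ) : Bool := decide (2 ^ R * (R + 1) ^ 4 * 2 ^ (2 * uR m R) < EU A m R x)

variable {A m}

section comput

variable {α : Type*} [Primcodable α]

lemma comp_FUc (hA : Computable A) (hm : Computable m) {u n x : α → ℕ} (hu : Computable u)
    (hn : Computable n) (hx : Computable x) : Computable fun a => FU A m (u a) (n a) (x a) := by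
  have h0 : Computable fun z : α × ℕ => A z.2 + x z.1 / 2 ^ (u z.1 - m z.2) :=
    comp_add (hA.comp Computable.snd) (comp_div (hx.comp Computable.fst)
      (comp_pow2 (comp_sub (hu.comp Computable.fst) (hm.comp Computable.snd))))
  have h1 : Computable fun z : α × ℕ => rb z.2 (A z.2 + x z.1 / 2 ^ (u z.1 - m z.2)) :=
    Computable₂.comp comp_rb Computable.snd h0
  have h2 : Computable fun z : α × ℕ => decide z.2.Prime :=
    primrec_prime.decide.to_comp.comp Computable.snd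
  have h3 : Computable₂ fun (a : α) (q : ℕ) =>
      (decide q.Prime && rb q (A q + x a / 2 ^ (u a - m q))).toNat := comp_toNat (comp_and h2 h1)
  exact comp_sum h3 hn

lemma comp_GUc (hA : Computable A) (hm : Computable m) {u n : α → ℕ} (hu : Computable u)
    (hn : Computable n) : Computable fun a => GU A m (u a) (n a) := by
  have h2 : Computable fun z : α × ℕ => decide z.2.Prime :=
    primrec_prime.decide.to_comp.comp Computable.snd
  have h4 : Computable fun z : α × ℕ => 2 ^ (u z.1 - m z.2) * cc A m z.2 :=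
    comp_mul (comp_pow2 (comp_sub (hu.comp Computable.fst) (hm.comp Computable.snd)))
      ((comp_cc hA hm).comp Computable.snd)
  have h3 : Computable₂ fun (a : α) (q : ℕ) =>
      (decide q.Prime).toNat * (2 ^ (u a - m q) * cc A m q) := comp_mul (comp_toNat h2) h4
  exact comp_sum h3 hn

lemma comp_DUc (hA : Computable A) (hm : Computable m) {u n k x : α → ℕ} (hu : Computable u)
    (hn : Computable n) (hk : Computable k) (hx : Computable x) :
    Computable fun a => DU A m (u a) (n a) (k a) (x a) := by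
  have h1 : Computable fun a => (FU A m (u a) (k a) (x a) - FU A m (u a) (n a) (x a)) * 2 ^ u a :=
    comp_mul (comp_sub (comp_FUc hA hm hu hk hx) (comp_FUc hA hm hu hn hx)) (comp_pow2 hu)
  have h2 : Computable fun a => GU A m (u a) (k a) - GU A m (u a) (n a) :=
    comp_sub (comp_GUc hA hm hu hk) (comp_GUc hA hm hu hn)
  exact comp_add (comp_sub h1 h2) (comp_sub h2 h1)

end comput

lemma comp_uR (hm : Computable m) : Computable (uR m) :=
  (comp_uu hm).comp (comp_pow2 (comp_pow2 Computable.id))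

lemma comp_EU (hA : Computable A) (hm : Computable m) : Computable₂ (EU A m) := by
  have g1 : Computable fun z : ((ℕ × ℕ) × ℕ) × ℕ => uR m z.1.1.1 :=
    (comp_uR hm).comp (Computable.fst.comp (Computable.fst.comp Computable.fst))
  have g2 : Computable fun z : ((ℕ × ℕ) × ℕ) × ℕ => 2 ^ z.1.2 :=
    comp_pow2 (Computable.snd.comp Computable.fst)
  have g3 : Computable fun z : ((ℕ × ℕ) × ℕ) × ℕ => 2 ^ (z.2 * 2 ^ z.1.2) :=
    comp_pow2 (comp_mul Computable.snd g2)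
  have g4 : Computable fun z : ((ℕ × ℕ) × ℕ) × ℕ => 2 ^ ((z.2 + 1) * 2 ^ z.1.2) :=
    comp_pow2 (comp_mul (Computable.succ.comp Computable.snd) g2)
  have g5 : Computable fun z : ((ℕ × ℕ) × ℕ) × ℕ => z.1.1.2 :=
    Computable.snd.comp (Computable.fst.comp Computable.fst)
  have g6 : Computable fun z : ((ℕ × ℕ) × ℕ) × ℕ =>
      DU A m (uR m z.1.1.1) (2 ^ (z.2 * 2 ^ z.1.2)) (2 ^ ((z.2 + 1) * 2 ^ z.1.2)) z.1.1.2 :=
    comp_DUc hA hm g1 g3 g4 g5
  have g7 : Computable₂ fun (z : (ℕ × ℕ) × ℕ) (i : ℕ) =>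
      DU A m (uR m z.1.1) (2 ^ (i * 2 ^ z.2)) (2 ^ ((i + 1) * 2 ^ z.2)) z.1.2 ^ 2 :=
    Computable₂.comp primrec_pow.to_comp g6 (Computable.const 2)
  have g8 : Computable fun z : (ℕ × ℕ) × ℕ => 2 ^ (z.1.1 - z.2) :=
    comp_pow2 (comp_sub (Computable.fst.comp Computable.fst) Computable.snd)
  have g9 : Computable₂ fun (z : ℕ × ℕ) (r : ℕ) => ∑ i ∈ range (2 ^ (z.1 - r)),
      DU A m (uR m z.1) (2 ^ (i * 2 ^ r)) (2 ^ ((i + 1) * 2 ^ r)) z.2 ^ 2 := comp_sum g7 g8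
  have g10 : Computable fun z : ℕ × ℕ => ∑ r ∈ range (z.1 + 1), ∑ i ∈ range (2 ^ (z.1 - r)),
      DU A m (uR m z.1) (2 ^ (i * 2 ^ r)) (2 ^ ((i + 1) * 2 ^ r)) z.2 ^ 2 :=
    comp_sum g9 (Computable.succ.comp Computable.fst)
  exact g10

lemma comp_TE (hA : Computable A) (hm : Computable m) : Computable₂ (TE A m) := by
  have h1 : Computable fun z : ℕ × ℕ => (z.1 + 1) ^ 4 :=
    Computable₂.comp primrec_pow.to_comp (Computable.succ.comp Computable.fst) (Computable.const 4)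
  have h2 : Computable fun z : ℕ × ℕ => 2 ^ (2 * uR m z.1) :=
    comp_pow2 (comp_mul (Computable.const 2) ((comp_uR hm).comp Computable.fst))
  have h3 : Computable fun z : ℕ × ℕ => 2 ^ z.1 * (z.1 + 1) ^ 4 * 2 ^ (2 * uR m z.1) :=
    comp_mul (comp_mul (comp_pow2 Computable.fst) h1) h2
  exact comp_lt h3 (comp_EU hA hm)

/-! ### values -/

lemma FU_mono (u x : ℕ) {a b : ℕ} (h : a ≤ b) : FU A m u a x ≤ FU A m u b x :=
  Finset.sum_le_sum_of_subset_of_nonneg (Finset.range_mono h) fun _ _ _ => Nat.zero_le _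

lemma GU_mono (u : ℕ) {a b : ℕ} (h : a ≤ b) : GU A m u a ≤ GU A m u b :=
  Finset.sum_le_sum_of_subset_of_nonneg (Finset.range_mono h) fun _ _ _ => Nat.zero_le _

lemma DU_eq (u x : ℕ) {a b : ℕ} (h : a ≤ b) : (DU A m u a b x : ℝ) = 2 ^ u *
    |((FU A m u b x : ℝ) - FU A m u a x) - ((GU A m u b : ℝ) - GU A m u a) / 2 ^ u| := by
  have hpos : (0 : ℝ) < 2 ^ u := by positivity
  have e1 : (2 : ℝ) ^ u * |((FU A m u b x : ℝ) - FU A m u a x) -
      ((GU A m u b : ℝ) - GU A m u a) / 2 ^ u| =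
      |((FU A m u b x : ℝ) - FU A m u a x) * 2 ^ u - ((GU A m u b : ℝ) - GU A m u a)| := by
    rw [← abs_of_pos hpos, ← abs_mul, abs_of_pos hpos]
    congr 1
    field_simp
  rw [e1]
  unfold DU
  have h1 := FU_mono (A := A) (m := m) u x h
  have h2 := GU_mono (A := A) (m := m) u h
  obtain ⟨P, hP⟩ : ∃ P, P = FU A m u b x - FU A m u a x := ⟨_, rfl⟩
  obtain ⟨Q, hQ⟩ : ∃ Q, Q = GU A m u b - GU A m u a := ⟨_, rfl⟩
  have h3 : (FU A m u b x : ℝ) - FU A m u a x = P := by rw [hP, Nat.cast_sub h1]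
  have h4 : (GU A m u b : ℝ) - GU A m u a = Q := by rw [hQ, Nat.cast_sub h2]
  rw [h3, h4, ← hP, ← hQ]
  rcases le_total Q (P * 2 ^ u) with h5 | h5
  · have h6 : (Q : ℝ) ≤ P * 2 ^ u := by exact_mod_cast h5
    rw [abs_of_nonneg (by linarith), Nat.sub_eq_zero_of_le h5, add_zero, Nat.cast_sub h5]
    push_cast
    ring
  · have h6 : (P * 2 ^ u : ℝ) ≤ Q := by exact_mod_cast h5
    rw [abs_of_nonpos (by linarith), Nat.sub_eq_zero_of_le h5, zero_add, Nat.cast_sub h5]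
    push_cast
    ring

lemma sum_prime (n : ℕ) (g : ℕ → ℝ) : ∑ q ∈ (range n).filter Nat.Prime, g q =
    ∑ q ∈ range n, ((decide q.Prime).toNat : ℝ) * g q := by
  rw [Finset.sum_filter]
  refine Finset.sum_congr rfl fun q _ => ?_
  by_cases h : q.Prime <;> simp [h]

lemma FU_dg {u n : ℕ} (hu : ∀ q < n, m q ≤ u) (t : ℝ) : (FU A m u n (dg u t) : ℝ) =
    ∑ q ∈ (range n).filter Nat.Prime, fq A m q t := by
  rw [sum_prime]
  unfold FU
  push_cast
  refine Finset.sum_congr rfl fun q hq => ?_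
  rw [dg_div (hu q (mem_range.1 hq))]
  unfold fq
  rw [fn_rb]
  by_cases h : q.Prime <;> simp [h]

lemma GU_eq {u n : ℕ} (hu : ∀ q < n, m q ≤ u) : (GU A m u n : ℝ) / 2 ^ u =
    ∑ q ∈ (range n).filter Nat.Prime, ∫ t, fq A m q t ∂U01 := by
  rw [sum_prime]
  unfold GU
  push_cast
  rw [Finset.sum_div]
  refine Finset.sum_congr rfl fun q hq => ?_
  rw [fq_int, mul_div_assoc]
  congr 1
  obtain ⟨d, hd⟩ := Nat.exists_eq_add_of_le (hu q (mem_range.1 hq))
  rw [hd, Nat.add_sub_cancel_left, pow_add]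
  field_simp

lemma Xb_eq {a b : ℕ} (h : a ≤ b) (t : ℝ) : Xb A m a b t =
    (∑ q ∈ (range b).filter Nat.Prime, fq A m q t - ∑ q ∈ (range a).filter Nat.Prime, fq A m q t) -
    (∑ q ∈ (range b).filter Nat.Prime, ∫ x, fq A m q x ∂U01 -
      ∑ q ∈ (range a).filter Nat.Prime, ∫ x, fq A m q x ∂U01) := by
  unfold Xb
  rw [Finset.sum_sub_distrib]
  simp only [Finset.sum_filter]
  rw [Finset.sum_Ico_eq_sub _ h, Finset.sum_Ico_eq_sub _ h]

lemma DU_dg {u a b : ℕ} (hab : a ≤ b) (hu : ∀ q < b, m q ≤ u) (t : ℝ) :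
    (DU A m u a b (dg u t) : ℝ) ^ 2 = 2 ^ (2 * u) * Xb A m a b t ^ 2 := by
  have hu' : ∀ q < a, m q ≤ u := fun q hq => hu q (by omega)
  have e : ((GU A m u b : ℝ) - GU A m u a) / 2 ^ u =
      (GU A m u b : ℝ) / 2 ^ u - (GU A m u a : ℝ) / 2 ^ u := sub_div _ _ _
  rw [DU_eq u _ hab, FU_dg hu, FU_dg hu', e, GU_eq hu, GU_eq hu', ← Xb_eq hab, mul_pow, sq_abs]
  congr 1
  rw [← pow_mul, mul_comm]

lemma block_le {R r i : ℕ} (hr : r ∈ range (R + 1)) (hi : i ∈ range (2 ^ (R - r))) :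
    (i + 1) * 2 ^ r ≤ 2 ^ R := by
  rw [mem_range] at hr hi
  calc (i + 1) * 2 ^ r ≤ 2 ^ (R - r) * 2 ^ r := Nat.mul_le_mul_right _ hi
    _ = 2 ^ R := by rw [← pow_add]; congr 1; omega

lemma uR_ge {R r i : ℕ} (hr : r ∈ range (R + 1)) (hi : i ∈ range (2 ^ (R - r))) :
    ∀ q < 2 ^ ((i + 1) * 2 ^ r), m q ≤ uR m R := fun q hq =>
  mle_uu (hq.trans_le (Nat.pow_le_pow_right (by norm_num) (block_le hr hi)))

lemma pow_block (r i : ℕ) : 2 ^ (i * 2 ^ r) ≤ 2 ^ ((i + 1) * 2 ^ r) :=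
  Nat.pow_le_pow_right (by norm_num) (Nat.mul_le_mul_right _ (Nat.le_succ i))

lemma EU_dg (R : ℕ) (t : ℝ) : (EU A m R (dg (uR m R) t) : ℝ) = 2 ^ (2 * uR m R) * EnT A m R t := by
  unfold EU EnT
  push_cast
  rw [Finset.mul_sum]
  refine Finset.sum_congr rfl fun r hr => ?_
  rw [Finset.mul_sum]
  refine Finset.sum_congr rfl fun i hi => ?_
  exact DU_dg (pow_block r i) (uR_ge hr hi) t

lemma TE_dg (R : ℕ) (t : ℝ) : TE A m R (dg (uR m R) t) = true ↔
    2 ^ R * ((R : ℝ) + 1) ^ 4 < EnT A m R t := by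
  unfold TE
  rw [decide_eq_true_eq]
  have h := EU_dg (A := A) (m := m) R t
  have hpos : (0 : ℝ) < 2 ^ (2 * uR m R) := by positivity
  constructor
  · intro h1
    have h2 : (2 : ℝ) ^ R * ((R : ℝ) + 1) ^ 4 * 2 ^ (2 * uR m R) <
        EU A m R (dg (uR m R) t) := by exact_mod_cast h1
    rw [h, mul_comm _ (EnT A m R t)] at h2
    exact lt_of_mul_lt_mul_right h2 hpos.le
  · intro h1
    have h2 := mul_lt_mul_of_pos_right h1 hpos
    rw [mul_comm (EnT A m R t), ← h] at h2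
    exact_mod_cast h2

/-! ### digit sequences -/

lemma FU_num (b : ℕ → Bool) {u n : ℕ} (hu : ∀ q < n, m q ≤ u) :
    FU A m u n (num b u) = Fb A m al b n := by
  unfold FU Fb RR
  rw [Finset.filter_filter, Finset.card_filter]
  refine Finset.sum_congr rfl fun q hq => ?_
  rw [num_div b (hu q (mem_range.1 hq))]
  unfold rb ok
  by_cases h1 : q.Prime
  · by_cases h2 : (roughPart q (A q + num b (m q))).Prime
    · simp [h1, h2]
    · simp [h1, h2]
  · simp [h1]

lemma RR_al (n : ℕ) : RR al n = (range n).filter Nat.Prime := by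
  unfold RR ok
  ext q
  simp

/-- the deviation of a digit sequence -/
noncomputable def dv (A m : ℕ → ℕ) (b : ℕ → Bool) (n : ℕ) : ℝ := Fb A m al b n - av A m al n

lemma DU_num (b : ℕ → Bool) {u a c : ℕ} (hac : a ≤ c) (hu : ∀ q < c, m q ≤ u) :
    (DU A m u a c (num b u) : ℝ) ^ 2 = 2 ^ (2 * u) * (dv A m b c - dv A m b a) ^ 2 := by
  have hu' : ∀ q < a, m q ≤ u := fun q hq => hu q (by omega)
  have e : ((GU A m u c : ℝ) - GU A m u a) / 2 ^ u =
      (GU A m u c : ℝ) / 2 ^ u - (GU A m u a : ℝ) / 2 ^ u := sub_div _ _ _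
  rw [DU_eq u _ hac, FU_num b hu, FU_num b hu', e, GU_eq hu, GU_eq hu', ← RR_al, ← RR_al,
    ← av_eq, ← av_eq, mul_pow, sq_abs]
  unfold dv
  congr 1
  · rw [← pow_mul, mul_comm]
  · ring

lemma dv_one (b : ℕ → Bool) : dv A m b 1 = 0 := by
  unfold dv
  rw [av_eq, RR_al]
  have e : (range 1).filter Nat.Prime = ∅ := by
    rw [Finset.range_one, Finset.filter_singleton, if_neg Nat.not_prime_zero]
  unfold Fb
  rw [RR_al, e]
  simp

theorem TE_num {b : ℕ → Bool} {R : ℕ} (h : ¬ TE A m R (num b (uR m R)) = true) {J : ℕ}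
    (hJ : J ≤ 2 ^ R) : dv A m b (2 ^ J) ^ 2 ≤ 2 ^ R * ((R : ℝ) + 1) ^ 5 := by
  unfold TE at h
  rw [decide_eq_true_eq, not_lt] at h
  have h1 : (EU A m R (num b (uR m R)) : ℝ) ≤
      2 ^ R * ((R : ℝ) + 1) ^ 4 * 2 ^ (2 * uR m R) := by exact_mod_cast h
  set Y : ℕ → ℝ := fun j => dv A m b (2 ^ (j + 1)) - dv A m b (2 ^ j) with hY
  have hsum : ∀ n, ∑ j ∈ range n, Y j = dv A m b (2 ^ n) := by
    intro n
    rw [Finset.sum_range_sub (fun j => dv A m b (2 ^ j)), pow_zero, dv_one, sub_zero]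
  have hEn : (EU A m R (num b (uR m R)) : ℝ) = 2 ^ (2 * uR m R) * En R Y := by
    rw [En_closed]
    unfold EU
    push_cast
    rw [Finset.mul_sum]
    refine Finset.sum_congr rfl fun r hr => ?_
    rw [Finset.mul_sum]
    refine Finset.sum_congr rfl fun i hi => ?_
    rw [DU_num b (pow_block r i) (uR_ge hr hi),
      Finset.sum_Ico_eq_sub _ (Nat.mul_le_mul_right _ (Nat.le_succ i)), hsum, hsum]
  have hpos : (0 : ℝ) < 2 ^ (2 * uR m R) := by positivity
  have h2 : En R Y ≤ 2 ^ R * ((R : ℝ) + 1) ^ 4 := by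
    rw [hEn, mul_comm _ ((2 : ℝ) ^ (2 * uR m R))] at h1
    exact le_of_mul_le_mul_left h1 hpos
  have h3 := sq_le_En R Y J hJ
  rw [hsum] at h3
  calc dv A m b (2 ^ J) ^ 2 ≤ ((R : ℝ) + 1) * En R Y := h3
    _ ≤ ((R : ℝ) + 1) * (2 ^ R * ((R : ℝ) + 1) ^ 4) :=
        mul_le_mul_of_nonneg_left h2 (by positivity)
    _ = _ := by ring

end

end Pool.Agent.Helper88.EL
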