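import Mathlib
import Pool.Agent.Helper88.EL.Stm
import Pool.Agent.Helper88.EL.AE
import Pool.Graph.R_seed8.W66.LU

set_option autoImplicit false

/-!
# The law for random digits: final form
-/

namespace Pool.Agent.Helper88.EL

open MeasureTheory Finset Filter Topology
open Pool.Agent.Y895.PM (U01 U01_univ fn)
open Pool.Agent.TH888.R (wt wt_nonneg wt_le_one VS VS_univ VS_univ_bound VS_univ_tendsto)

/-- the Mersenne numbers -/
lemma M_true (n : ℕ) : M (num fun _ => true) (fun _ => true) n =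
    ((range (n + 1)).filter (fun p => p.Prime ∧ (2 ^ p - 1).Prime)).card := by
  unfold M
  congr 1
  refine Finset.filter_congr fun p _ => ?_
  refine and_congr_right fun hp => ?_
  rw [num_true]
  have h : roughPart p (2 ^ p - 1) = 2 ^ p - 1 := Pool.Agent.W66L.rough_mersenne hp
  rw [h]
  simp

/-- **Plain digits.** -/
theorem plain_schnorr {b : ℕ → Bool} (hb : Schnorr b) {s : ℕ → Bool} (hs : Computable s)
    (hV : Tendsto (V s) atTop atTop) :
    Tendsto (fun n => (M (num b) s n : ℝ) / V s n) atTop (𝓝 cG) := by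
  obtain ⟨k, hk⟩ := hb.one
  exact (plain_test hk hs hV).schnorr hb rfl

/-- from `V` to the logarithm -/
lemma to_log {F : ℕ → ℝ} {G : ℝ}
    (h : Tendsto (fun n => F n / V (fun _ => true) n) atTop (𝓝 G)) :
    Tendsto (fun n : ℕ => F n / Real.log n) atTop (𝓝 G) := by
  have h1 := h.mul V_univ_log
  rw [mul_one] at h1
  refine h1.congr' ?_
  filter_upwards [V_univ_tendsto.eventually_gt_atTop 0] with n hn
  field_simp

lemma one_bound : ∃ δ : ℝ, 0 < δ ∧ δ < 1 ∧ ∀ A m : ℕ → ℕ, Lead A m →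
    (∀ᶠ p : ℕ in atTop, (1 - δ) * p ≤ m p) → ∀ s : ℕ → Bool, Computable s →
    ¬ Tendsto (V s) atTop atTop → ∀ b : ℕ → Bool, MartinLof b →
    {p : ℕ | p.Prime ∧ s p = true ∧ (roughPart p (A p + num b (m p))).Prime}.Finite := by
  obtain ⟨δ, hδ, hδ1, h1⟩ := dev_fam (1 / 2) (by norm_num) (by norm_num)
  refine ⟨δ, hδ, hδ1, fun A m h hbig s hs hV b hb => ?_⟩
  have h2 := (h1 A m h.fam hbig).1
  have hmono : Monotone (Vw s wt) := by
    intro a c hac
    unfold Vw RR
    exact Finset.sum_le_sum_of_subset_of_nonneg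
      (Finset.filter_subset_filter _ (Finset.range_mono hac)) fun _ _ _ => wt_nonneg _
  have h3 : ∃ L : ℝ, ∀ n, Vw s wt n ≤ L := by
    by_contra hcon
    push Not at hcon
    refine hV ?_
    have h4 : Tendsto (Vw s wt) atTop atTop :=
      tendsto_atTop_atTop_of_monotone hmono fun L => by
        obtain ⟨n, hn⟩ := hcon L
        exact ⟨n, hn.le⟩
    refine ((tendsto_add_atTop_iff_nat 1).2 h4).congr fun n => (V_eq s n).symm
  obtain ⟨L, hL⟩ := h3
  refine (ml_fin h.cA h.cm hs wt_nonneg h2 hL hb).subset fun p hp => ?_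
  rw [Set.mem_ofPred_eq] at hp ⊢
  unfold ok
  rw [Bool.and_eq_true, decide_eq_true_eq]
  exact ⟨⟨hp.2.1, hp.1⟩, hp.2.2⟩

/-- **Plain digits, the convergence part.** -/
theorem plain_fin {b : ℕ → Bool} (hb : MartinLof b) {s : ℕ → Bool} (hs : Computable s)
    (hV : ¬ Tendsto (V s) atTop atTop) :
    {p : ℕ | p.Prime ∧ s p = true ∧ (roughPart p (num b p)).Prime}.Finite := by
  obtain ⟨k, hk⟩ := hb.schnorr.one
  obtain ⟨δ, hδ, -, h⟩ := one_bound
  have h1 := h _ _ (lead_plain (k := k) hk) (big_plain k δ hδ) s hs hV _ (hb.tail k)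
  refine ((Set.finite_lt_nat k).union h1).subset fun p hp => ?_
  rcases lt_or_ge p k with h2 | h2
  · exact Or.inl h2
  · right
    rw [Set.mem_ofPred_eq] at hp ⊢
    rw [← plain_eq b h2]
    exact hp

/-- infinitely many -/
lemma inf_of_law {N : ℕ → ℕ} {s : ℕ → Bool} {G : ℝ} (hG : 0 < G)
    (hV : Tendsto (V s) atTop atTop)
    (h : Tendsto (fun n => (M N s n : ℝ) / V s n) atTop (𝓝 G)) :
    {p : ℕ | p.Prime ∧ s p = true ∧ (roughPart p (N p)).Prime}.Infinite := by
  intro hfin
  have h1 : ∀ n, (M N s n : ℝ) ≤ hfin.toFinset.card := fun n => by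
    unfold M
    refine Nat.cast_le.2 (Finset.card_le_card fun p hp => ?_)
    rw [mem_filter] at hp
    rw [Set.Finite.mem_toFinset]
    exact hp.2
  have h2 : Tendsto (fun n => (hfin.toFinset.card : ℝ) / V s n) atTop (𝓝 0) :=
    hV.const_div_atTop _
  have h3 : G ≤ 0 := le_of_tendsto_of_tendsto h h2 (by
    filter_upwards [hV.eventually_gt_atTop 0] with n hn
    exact div_le_div_of_nonneg_right (h1 n) hn.le)
  linarith

end Pool.Agent.Helper88.EL
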