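import Mathlib
import Pool.Agent.Helper88.EL.Err3
import Pool.Agent.Helper88.EL.Fin

set_option autoImplicit false

/-!
# The law with an error term, in the form of a test
-/

namespace Pool.Agent.Helper88.EL

open MeasureTheory Finset Filter Topology Asymptotics
open Pool.Agent.Y895.PM (U01 U01_univ fn)
open Pool.Agent.TH888.R (wt wt_nonneg wt_le_one VS VS_univ VS_univ_bound En sq_le_En pr2 sum_pr2
  inv_sum_le)

/-- the means at the powers of two -/
lemma av_pow {A m : ℕ → ℕ} (h : ∃ (K : ℝ) (P : ℕ), 0 ≤ K ∧ ∀ q ≥ P, q.Prime →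
      |∫ x, fq A m q x ∂U01 - cG * wt q| ≤ K * (1 / q)) :
    ∃ C : ℝ, 0 ≤ C ∧ ∀ j : ℕ, |av A m al (2 ^ j) - cG * (j * Real.log 2)| ≤
      C * Real.sqrt ((j : ℝ) + 1) := by
  obtain ⟨K, P, hK, hmean⟩ := h
  obtain ⟨C3, hC3, hinv⟩ := inv_sum_le
  obtain ⟨C, hC0, hC⟩ := WW_pow
  have hcG := cG_pos
  refine ⟨(P * (1 + cG) + K * C3 * Real.sqrt (1 + C) + cG * C), by positivity, fun j => ?_⟩
  set T := (range (2 ^ j)).filter Nat.Prime with hT
  have h1 : |av A m al (2 ^ j) - cG * WW (2 ^ j)| ≤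
      P * (1 + cG) + K * (C3 * Real.sqrt (WW (2 ^ j))) := by
    rw [av_eq, RR_al]
    unfold WW
    rw [← hT, Finset.mul_sum, ← Finset.sum_sub_distrib]
    calc |∑ q ∈ T, (∫ x, fq A m q x ∂U01 - cG * wt q)| ≤
          ∑ q ∈ T, |∫ x, fq A m q x ∂U01 - cG * wt q| := Finset.abs_sum_le_sum_abs _ _
      _ ≤ ∑ q ∈ T, ((if q < P then (1 + cG) else 0) + K * (1 / q)) := by
          refine Finset.sum_le_sum fun q hq => ?_
          rw [hT, mem_filter] at hq
          have h5 : 0 ≤ K * (1 / (q : ℝ)) := by positivity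
          by_cases h6 : q < P
          · rw [if_pos h6]
            have h7 := int_fq_bd (A := A) (m := m) q
            have h8 := wt_nonneg q
            have h9 := wt_le_one q
            have h10 : cG * wt q ≤ cG := by nlinarith
            have h11 : 0 ≤ cG * wt q := by positivity
            have h12 : |∫ x, fq A m q x ∂U01 - cG * wt q| ≤ 1 + cG := by
              rw [abs_le]
              constructor <;> linarith
            linarith
          · rw [if_neg h6, zero_add]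
            exact hmean q (by omega) hq.2
      _ = (T.filter (fun q => q < P)).card * (1 + cG) + K * ∑ q ∈ T, 1 / (q : ℝ) := by
          rw [Finset.sum_add_distrib, ← Finset.mul_sum, ← Finset.sum_filter, Finset.sum_const,
            nsmul_eq_mul]
      _ ≤ P * (1 + cG) + K * (C3 * Real.sqrt (∑ q ∈ T, wt q)) := by
          have h5 : ((T.filter (fun q => q < P)).card : ℝ) ≤ P := by
            have : (T.filter (fun q => q < P)).card ≤ (range P).card :=
              Finset.card_le_card fun q hq => by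
                rw [mem_filter] at hq
                exact mem_range.2 hq.2
            rw [card_range] at this
            exact_mod_cast this
          have h6 := hinv T fun q hq => by
            rw [hT, mem_filter] at hq
            exact hq.2
          have h7 := mul_le_mul_of_nonneg_right h5 (by positivity : 0 ≤ 1 + cG)
          have h8 := mul_le_mul_of_nonneg_left h6 hK
          linarith
  have h2 := hC j
  have hj0 : (0 : ℝ) ≤ j := Nat.cast_nonneg j
  have hl2 := Real.log_two_lt_d9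
  have hl2' := Real.log_two_gt_d9
  have h3 : WW (2 ^ j) ≤ (1 + C) * ((j : ℝ) + 1) := by
    have := (abs_le.1 h2).2
    nlinarith
  have h4 : Real.sqrt (WW (2 ^ j)) ≤ Real.sqrt (1 + C) * Real.sqrt ((j : ℝ) + 1) := by
    rw [← Real.sqrt_mul (by positivity)]
    exact Real.sqrt_le_sqrt h3
  have h5 : 1 ≤ Real.sqrt ((j : ℝ) + 1) := by
    rw [Real.one_le_sqrt]
    linarith
  set Sq := Real.sqrt ((j : ℝ) + 1) with hSq
  have h6 : |cG * WW (2 ^ j) - cG * (j * Real.log 2)| ≤ cG * C := by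
    rw [← mul_sub, abs_mul, abs_of_pos hcG]
    exact mul_le_mul_of_nonneg_left h2 hcG.le
  have h7 : |av A m al (2 ^ j) - cG * (j * Real.log 2)| ≤
      |av A m al (2 ^ j) - cG * WW (2 ^ j)| + |cG * WW (2 ^ j) - cG * (j * Real.log 2)| := by
    have := abs_add_le (av A m al (2 ^ j) - cG * WW (2 ^ j))
      (cG * WW (2 ^ j) - cG * (j * Real.log 2))
    simpa using this
  have h8 : K * (C3 * Real.sqrt (WW (2 ^ j))) ≤ K * C3 * Real.sqrt (1 + C) * Sq := by
    calc K * (C3 * Real.sqrt (WW (2 ^ j))) ≤ K * (C3 * (Real.sqrt (1 + C) * Sq)) := by gcongr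
      _ = _ := by ring
  have h9 : (P : ℝ) * (1 + cG) ≤ P * (1 + cG) * Sq :=
    le_mul_of_one_le_right (by positivity) h5
  have h10 : cG * C ≤ cG * C * Sq := le_mul_of_one_le_right (by positivity) h5
  calc _ ≤ P * (1 + cG) + K * (C3 * Real.sqrt (WW (2 ^ j))) + cG * C := by linarith
    _ ≤ P * (1 + cG) * Sq + K * C3 * Real.sqrt (1 + C) * Sq + cG * C * Sq := by linarith
    _ = _ := by ring

/-- from powers of two to all integers -/
lemma err_all {A m : ℕ → ℕ} {b : ℕ → Bool} {C : ℝ} {R0 : ℕ} (hC0 : 0 ≤ C)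
    (hav : ∀ j : ℕ, |av A m al (2 ^ j) - cG * (j * Real.log 2)| ≤ C * Real.sqrt ((j : ℝ) + 1))
    (hdv : ∀ R ≥ R0, ∀ J ≤ 2 ^ R, dv A m b (2 ^ J) ^ 2 ≤ 2 ^ R * ((R : ℝ) + 1) ^ 5) :
    (fun n : ℕ => (Fb A m al b (n + 1) : ℝ) - cG * Real.log n) =O[atTop] fun n : ℕ =>
      Real.sqrt (Real.log n) * (Real.log (Real.log n)) ^ ((5 : ℝ) / 2) := by
  have hlog : Tendsto (fun n : ℕ => Real.log n) atTop atTop :=
    Real.tendsto_log_atTop.comp tendsto_natCast_atTop_atTop
  have hll : Tendsto (fun n : ℕ => Real.log (Real.log n)) atTop atTop :=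
    Real.tendsto_log_atTop.comp hlog
  refine IsBigO.of_bound (200 + 2 * C + cG) ?_
  filter_upwards [hlog.eventually_ge_atTop 4, hll.eventually_ge_atTop 1,
    hlog.eventually_ge_atTop ((2 : ℝ) ^ R0), eventually_ge_atTop 1] with n h4 hL hR0 hn1
  set l := Real.log n with hl
  set L := Real.log l with hLd
  have hl2 := Real.log_two_lt_d9
  have hl2' := Real.log_two_gt_d9
  have hl20 : 0 < Real.log 2 := by linarith
  set J := Nat.log 2 n with hJ
  have hJ1 : 2 ^ J ≤ n := Nat.pow_log_le_self 2 (by omega)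
  have hJ2 : n + 1 ≤ 2 ^ (J + 1) := Nat.lt_pow_succ_log_self (by norm_num) n
  have hJl : J * Real.log 2 ≤ l := by
    rw [← Real.log_pow]
    refine Real.log_le_log (by positivity) ?_
    exact_mod_cast hJ1
  have hJu : l ≤ ((J : ℝ) + 1) * Real.log 2 := by
    have h1 : Real.log n ≤ Real.log (2 ^ (J + 1)) := by
      refine Real.log_le_log (by exact_mod_cast hn1) ?_
      have : n ≤ 2 ^ (J + 1) := by omega
      exact_mod_cast this
    rw [Real.log_pow] at h1
    push_cast at h1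
    exact h1
  have hJ3 : (J : ℝ) + 1 ≤ 2 * l := by nlinarith
  set R := Nat.log 2 (J + 1) + 1 with hR
  have hRJ : J + 1 ≤ 2 ^ R := (Nat.lt_pow_succ_log_self (by norm_num) (J + 1)).le
  have hRR0 : R0 ≤ R := by
    by_contra hcon
    have h1 : 2 ^ R ≤ 2 ^ R0 := Nat.pow_le_pow_right (by norm_num) (by omega)
    have h2 : J + 1 ≤ 2 ^ R0 := hRJ.trans h1
    have h3 : ((J : ℝ) + 1) ≤ 2 ^ R0 := by exact_mod_cast h2
    have h5 : 0 < (J : ℝ) + 1 := by positivity
    nlinarith
  have hR2 : 2 ^ (R - 1) ≤ J + 1 := by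
    have : R - 1 = Nat.log 2 (J + 1) := by omega
    rw [this]
    exact Nat.pow_log_le_self 2 (by omega)
  have hR3 : (2 : ℝ) ^ R ≤ 4 * l := by
    have e : 2 ^ R = 2 * 2 ^ (R - 1) := by
      rw [← pow_succ']
      congr 1
    have h1 : 2 ^ R ≤ 2 * (J + 1) := by omega
    have h2 : (2 : ℝ) ^ R ≤ 2 * ((J : ℝ) + 1) := by exact_mod_cast h1
    linarith
  have hR4 : (R : ℝ) + 1 ≤ 5 * L := by
    have h1 : R * Real.log 2 ≤ Real.log (4 * l) := by
      rw [← Real.log_pow]
      exact Real.log_le_log (by positivity) hR3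
    rw [Real.log_mul (by norm_num) (by linarith)] at h1
    have h2 : Real.log 4 = 2 * Real.log 2 := by
      rw [show (4 : ℝ) = 2 ^ 2 by norm_num, Real.log_pow]
      norm_num
    rw [h2] at h1
    have h3 : ((R : ℝ) - 2) * Real.log 2 ≤ L := by linarith
    by_contra hcon
    push Not at hcon
    nlinarith
  have hLr : (L ^ ((5 : ℝ) / 2)) ^ 2 = L ^ 5 := by
    rw [← Real.rpow_natCast, ← Real.rpow_mul (by linarith), ← Real.rpow_natCast]
    norm_num
  have hLr1 : 1 ≤ L ^ ((5 : ℝ) / 2) := Real.one_le_rpow hL (by norm_num)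
  have hsl : 2 ≤ Real.sqrt l := by
    rw [Real.le_sqrt (by norm_num) (by linarith)]
    linarith
  set Rt := Real.sqrt l * L ^ ((5 : ℝ) / 2) with hRt
  have hRt0 : Real.sqrt l ≤ Rt := le_mul_of_one_le_right (Real.sqrt_nonneg _) hLr1
  have hRt2 : Rt ^ 2 = l * L ^ 5 := by
    rw [hRt, mul_pow, hLr, Real.sq_sqrt (by linarith)]
  have hdev : ∀ j ≤ 2 ^ R, |dv A m b (2 ^ j)| ≤ 112 * Rt := by
    intro j hj
    refine abs_le_of_sq_le_sq ?_ (by linarith)
    refine (hdv R hRR0 j hj).trans ?_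
    have h1 : ((R : ℝ) + 1) ^ 5 ≤ (5 * L) ^ 5 := pow_le_pow_left₀ (by positivity) hR4 5
    calc 2 ^ R * ((R : ℝ) + 1) ^ 5 ≤ (4 * l) * (5 * L) ^ 5 :=
          mul_le_mul hR3 h1 (by positivity) (by linarith)
      _ = 12500 * (l * L ^ 5) := by ring
      _ ≤ 12544 * (l * L ^ 5) := by
          have : 0 ≤ l * L ^ 5 := by positivity
          linarith
      _ = (112 * Rt) ^ 2 := by rw [mul_pow, hRt2]; norm_num
  have hd1 := abs_le.1 (hdev J (by omega))
  have hd2 := abs_le.1 (hdev (J + 1) hRJ)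
  have ha1 := abs_le.1 (hav J)
  have ha2 := abs_le.1 (hav (J + 1))
  have hsq1 : Real.sqrt ((J : ℝ) + 1) ≤ 2 * Real.sqrt l := by
    rw [Real.sqrt_le_left (by positivity), mul_pow, Real.sq_sqrt (by linarith)]
    linarith
  have hsq2 : Real.sqrt (((J + 1 : ℕ) : ℝ) + 1) ≤ 2 * Real.sqrt l := by
    rw [Real.sqrt_le_left (by positivity), mul_pow, Real.sq_sqrt (by linarith)]
    push_cast
    linarith
  have hCs1 : C * Real.sqrt ((J : ℝ) + 1) ≤ 2 * C * Rt := by
    calc C * Real.sqrt ((J : ℝ) + 1) ≤ C * (2 * Real.sqrt l) := by gcongr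
      _ = 2 * C * Real.sqrt l := by ring
      _ ≤ 2 * C * Rt := mul_le_mul_of_nonneg_left hRt0 (by positivity)
  have hCs2 : C * Real.sqrt (((J + 1 : ℕ) : ℝ) + 1) ≤ 2 * C * Rt := by
    calc C * Real.sqrt (((J + 1 : ℕ) : ℝ) + 1) ≤ C * (2 * Real.sqrt l) := by gcongr
      _ = 2 * C * Real.sqrt l := by ring
      _ ≤ 2 * C * Rt := mul_le_mul_of_nonneg_left hRt0 (by positivity)
  have hm1 : (Fb A m al b (2 ^ J) : ℝ) ≤ Fb A m al b (n + 1) := by
    exact_mod_cast Fb_mono b (by omega : 2 ^ J ≤ n + 1)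
  have hm2 : (Fb A m al b (n + 1) : ℝ) ≤ Fb A m al b (2 ^ (J + 1)) := by
    exact_mod_cast Fb_mono b hJ2
  unfold dv at hd1 hd2
  have hcG := cG_pos
  have hg1 : cG * (J * Real.log 2) ≤ cG * l := mul_le_mul_of_nonneg_left hJl hcG.le
  have hg2 : cG * l ≤ cG * (J * Real.log 2) + cG := by
    have h1 : cG * l ≤ cG * (((J : ℝ) + 1) * Real.log 2) := mul_le_mul_of_nonneg_left hJu hcG.le
    nlinarith
  have hcR : cG ≤ cG * Rt := le_mul_of_one_le_right hcG.le (by linarith)
  have ha2' : av A m al (2 ^ (J + 1)) - cG * (((J : ℝ) + 1) * Real.log 2) ≤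
      C * Real.sqrt (((J + 1 : ℕ) : ℝ) + 1) := by
    have := ha2.2
    push_cast at this ⊢
    exact this
  have hg3 : cG * (((J : ℝ) + 1) * Real.log 2) ≤ cG * (J * Real.log 2) + cG := by nlinarith
  rw [Real.norm_eq_abs, Real.norm_of_nonneg (by positivity), abs_le]
  have hRt1 : 0 ≤ Rt := by linarith
  constructor
  · nlinarith [hd1.1, ha1.1]
  · nlinarith [hd2.2]

/-- **The law with an error term, in the form of a test.** -/
theorem err_test : ∃ κ : ℝ, 0 < κ ∧ ∀ A m : ℕ → ℕ, Lead A m → Big κ m →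
    Testable (fun b => (fun n : ℕ => (M (fun p => A p + num b (m p)) al n : ℝ) -
      cG * Real.log n) =O[atTop] fun n : ℕ =>
        Real.sqrt (Real.log n) * (Real.log (Real.log n)) ^ ((5 : ℝ) / 2)) := by
  obtain ⟨κ, hκ, h⟩ := fam_err
  refine ⟨κ, hκ, fun A m hL hbig => ?_⟩
  obtain ⟨⟨C, hC0, hvar⟩, hmean⟩ := h A m hL.fam hbig
  obtain ⟨K, hK⟩ := EnT_meas hC0 hvar
  obtain ⟨C', hC', hav⟩ := av_pow hmean
  obtain ⟨v, D, hT, hb⟩ := solovay (u := uR m) (E := TE A m) (K := K) (k0 := 0) (comp_uR hL.cm)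
    (comp_TE hL.cA hL.cm) (fun R _ => by
      have e : tset (uR m) (TE A m) R = {t | 2 ^ R * ((R : ℝ) + 1) ^ 4 < EnT A m R t} := by
        ext t
        exact TE_dg R t
      rw [e]
      exact hK R)
  refine ⟨v, D, hT, fun b hf => ?_⟩
  obtain ⟨R0, hR0⟩ := (hb b hf).bddAbove
  have h1 : ∀ R ≥ R0 + 1, ∀ J ≤ 2 ^ R, dv A m b (2 ^ J) ^ 2 ≤ 2 ^ R * ((R : ℝ) + 1) ^ 5 := by
    intro R hR J hJ
    refine TE_num (fun hcon => ?_) hJ
    have := hR0 hcon
    omega
  simp only [M_eq]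
  exact err_all hC' hav h1

end Pool.Agent.Helper88.EL
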