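import Mathlib
import Pool.Agent.Helper88.EL.Testable
import Pool.Agent.Helper88.EL.Law2

set_option autoImplicit false

/-!
# The law for a computable sequence of families and sets, in the form of one test
-/

namespace Pool.Agent.Helper88.EL

open MeasureTheory Finset Filter Topology
open Pool.Agent.Y895.PM (U01 U01_univ fn)

section comput

variable {α : Type*} [Primcodable α]

lemma comp_findα {P : α → ℕ → Bool} (hP : Computable₂ P) (h : ∀ k, ∃ n, P k n = true) :
    Computable fun k => Nat.find (h k) := by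
  refine (Partrec.rfind hP.partrec₂).of_eq fun k => ?_
  show Nat.rfind (fun n => Part.some (P k n)) = Part.some (Nat.find (h k))
  rw [Part.eq_some_iff, Nat.mem_rfind]
  refine ⟨?_, fun {j} hj => ?_⟩
  · have := Nat.find_spec (h k)
    show true ∈ Part.some (P k (Nat.find (h k)))
    rw [this]
    exact Part.mem_some _
  · have := Nat.find_min (h k) hj
    rw [Bool.not_eq_true] at this
    show false ∈ Part.some (P k j)
    rw [this]
    exact Part.mem_some _

variable {A m : α → ℕ → ℕ} {s : α → ℕ → Bool}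

lemma comp_uuα (hm : Computable₂ m) {n : α → ℕ} (hn : Computable n) :
    Computable fun a => uu (m a) (n a) := comp_sum hm hn

lemma comp_okα (hs : Computable₂ s) : Computable₂ fun a q => ok (s a) q :=
  comp_and hs (primrec_prime.decide.to_comp.comp Computable.snd)

lemma comp_FFα (hA : Computable₂ A) (hm : Computable₂ m) (hs : Computable₂ s) {n x : α → ℕ}
    (hn : Computable n) (hx : Computable x) : Computable fun a => FF (A a) (m a) (s a) (n a) (x a) := by
  have g1 : Computable fun z : α × ℕ => uu (m z.1) (n z.1) := (comp_uuα hm hn).comp Computable.fst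
  have g2 : Computable fun z : α × ℕ => m z.1 z.2 := hm
  have g3 : Computable fun z : α × ℕ => A z.1 z.2 := hA
  have g4 : Computable fun z : α × ℕ => A z.1 z.2 + x z.1 / 2 ^ (uu (m z.1) (n z.1) - m z.1 z.2) :=
    comp_add g3 (comp_div (hx.comp Computable.fst) (comp_pow2 (comp_sub g1 g2)))
  have g5 : Computable fun z : α × ℕ =>
      rb z.2 (A z.1 z.2 + x z.1 / 2 ^ (uu (m z.1) (n z.1) - m z.1 z.2)) :=
    Computable₂.comp comp_rb Computable.snd g4
  have g6 : Computable fun z : α × ℕ => ok (s z.1) z.2 := comp_okα hs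
  have g7 : Computable₂ fun (a : α) (q : ℕ) =>
      (ok (s a) q && rb q (A a q + x a / 2 ^ (uu (m a) (n a) - m a q))).toNat :=
    comp_toNat (comp_and g6 g5)
  exact comp_sum g7 hn

lemma comp_ccα (hA : Computable₂ A) (hm : Computable₂ m) : Computable₂ fun a q => cc (A a) (m a) q := by
  have g1 : Computable fun z : (α × ℕ) × ℕ => A z.1.1 z.1.2 + z.2 :=
    comp_add (Computable.comp hA Computable.fst) Computable.snd
  have g2 : Computable fun z : (α × ℕ) × ℕ => rb z.1.2 (A z.1.1 z.1.2 + z.2) :=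
    Computable₂.comp comp_rb (Computable.snd.comp Computable.fst) g1
  have g3 : Computable₂ fun (z : α × ℕ) (D : ℕ) => (rb z.2 (A z.1 z.2 + D)).toNat :=
    comp_toNat g2
  have g4 : Computable fun z : α × ℕ => 2 ^ m z.1 z.2 := comp_pow2 hm
  exact comp_sum g3 g4

lemma comp_GGα (hA : Computable₂ A) (hm : Computable₂ m) (hs : Computable₂ s) {n : α → ℕ}
    (hn : Computable n) : Computable fun a => GG (A a) (m a) (s a) (n a) := by
  have g1 : Computable fun z : α × ℕ => uu (m z.1) (n z.1) := (comp_uuα hm hn).comp Computable.fst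
  have g2 : Computable fun z : α × ℕ => m z.1 z.2 := hm
  have g6 : Computable fun z : α × ℕ => ok (s z.1) z.2 := comp_okα hs
  have g8 : Computable fun z : α × ℕ => cc (A z.1) (m z.1) z.2 := comp_ccα hA hm
  have g7 : Computable₂ fun (a : α) (q : ℕ) =>
      (ok (s a) q).toNat * (2 ^ (uu (m a) (n a) - m a q) * cc (A a) (m a) q) :=
    comp_mul (comp_toNat g6) (comp_mul (comp_pow2 (comp_sub g1 g2)) g8)
  exact comp_sum g7 hn

lemma comp_ddα (hA : Computable₂ A) (hm : Computable₂ m) (hs : Computable₂ s) {n x : α → ℕ}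
    (hn : Computable n) (hx : Computable x) : Computable fun a => dd (A a) (m a) (s a) (n a) (x a) := by
  have h1 : Computable fun a => FF (A a) (m a) (s a) (n a) (x a) * 2 ^ uu (m a) (n a) :=
    comp_mul (comp_FFα hA hm hs hn hx) (comp_pow2 (comp_uuα hm hn))
  have h2 : Computable fun a => GG (A a) (m a) (s a) (n a) := comp_GGα hA hm hs hn
  exact comp_add (comp_sub h1 h2) (comp_sub h2 h1)

/-- composition of a family with a function -/
lemma comp_sub₂ {β γ : Type*} [Primcodable β] [Primcodable γ] {f : α → ℕ → γ} (hf : Computable₂ f)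
    {g : β → α} (hg : Computable g) : Computable₂ fun b n => f (g b) n :=
  Computable₂.comp hf (hg.comp Computable.fst) Computable.snd

lemma comp_cndα (hA : Computable₂ A) (hm : Computable₂ m) (hs : Computable₂ s) {N : α → ℕ → ℕ}
    {k r : α → ℕ} (hN : Computable fun a => N a (k a)) (hk : Computable k) (hr : Computable r) :
    Computable fun a => cnd (A a) (m a) (s a) (N a) (k a) (r a) := by
  have hA' : Computable₂ fun (z : α × ℕ) n => A z.1 n := comp_sub₂ hA Computable.fst
  have hm' : Computable₂ fun (z : α × ℕ) n => m z.1 n := comp_sub₂ hm Computable.fst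
  have hs' : Computable₂ fun (z : α × ℕ) n => s z.1 n := comp_sub₂ hs Computable.fst
  have hN' : Computable fun z : α × ℕ => N z.1 (k z.1) := hN.comp Computable.fst
  have g1 : Computable fun z : α × ℕ => GG (A z.1) (m z.1) (s z.1) (N z.1 (k z.1)) :=
    comp_GGα hA' hm' hs' hN'
  have g2 : Computable fun z : α × ℕ => dd (A z.1) (m z.1) (s z.1) (N z.1 (k z.1)) z.2 :=
    comp_ddα hA' hm' hs' hN' Computable.snd
  have g3 : Computable₂ fun (a : α) (x : ℕ) =>
      decide (GG (A a) (m a) (s a) (N a (k a)) < r a * dd (A a) (m a) (s a) (N a (k a)) x) :=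
    comp_lt g1 (comp_mul (hr.comp Computable.fst) g2)
  have g4 : Computable fun a => uu (m a) (N a (k a)) := comp_uuα hm hN
  have g5 : Computable fun a => (k a + 1) ^ 3 :=
    Computable₂.comp primrec_pow.to_comp (Computable.succ.comp hk) (Computable.const 3)
  exact comp_le (comp_mul g5 (comp_ct g4 g3)) (comp_pow2 g4)

lemma comp_rkα (hA : Computable₂ A) (hm : Computable₂ m) (hs : Computable₂ s) {N : α → ℕ → ℕ}
    {k : α → ℕ} (hN : Computable fun a => N a (k a)) (hk : Computable k) :
    Computable fun a => rk (A a) (m a) (s a) (N a) (k a) := by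
  have hA' : Computable₂ fun (z : α × ℕ) n => A z.1 n := comp_sub₂ hA Computable.fst
  have hm' : Computable₂ fun (z : α × ℕ) n => m z.1 n := comp_sub₂ hm Computable.fst
  have hs' : Computable₂ fun (z : α × ℕ) n => s z.1 n := comp_sub₂ hs Computable.fst
  have g1 : Computable fun z : α × ℕ => cnd (A z.1) (m z.1) (s z.1) (N z.1) (k z.1) (z.2 + 1) :=
    comp_cndα (N := fun z => N z.1) (k := fun z => k z.1) (r := fun z => z.2 + 1) hA' hm' hs'
      (hN.comp Computable.fst) (hk.comp Computable.fst) (Computable.succ.comp Computable.snd)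
  have g2 : Computable₂ fun (a : α) (r : ℕ) =>
      (cnd (A a) (m a) (s a) (N a) (k a) (r + 1)).toNat := comp_toNat g1
  exact comp_sum g2 hk

lemma comp_EEα (hA : Computable₂ A) (hm : Computable₂ m) (hs : Computable₂ s) {N : α → ℕ → ℕ}
    {k x : α → ℕ} (hN : Computable fun a => N a (k a)) (hk : Computable k) (hx : Computable x) :
    Computable fun a => EE (A a) (m a) (s a) (N a) (k a) (x a) :=
  comp_lt (comp_GGα hA hm hs hN) (comp_mul (comp_rkα hA hm hs hN hk) (comp_ddα hA hm hs hN hx))

end comput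

section

variable {A m : ℕ → ℕ → ℕ} {s : ℕ → ℕ → Bool} {w : ℕ → ℝ} {G : ℝ}

/-- the counting times -/
lemma exists_timesU (hA : Computable₂ A) (hm : Computable₂ m) (hs : Computable₂ s)
    (hinf : ∀ i, Tendsto (av (A i) (m i) (s i)) atTop atTop) :
    ∃ N : ℕ → ℕ → ℕ, Computable₂ N ∧ ∀ i, (∀ k : ℕ, (k : ℝ) ^ 4 ≤ av (A i) (m i) (s i) (N i k)) ∧
      (∀ k n : ℕ, n < N i k → av (A i) (m i) (s i) n < (k : ℝ) ^ 4) := by
  have hP : Computable₂ (fun (z : ℕ × ℕ) (n : ℕ) =>
      decide (z.2 ^ 4 * 2 ^ uu (m z.1) n ≤ GG (A z.1) (m z.1) (s z.1) n)) := by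
    have hA' : Computable₂ fun (z : (ℕ × ℕ) × ℕ) n => A z.1.1 n :=
      comp_sub₂ hA (Computable.fst.comp Computable.fst)
    have hm' : Computable₂ fun (z : (ℕ × ℕ) × ℕ) n => m z.1.1 n :=
      comp_sub₂ hm (Computable.fst.comp Computable.fst)
    have hs' : Computable₂ fun (z : (ℕ × ℕ) × ℕ) n => s z.1.1 n :=
      comp_sub₂ hs (Computable.fst.comp Computable.fst)
    have h1 : Computable fun z : (ℕ × ℕ) × ℕ => z.1.2 ^ 4 :=
      Computable₂.comp primrec_pow.to_comp (Computable.snd.comp Computable.fst) (Computable.const 4)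
    have h2 : Computable fun z : (ℕ × ℕ) × ℕ => uu (m z.1.1) z.2 := comp_uuα hm' Computable.snd
    have h3 : Computable fun z : (ℕ × ℕ) × ℕ => GG (A z.1.1) (m z.1.1) (s z.1.1) z.2 :=
      comp_GGα hA' hm' hs' Computable.snd
    exact comp_le (comp_mul h1 (comp_pow2 h2)) h3
  have hiff : ∀ (z : ℕ × ℕ) n, decide (z.2 ^ 4 * 2 ^ uu (m z.1) n ≤
      GG (A z.1) (m z.1) (s z.1) n) = true ↔ (z.2 : ℝ) ^ 4 ≤ av (A z.1) (m z.1) (s z.1) n := by
    intro z n
    have hpos : (0 : ℝ) < 2 ^ uu (m z.1) n := by positivity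
    unfold av
    rw [decide_eq_true_eq, le_div_iff₀ hpos]
    exact_mod_cast Iff.rfl
  have hex : ∀ z : ℕ × ℕ, ∃ n, decide (z.2 ^ 4 * 2 ^ uu (m z.1) n ≤
      GG (A z.1) (m z.1) (s z.1) n) = true := by
    intro z
    obtain ⟨n, hn⟩ := ((hinf z.1).eventually_ge_atTop ((z.2 : ℝ) ^ 4)).exists
    exact ⟨n, (hiff z n).2 hn⟩
  refine ⟨fun i k => Nat.find (hex (i, k)), comp_findα hP hex, fun i => ⟨fun k =>
    (hiff (i, k) _).1 (Nat.find_spec (hex (i, k))), fun k n hn => ?_⟩⟩
  have h1 := Nat.find_min (hex (i, k)) hn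
  rw [hiff] at h1
  exact not_le.1 h1

end

end Pool.Agent.Helper88.EL
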