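import Mathlib
import Pool.Agent.Helper88.EL.Uni

set_option autoImplicit false

/-!
# The law for a computable sequence of families and sets, in the form of one test (2)
-/

namespace Pool.Agent.Helper88.EL

open MeasureTheory Finset Filter Topology
open Pool.Agent.Y895.PM (U01 U01_univ fn)

section

variable {A m : ℕ → ℕ} {s : ℕ → Bool} {w : ℕ → ℝ} {G : ℝ}

lemma EE_meas3 (N : ℕ → ℕ) (k : ℕ) :
    ((k : ℝ) + 1) ^ 3 * U01.real (tset (fun k => uu m (N k)) (EE A m s N) k) ≤ 1 := by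
  have e : tset (fun k => uu m (N k)) (EE A m s N) k = bad A m s (N k) (rk A m s N k) := rfl
  rw [e]
  by_cases h : rk A m s N k = 0
  · rw [h]
    have : bad A m s (N k) 0 = ∅ := by
      ext t
      unfold bad
      simp
    rw [this, measureReal_empty, mul_zero]
    norm_num
  · exact (cnd_iff N k _).1 (rk_spec N k h)

/-- sequences which pass the test satisfy the law -/
theorem law_of_pass {N : ℕ → ℕ} (hN1 : ∀ k : ℕ, (k : ℝ) ^ 4 ≤ av A m s (N k))
    (hN2 : ∀ k n : ℕ, n < N k → av A m s n < (k : ℝ) ^ 4)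
    (h : Dev A m s w G) (hG : 0 < G) (hV : Tendsto (Vw s w) atTop atTop) {b : ℕ → Bool} {k0 : ℕ}
    (hE : ∀ k, k0 < k →
      rk A m s N k * |(Fb A m s b (N k) : ℝ) - av A m s (N k)| ≤ av A m s (N k)) :
    Tendsto (fun n => (Fb A m s b n : ℝ) / Vw s w n) atTop (𝓝 G) := by
  -- the precision tends to infinity
  have hrk : ∀ r : ℕ, 1 ≤ r → ∀ᶠ k in atTop, r ≤ rk A m s N k := by
    intro r hr
    filter_upwards [cnd_ev hr (h _ (one_sixteenth hr).1 (one_sixteenth hr).2) hG hV hN1,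
      eventually_ge_atTop r] with k h1 h2
    exact rk_ge N h2 h1
  have hratio : ∀ r : ℕ, 2 ≤ r → ∀ᶠ n in atTop,
      (1 - 2 / (r : ℝ)) * av A m s n ≤ Fb A m s b n ∧
        (Fb A m s b n : ℝ) ≤ (1 + 3 / (r : ℝ)) * av A m s n := by
    intro r hr
    refine ratio_all hN1 hN2 hr ?_
    filter_upwards [hrk r (by omega), eventually_gt_atTop k0] with k h1 h2
    have h3 : (r : ℝ) ≤ rk A m s N k := by exact_mod_cast h1
    exact (mul_le_mul_of_nonneg_right h3 (abs_nonneg _)).trans (hE k h2)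
  -- conclusion
  rw [Metric.tendsto_atTop']
  intro η hη
  -- choose `ε` and `r`
  obtain ⟨r, hr⟩ := exists_nat_gt (max 2 (6 * (G + 1) / η))
  have hr2 : (2 : ℝ) < r := lt_of_le_of_lt (le_max_left _ _) hr
  have hr3 : 6 * (G + 1) / η < r := lt_of_le_of_lt (le_max_right _ _) hr
  have hrp : (0 : ℝ) < r := by linarith
  have hr2' : 2 ≤ r := by exact_mod_cast hr2.le
  have h1 := dev_av h hG hV (min (η / 4) 1) (by positivity)
  obtain ⟨n0, hn0⟩ := eventually_atTop.1 ((hratio r hr2').and (h1.and (hV.eventually_gt_atTop 0)))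
  refine ⟨n0, fun n hn => ?_⟩
  obtain ⟨⟨g1, g2⟩, g3, g4⟩ := hn0 n hn.le
  rw [Real.dist_eq]
  set V := Vw s w n with hVdef
  have e : (Fb A m s b n : ℝ) / V - G = (Fb A m s b n - G * V) / V := by field_simp
  rw [e, abs_div, abs_of_pos g4, div_lt_iff₀ g4]
  have g5 := abs_le.1 g3
  have g6 : min (η / 4) 1 * V ≤ η / 4 * V := mul_le_mul_of_nonneg_right (min_le_left _ _) g4.le
  have g7 : min (η / 4) 1 * V ≤ 1 * V := mul_le_mul_of_nonneg_right (min_le_right _ _) g4.le
  have g8 : av A m s n ≤ (G + 1) * V := by nlinarith [g5.2]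
  have g9 : 0 ≤ av A m s n := by
    rw [← av_zero (A := A) (m := m) (s := s)]
    exact av_mono (Nat.zero_le n)
  have g10 : 3 / (r : ℝ) * av A m s n ≤ η / 2 * V := by
    have h3 : 3 / (r : ℝ) * (G + 1) ≤ η / 2 := by
      rw [div_mul_eq_mul_div, div_le_iff₀ hrp]
      rw [div_lt_iff₀ hη] at hr3
      linarith
    calc 3 / (r : ℝ) * av A m s n ≤ 3 / (r : ℝ) * ((G + 1) * V) :=
          mul_le_mul_of_nonneg_left g8 (by positivity)
      _ = (3 / (r : ℝ) * (G + 1)) * V := by ring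
      _ ≤ _ := mul_le_mul_of_nonneg_right h3 g4.le
  have g11 : 2 / (r : ℝ) * av A m s n ≤ 3 / (r : ℝ) * av A m s n := by
    refine mul_le_mul_of_nonneg_right ?_ g9
    exact div_le_div_of_nonneg_right (by norm_num) hrp.le
  have g12 : 0 < η * V := by positivity
  rw [abs_lt]
  constructor
  · nlinarith [g5.1]
  · nlinarith [g5.2]

end

section

variable {A m : ℕ → ℕ → ℕ} {s : ℕ → ℕ → Bool} {w : ℕ → ℝ} {G : ℝ}

/-- **One test for a computable sequence of families and sets.** -/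
theorem law_testU (hA : Computable₂ A) (hm : Computable₂ m) (hs : Computable₂ s)
    (h : ∀ i, Dev (A i) (m i) (s i) w G) (hG : 0 < G)
    (hV : ∀ i, Tendsto (Vw (s i) w) atTop atTop) :
    Testable (fun b => ∀ i, Tendsto (fun n => (Fb (A i) (m i) (s i) b n : ℝ) / Vw (s i) w n) atTop
      (𝓝 G)) := by
  obtain ⟨N, hN, hN12⟩ := exists_timesU hA hm hs (fun i => dev_av_tendsto (h i) hG (hV i))
  set u' : ℕ → ℕ := fun k => ∑ i ∈ range (k + 1), uu (m i) (N i k) with hu'
  have hu'ge : ∀ k i, i < k + 1 → uu (m i) (N i k) ≤ u' k := fun k i hi =>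
    Finset.single_le_sum (f := fun i => uu (m i) (N i k)) (fun _ _ => Nat.zero_le _)
      (mem_range.2 hi)
  set E' : ℕ → ℕ → Bool := fun k x => decide (∃ i < k + 1,
    EE (A i) (m i) (s i) (N i) k (x / 2 ^ (u' k - uu (m i) (N i k))) = true) with hE'
  have hcu : Computable u' := by
    have hm' : Computable₂ fun (z : ℕ × ℕ) n => m z.2 n := comp_sub₂ hm Computable.snd
    have g1 : Computable fun z : ℕ × ℕ => N z.2 z.1 :=
      Computable₂.comp hN Computable.snd Computable.fst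
    have g2 : Computable fun z : ℕ × ℕ => uu (m z.2) (N z.2 z.1) := comp_uuα hm' g1
    have g3 : Computable₂ fun (k i : ℕ) => uu (m i) (N i k) := g2
    exact comp_sum g3 Computable.succ
  have hcE : Computable₂ E' := by
    have hA' : Computable₂ fun (z : (ℕ × ℕ) × ℕ) n => A z.2 n := comp_sub₂ hA Computable.snd
    have hm' : Computable₂ fun (z : (ℕ × ℕ) × ℕ) n => m z.2 n := comp_sub₂ hm Computable.snd
    have hs' : Computable₂ fun (z : (ℕ × ℕ) × ℕ) n => s z.2 n := comp_sub₂ hs Computable.snd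
    have g0 : Computable fun z : (ℕ × ℕ) × ℕ => z.1.1 := Computable.fst.comp Computable.fst
    have g1 : Computable fun z : (ℕ × ℕ) × ℕ => N z.2 z.1.1 :=
      Computable₂.comp hN Computable.snd g0
    have g2 : Computable fun z : (ℕ × ℕ) × ℕ => uu (m z.2) (N z.2 z.1.1) := comp_uuα hm' g1
    have g3 : Computable fun z : (ℕ × ℕ) × ℕ => z.1.2 / 2 ^ (u' z.1.1 - uu (m z.2) (N z.2 z.1.1)) :=
      comp_div (Computable.snd.comp Computable.fst) (comp_pow2 (comp_sub (hcu.comp g0) g2))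
    have g4 : Computable fun z : (ℕ × ℕ) × ℕ => EE (A z.2) (m z.2) (s z.2) (N z.2) z.1.1
        (z.1.2 / 2 ^ (u' z.1.1 - uu (m z.2) (N z.2 z.1.1))) :=
      comp_EEα (N := fun z : (ℕ × ℕ) × ℕ => N z.2) hA' hm' hs' g1 g0 g3
    have g5 : Computable₂ fun (z : ℕ × ℕ) (i : ℕ) => EE (A i) (m i) (s i) (N i) z.1
        (z.2 / 2 ^ (u' z.1 - uu (m i) (N i z.1))) := g4
    exact comp_exists g5 (Computable.succ.comp Computable.fst)
  have hiff : ∀ k x, E' k x = true ↔ ∃ i < k + 1,
      EE (A i) (m i) (s i) (N i) k (x / 2 ^ (u' k - uu (m i) (N i k))) = true := by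
    intro k x
    simp only [hE', decide_eq_true_eq]
  have hmeas : ∀ k : ℕ, 0 ≤ k → ((k : ℝ) + 1) ^ 2 * U01.real (tset u' E' k) ≤ (1 : ℕ) := by
    intro k _
    have hsub : tset u' E' k ⊆ ⋃ i ∈ range (k + 1),
        tset (fun k => uu (m i) (N i k)) (EE (A i) (m i) (s i) (N i)) k := by
      intro t ht
      unfold tset at ht
      rw [Set.mem_ofPred_eq, hiff] at ht
      obtain ⟨i, hi, hi2⟩ := ht
      rw [dg_div (hu'ge k i hi)] at hi2
      exact Set.mem_biUnion (mem_coe.2 (mem_range.2 hi)) hi2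
    have h1 := (U01_mono hsub).trans (measureReal_biUnion_finset_le _ _)
    have h2 : ∀ i ∈ range (k + 1), U01.real (tset (fun k => uu (m i) (N i k))
        (EE (A i) (m i) (s i) (N i)) k) ≤ 1 / ((k : ℝ) + 1) ^ 3 := by
      intro i _
      rw [le_div_iff₀ (by positivity), mul_comm]
      exact EE_meas3 (A := A i) (m := m i) (s := s i) (N i) k
    have h3 := h1.trans (Finset.sum_le_sum h2)
    rw [Finset.sum_const, card_range, nsmul_eq_mul] at h3
    have h4 : ((k : ℝ) + 1) ^ 2 * U01.real (tset u' E' k) ≤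
        ((k : ℝ) + 1) ^ 2 * (((k + 1 : ℕ) : ℝ) * (1 / ((k : ℝ) + 1) ^ 3)) :=
      mul_le_mul_of_nonneg_left h3 (by positivity)
    refine h4.trans (le_of_eq ?_)
    push_cast
    field_simp
  obtain ⟨v, D, hT, hb⟩ := solovay (u := u') (E := E') (K := 1) (k0 := 0) hcu hcE hmeas
  refine ⟨v, D, hT, fun b hfin i => ?_⟩
  obtain ⟨k0, hk0⟩ := (hb b hfin).bddAbove
  refine law_of_pass (hN12 i).1 (hN12 i).2 (h i) hG (hV i) (k0 := k0 + i) fun k hk => ?_
  rw [← EE_num, ← Bool.not_eq_true]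
  intro hcon
  have h1 : E' k (num b (u' k)) = true := by
    rw [hiff]
    refine ⟨i, by omega, ?_⟩
    rw [num_div b (hu'ge k i (by omega))]
    exact hcon
  have := hk0 h1
  omega

end

end Pool.Agent.Helper88.EL
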