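import Mathlib
import Pool.Agent.Helper88.EL.Uni2
import Pool.Agent.Helper88.EL.Err4
import Pool.Graph.R_pool_sql_team_seeded_2aa45f1a.Q43.UN.Mer

set_option autoImplicit false

/-!
# Residue classes, plain digits and leading ones
-/

namespace Pool.Agent.Helper88.EL

open MeasureTheory Finset Filter Topology Asymptotics
open Pool.Agent.TH888.R (wt wt_nonneg wt_le_one VS VS_univ VS_univ_bound)
open Pool.Agent.Q43.UN (Cl mer Cl_div)

/-! ### residue classes -/

/-- the residue class `a` modulo `q` -/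
def cls (q a : ℕ) : ℕ → Bool := fun p => decide (p % q = a % q)

lemma comp_cls (q a : ℕ) : Computable (cls q a) :=
  comp_eq (comp_mod Computable.id (Computable.const q)) (Computable.const (a % q))

lemma V_cls (q a n : ℕ) : V (cls q a) n = VS (Cl q a) n := by
  classical
  unfold V VS
  rw [Finset.sum_filter]
  refine Finset.sum_congr rfl fun p _ => ?_
  have e : (p.Prime ∧ cls q a p = true) ↔ (p ∈ Cl q a ∧ p.Prime) := by
    unfold cls Cl
    rw [decide_eq_true_eq, Set.mem_ofPred_eq]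
    exact and_comm
  by_cases h : p ∈ Cl q a ∧ p.Prime
  · rw [if_pos h, if_pos (e.2 h)]
    rfl
  · rw [if_neg h, if_neg fun h1 => h (e.1 h1)]

lemma V_cls_tendsto {q a : ℕ} (hq : 1 ≤ q) (ha : a.Coprime q) :
    Tendsto (V (cls q a)) atTop atTop := by
  have e : V (cls q a) = VS (Cl q a) := funext fun n => V_cls q a n
  rw [e]
  exact Cl_div hq ha

lemma V_cls_log {q a : ℕ} (hq : 1 ≤ q) (ha : a.Coprime q) :
    Tendsto (fun n : ℕ => V (cls q a) n / Real.log n) atTop (𝓝 (1 / Nat.totient q)) := by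
  obtain ⟨C, hC0, hC⟩ := mer
  have hlog : Tendsto (fun n : ℕ => Real.log n) atTop atTop :=
    Real.tendsto_log_atTop.comp tendsto_natCast_atTop_atTop
  have h1 : Tendsto (fun n : ℕ => C / Real.log n) atTop (𝓝 0) := hlog.const_div_atTop C
  rw [tendsto_iff_dist_tendsto_zero]
  refine squeeze_zero' (Eventually.of_forall fun n => dist_nonneg) ?_ h1
  filter_upwards [hlog.eventually_gt_atTop 0, eventually_ge_atTop 1] with n hn hn1
  rw [Real.dist_eq, V_cls]
  have hφ0 : (0 : ℝ) < Nat.totient q := by exact_mod_cast Nat.totient_pos.2 hq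
  have e : VS (Cl q a) n / Real.log n - 1 / Nat.totient q =
      (VS (Cl q a) n - Real.log n / Nat.totient q) / Real.log n := by
    field_simp
  rw [e, abs_div, abs_of_pos hn]
  exact div_le_div_of_nonneg_right (hC q hq a ha n hn1) hn.le

/-- from `V` to the logarithm -/
lemma to_log_cls {F : ℕ → ℝ} {G : ℝ} {q a : ℕ} (hq : 1 ≤ q) (ha : a.Coprime q)
    (h : Tendsto (fun n => F n / V (cls q a) n) atTop (𝓝 G)) :
    Tendsto (fun n : ℕ => F n / Real.log n) atTop (𝓝 (G / Nat.totient q)) := by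
  have h1 := h.mul (V_cls_log hq ha)
  rw [mul_one_div] at h1
  refine h1.congr' ?_
  filter_upwards [(V_cls_tendsto hq ha).eventually_gt_atTop 0] with n hn
  field_simp

/-- the residue classes in a sequence -/
def seqs (s : ℕ → ℕ → Bool) (j : ℕ) : ℕ → Bool := fun p =>
  if j % 2 = 0 then s (j / 2) p else
    (cls (j / 2).unpair.1 (j / 2).unpair.2 p ||
      decide (∃ d < (j / 2).unpair.1 + 1, d ∣ (j / 2).unpair.1 ∧ d ∣ (j / 2).unpair.2 ∧ d ≠ 1) ||
      decide ((j / 2).unpair.1 = 0))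

lemma comp_seqs {s : ℕ → ℕ → Bool} (hs : Computable₂ s) : Computable₂ (seqs s) := by
  have g1 : Computable fun z : ℕ × ℕ => z.1 / 2 := comp_div Computable.fst (Computable.const 2)
  have g2 : Computable fun z : ℕ × ℕ => (z.1 / 2).unpair.1 :=
    Computable.fst.comp (Computable.unpair.comp g1)
  have g3 : Computable fun z : ℕ × ℕ => (z.1 / 2).unpair.2 :=
    Computable.snd.comp (Computable.unpair.comp g1)
  have g4 : Computable fun z : ℕ × ℕ => cls (z.1 / 2).unpair.1 (z.1 / 2).unpair.2 z.2 :=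
    comp_eq (comp_mod Computable.snd g2) (comp_mod g3 g2)
  have g5 : PrimrecRel fun (d : ℕ) (x : ℕ × ℕ) => d ∣ x.1 ∧ d ∣ x.2 ∧ d ≠ 1 := by
    have h1 : PrimrecPred fun z : ℕ × ℕ × ℕ => z.1 ∣ z.2.1 :=
      PrimrecRel.comp primrec_dvd Primrec.fst (Primrec.fst.comp Primrec.snd)
    have h2 : PrimrecPred fun z : ℕ × ℕ × ℕ => z.1 ∣ z.2.2 :=
      PrimrecRel.comp primrec_dvd Primrec.fst (Primrec.snd.comp Primrec.snd)
    have h3 : PrimrecPred fun z : ℕ × ℕ × ℕ => z.1 ≠ 1 :=
      (PrimrecRel.comp (Primrec.eq (α := ℕ)) Primrec.fst (Primrec.const 1)).not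
    exact h1.and (h2.and h3)
  have g6 : PrimrecPred fun x : ℕ × ℕ => ∃ d < x.1 + 1, d ∣ x.1 ∧ d ∣ x.2 ∧ d ≠ 1 :=
    PrimrecRel.comp (f := fun x : ℕ × ℕ => x.1 + 1) (g := fun x => x) (prel_exists_lt g5)
      (Primrec.succ.comp Primrec.fst) Primrec.id
  have g7 : Computable fun z : ℕ × ℕ => decide (∃ d < (z.1 / 2).unpair.1 + 1,
      d ∣ (z.1 / 2).unpair.1 ∧ d ∣ (z.1 / 2).unpair.2 ∧ d ≠ 1) :=
    g6.decide.to_comp.comp (Computable.pair g2 g3)
  have g8 : Computable fun z : ℕ × ℕ => decide ((z.1 / 2).unpair.1 = 0) :=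
    comp_eq g2 (Computable.const 0)
  have g9 : Computable fun z : ℕ × ℕ => s (z.1 / 2) z.2 := Computable₂.comp hs g1 Computable.snd
  have g10 : Computable fun z : ℕ × ℕ => decide (z.1 % 2 = 0) :=
    comp_eq (comp_mod Computable.fst (Computable.const 2)) (Computable.const 0)
  have g11 := Computable.cond g10 g9 (comp_or (comp_or g4 g7) g8)
  refine g11.of_eq fun z => ?_
  unfold seqs
  by_cases h : z.1 % 2 = 0 <;> simp [h]

lemma seqs_even (s : ℕ → ℕ → Bool) (i : ℕ) : seqs s (2 * i) = s i := by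
  funext p
  unfold seqs
  rw [if_pos (by omega), Nat.mul_div_cancel_left _ (by norm_num)]

lemma not_coprime {q a : ℕ} (hq : 1 ≤ q) : a.Coprime q ↔
    ¬ ∃ d < q + 1, d ∣ q ∧ d ∣ a ∧ d ≠ 1 := by
  constructor
  · rintro h ⟨d, -, h1, h2, h3⟩
    exact h3 (Nat.dvd_one.1 (h ▸ Nat.dvd_gcd h2 h1))
  · intro h
    by_contra hcon
    exact h ⟨a.gcd q, Nat.lt_succ_of_le (Nat.gcd_le_right a hq), Nat.gcd_dvd_right a q,
      Nat.gcd_dvd_left a q, hcon⟩

lemma seqs_odd (s : ℕ → ℕ → Bool) (q a : ℕ) : (1 ≤ q ∧ a.Coprime q →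
    seqs s (2 * Nat.pair q a + 1) = cls q a) ∧ (¬ (1 ≤ q ∧ a.Coprime q) →
    seqs s (2 * Nat.pair q a + 1) = al) := by
  have e1 : (2 * Nat.pair q a + 1) / 2 = Nat.pair q a := by omega
  have e2 : ¬ (2 * Nat.pair q a + 1) % 2 = 0 := by omega
  constructor
  · rintro ⟨hq, ha⟩
    funext p
    unfold seqs
    rw [if_neg e2, e1, Nat.unpair_pair]
    simp only
    rw [decide_eq_false ((not_coprime hq).1 ha), decide_eq_false (by omega)]
    simp
  · intro h
    funext p
    unfold seqs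
    rw [if_neg e2, e1, Nat.unpair_pair]
    simp only
    rcases Nat.eq_zero_or_pos q with h0 | h0
    · rw [decide_eq_true h0]
      simp
    · have h1 : ¬ a.Coprime q := fun h2 => h ⟨h0, h2⟩
      rw [not_coprime h0, not_not] at h1
      rw [decide_eq_true h1]
      simp

lemma seqs_V {s : ℕ → ℕ → Bool} (hV : ∀ i, Tendsto (V (s i)) atTop atTop) (j : ℕ) :
    Tendsto (V (seqs s j)) atTop atTop := by
  rcases Nat.even_or_odd' j with ⟨i, rfl | rfl⟩
  · rw [seqs_even]
    exact hV i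
  · obtain ⟨q, a, rfl⟩ : ∃ q a, i = Nat.pair q a := ⟨i.unpair.1, i.unpair.2, by simp⟩
    by_cases h : 1 ≤ q ∧ a.Coprime q
    · rw [(seqs_odd s q a).1 h]
      exact V_cls_tendsto h.1 h.2
    · rw [(seqs_odd s q a).2 h]
      exact V_univ_tendsto

/-! ### computable sequences of families -/

theorem lead_testU {A m : ℕ → ℕ → ℕ} {s : ℕ → ℕ → Bool} (hA : Computable₂ A) (hm : Computable₂ m)
    (hs : Computable₂ s) (h : ∀ i, Lead (A i) (m i))
    (hbig : ∀ i, ∀ δ : ℝ, 0 < δ → ∀ᶠ p : ℕ in atTop, (1 - δ) * p ≤ m i p)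
    (hV : ∀ i, Tendsto (V (s i)) atTop atTop) :
    Testable (fun b => ∀ i,
      Tendsto (fun n => (M (fun p => A i p + num b (m i p)) (s i) n : ℝ) / V (s i) n) atTop
      (𝓝 cG)) := by
  have hdev : ∀ i, Dev (A i) (m i) (s i) wt cG := fun i ε hε hε1 => by
    obtain ⟨δ, hδ, -, h1⟩ := dev_fam ε hε hε1
    exact (h1 (A i) (m i) (h i).fam (hbig i δ hδ)).2 (s i)
  refine (law_testU hA hm hs hdev cG_pos fun i => Vw_shift (hV i)).mono fun b hb i => ?_
  have h1 := (tendsto_add_atTop_iff_nat 1).2 (hb i)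
  refine h1.congr fun n => ?_
  rw [M_eq, V_eq]

theorem plain_testU {a k : ℕ} (ha : 1 ≤ a) {s : ℕ → ℕ → Bool} (hs : Computable₂ s)
    (hV : ∀ i, Tendsto (V (s i)) atTop atTop) :
    Testable (fun b => num b k = a →
      ∀ i, Tendsto (fun n => (M (num b) (s i) n : ℝ) / V (s i) n) atTop (𝓝 cG)) := by
  have hL := lead_plain (k := k) ha
  have h1 := lead_testU (A := fun _ p => a * 2 ^ (p - k)) (m := fun _ p => p - k)
    (hL.cA.comp Computable.snd) (hL.cm.comp Computable.snd) hs (fun _ => hL)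
    (fun _ => big_plain k) hV
  refine (h1.tail k).mono fun b hb hk i => ?_
  refine tendsto_close (k := k) (fun n => M_close' (fun p hp => ?_) (s i) n) (hV i) (hb i)
  rw [plain_eq b hp, hk]

/-! ### the error term for plain digits -/

lemma big_plainK {κ : ℝ} (hκ : 0 < κ) (k : ℕ) : Big κ (fun p => p - k) := by
  have h1 : Tendsto (fun p : ℕ => Real.log p / p) atTop (𝓝 0) := by
    have h5 : Tendsto (fun x : ℝ => Real.log x / x) atTop (𝓝 0) := by
      have := Real.tendsto_pow_log_div_mul_add_atTop 1 0 1 one_ne_zero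
      simpa using this
    exact h5.comp tendsto_natCast_atTop_atTop
  have h2 : ∀ᶠ p : ℕ in atTop, Real.log p / p < κ / (k + 1) :=
    h1.eventually (gt_mem_nhds (by positivity))
  unfold Big
  filter_upwards [h2, eventually_ge_atTop k, eventually_ge_atTop 2] with p hp1 hp2 hp3
  rw [Nat.cast_sub hp2]
  have hp0 : (2 : ℝ) ≤ p := by exact_mod_cast hp3
  have hlp : 0 < Real.log p := Real.log_pos (by linarith)
  have h3 : (k : ℝ) ≤ κ * p / Real.log p := by
    rw [le_div_iff₀ hlp]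
    rw [div_lt_div_iff₀ (by linarith) (by positivity)] at hp1
    nlinarith
  linarith

lemma bigO_close {F F' : ℕ → ℝ} {k : ℝ} (h : ∀ n, |F n - F' n| ≤ k)
    (hF : (fun n : ℕ => F' n - cG * Real.log n) =O[atTop] fun n : ℕ =>
      Real.sqrt (Real.log n) * (Real.log (Real.log n)) ^ ((5 : ℝ) / 2)) :
    (fun n : ℕ => F n - cG * Real.log n) =O[atTop] fun n : ℕ =>
      Real.sqrt (Real.log n) * (Real.log (Real.log n)) ^ ((5 : ℝ) / 2) := by
  have hlog : Tendsto (fun n : ℕ => Real.log n) atTop atTop :=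
    Real.tendsto_log_atTop.comp tendsto_natCast_atTop_atTop
  have hll : Tendsto (fun n : ℕ => Real.log (Real.log n)) atTop atTop :=
    Real.tendsto_log_atTop.comp hlog
  have h1 : (fun n : ℕ => F n - F' n) =O[atTop] fun n : ℕ =>
      Real.sqrt (Real.log n) * (Real.log (Real.log n)) ^ ((5 : ℝ) / 2) := by
    refine IsBigO.of_bound |k| ?_
    filter_upwards [hlog.eventually_ge_atTop 1, hll.eventually_ge_atTop 1] with n h2 h3
    have h4 : 1 ≤ Real.sqrt (Real.log n) := Real.one_le_sqrt.2 h2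
    have h5 : 1 ≤ Real.log (Real.log n) ^ ((5 : ℝ) / 2) := Real.one_le_rpow h3 (by norm_num)
    rw [Real.norm_eq_abs, Real.norm_of_nonneg (by positivity)]
    have h6 : 1 ≤ Real.sqrt (Real.log n) * Real.log (Real.log n) ^ ((5 : ℝ) / 2) := by nlinarith
    exact ((h n).trans (le_abs_self k)).trans (le_mul_of_one_le_right (abs_nonneg k) h6)
  refine (h1.add hF).congr_left fun n => ?_
  ring

theorem plain_err {a k : ℕ} (ha : 1 ≤ a) :
    Testable (fun b => num b k = a → (fun n : ℕ => (M (num b) al n : ℝ) -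
      cG * Real.log n) =O[atTop] fun n : ℕ =>
        Real.sqrt (Real.log n) * (Real.log (Real.log n)) ^ ((5 : ℝ) / 2)) := by
  obtain ⟨κ, hκ, h⟩ := err_test
  refine ((h _ _ (lead_plain (k := k) ha) (big_plainK hκ k)).tail k).mono fun b hb hk => ?_
  refine bigO_close (k := k) (fun n => M_close' (fun p hp => ?_) al n) hb
  rw [plain_eq b hp, hk]

theorem plain_err_schnorr {b : ℕ → Bool} (hb : Schnorr b) :
    (fun n : ℕ => (M (num b) al n : ℝ) - cG * Real.log n) =O[atTop] fun n : ℕ =>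
      Real.sqrt (Real.log n) * (Real.log (Real.log n)) ^ ((5 : ℝ) / 2) := by
  obtain ⟨k, hk⟩ := hb.one
  exact (plain_err hk).schnorr hb rfl

end Pool.Agent.Helper88.EL
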