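import Mathlib
import Pool.Agent.Helper88.EL.Prog

set_option autoImplicit false

/-!
# Leading ones
-/

namespace Pool.Agent.Helper88.EL

open MeasureTheory Finset Filter Topology Asymptotics

lemma comp_log : Computable fun p : ℕ => Nat.log 2 p := by
  have hex : ∀ p : ℕ, ∃ k, decide (p < 2 ^ (k + 1)) = true := fun p =>
    ⟨p, by
      rw [decide_eq_true_eq]
      exact Nat.lt_two_pow_self.trans_le (Nat.pow_le_pow_right (by norm_num) (Nat.le_succ p))⟩
  have hP : Computable₂ fun (p k : ℕ) => decide (p < 2 ^ (k + 1)) :=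
    comp_lt Computable.fst (comp_pow2 (Computable.succ.comp Computable.snd))
  refine (comp_findα hP hex).of_eq fun p => ?_
  rw [Nat.find_eq_iff]
  constructor
  · rw [decide_eq_true_eq]
    exact Nat.lt_pow_succ_log_self (by norm_num) p
  · intro k hk
    rw [decide_eq_true_eq, not_lt]
    exact Nat.pow_le_of_le_log (by
      rintro rfl
      simp at hk) hk

lemma comp_free (h : ℕ) : Computable (free h) :=
  comp_sub Computable.id (comp_div Computable.id
    (comp_mul (Computable.const h) (Computable.succ.comp comp_log)))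

lemma free_mono {h : ℕ} (hh : 0 < h) (p : ℕ) : free h p ≤ free h (p + 1) := by
  unfold free
  have h1 : Nat.log 2 p ≤ Nat.log 2 (p + 1) := Nat.log_mono_right (Nat.le_succ p)
  have h2 : h * (Nat.log 2 p + 1) ≤ h * (Nat.log 2 (p + 1) + 1) :=
    Nat.mul_le_mul_left _ (by omega)
  have h3 : 0 < h * (Nat.log 2 p + 1) := by positivity
  have h4 : (p + 1) / (h * (Nat.log 2 (p + 1) + 1)) ≤ (p + 1) / (h * (Nat.log 2 p + 1)) :=
    Nat.div_le_div_left h2 h3
  have h5 : (p + 1) / (h * (Nat.log 2 p + 1)) ≤ p / (h * (Nat.log 2 p + 1)) + 1 := by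
    calc (p + 1) / (h * (Nat.log 2 p + 1)) ≤
          (p + h * (Nat.log 2 p + 1)) / (h * (Nat.log 2 p + 1)) :=
          Nat.div_le_div_right (by omega)
      _ = p / (h * (Nat.log 2 p + 1)) + 1 := Nat.add_div_right _ h3
  omega

lemma log_real (p : ℕ) (hp : 1 ≤ p) : Real.log p ≤ ((Nat.log 2 p : ℝ) + 1) * Real.log 2 := by
  have h1 : p ≤ 2 ^ (Nat.log 2 p + 1) := (Nat.lt_pow_succ_log_self (by norm_num) p).le
  have h2 : (p : ℝ) ≤ 2 ^ (Nat.log 2 p + 1) := by exact_mod_cast h1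
  have h3 := Real.log_le_log (by exact_mod_cast hp) h2
  rw [Real.log_pow] at h3
  push_cast at h3
  exact h3

lemma log_real' (p : ℕ) (hp : 1 ≤ p) : (Nat.log 2 p : ℝ) * Real.log 2 ≤ Real.log p := by
  have h1 : 2 ^ Nat.log 2 p ≤ p := Nat.pow_log_le_self 2 (by omega)
  have h2 : (2 : ℝ) ^ Nat.log 2 p ≤ p := by exact_mod_cast h1
  have h3 := Real.log_le_log (by positivity) h2
  rw [Real.log_pow] at h3
  exact h3

lemma tendsto_log_div : Tendsto (fun p : ℕ => Real.log p / p) atTop (𝓝 0) := by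
  have h5 : Tendsto (fun x : ℝ => Real.log x / x) atTop (𝓝 0) := by
    have := Real.tendsto_pow_log_div_mul_add_atTop 1 0 1 one_ne_zero
    simpa using this
  exact h5.comp tendsto_natCast_atTop_atTop

/-- there are leading ones -/
lemma free_lt (h : ℕ) : ∀ᶠ p : ℕ in atTop, free h p + 1 ≤ p ∨ h = 0 := by
  rcases Nat.eq_zero_or_pos h with h0 | h0
  · exact Eventually.of_forall fun p => Or.inr h0
  have h1 : ∀ᶠ p : ℕ in atTop, Real.log p / p < 1 / (4 * h) :=
    tendsto_log_div.eventually (gt_mem_nhds (by positivity))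
  filter_upwards [h1, eventually_ge_atTop (2 * h + 2)] with p hp1 hp2
  left
  have hp0 : (0 : ℝ) < p := by exact_mod_cast (by omega : 0 < p)
  have hh : (0 : ℝ) < h := by exact_mod_cast h0
  rw [div_lt_div_iff₀ hp0 (by positivity)] at hp1
  have h2 := log_real' p (by omega)
  have h3 := Real.log_two_gt_d9
  have h5 : (2 * (h : ℝ) + 2) ≤ p := by exact_mod_cast hp2
  have h6 : (0 : ℝ) ≤ Nat.log 2 p := Nat.cast_nonneg _
  have h4 : (h : ℝ) * ((Nat.log 2 p : ℝ) + 1) ≤ p := by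
    have h7 : (Nat.log 2 p : ℝ) ≤ 2 * Real.log p := by nlinarith
    nlinarith
  have h7 : h * (Nat.log 2 p + 1) ≤ p := by exact_mod_cast h4
  have h8 : 1 ≤ p / (h * (Nat.log 2 p + 1)) := (Nat.one_le_div_iff (by positivity)).2 h7
  unfold free
  have h9 : p / (h * (Nat.log 2 p + 1)) ≤ p := Nat.div_le_self _ _
  omega

lemma lead_ones {h : ℕ} (hh : 0 < h) : Lead (fun p => 2 ^ p - 2 ^ free h p) (free h) := by
  have hev : ∀ᶠ p in atTop, 2 ^ free h p ≤ 2 ^ (p - 1) ∧ 2 ^ p = 2 * 2 ^ (p - 1) := by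
    filter_upwards [free_lt h, eventually_ge_atTop 1] with p hp hp1
    have h1 : free h p ≤ p - 1 := by omega
    refine ⟨Nat.pow_le_pow_right (by norm_num) h1, ?_⟩
    rw [← pow_succ']
    congr 1
    omega
  refine ⟨comp_sub (comp_pow2 Computable.id) (comp_pow2 (comp_free h)), comp_free h,
    Eventually.of_forall (free_mono hh), ⟨2, ?_⟩, ?_⟩
  · filter_upwards [hev] with p hp
    obtain ⟨h1, h2⟩ := hp
    have h3 : 2 ^ p ≤ 2 * (2 ^ p - 2 ^ free h p) := by
      generalize 2 ^ free h p = x at h1 ⊢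
      generalize 2 ^ p = y at h2 ⊢
      omega
    exact ⟨h3, (Nat.sub_le _ _).trans (Nat.le_mul_of_pos_left _ (by norm_num))⟩
  · filter_upwards [hev] with p hp
    obtain ⟨h1, h2⟩ := hp
    show 2 ^ free h p ≤ 2 ^ p - 2 ^ free h p
    generalize 2 ^ free h p = x at h1 ⊢
    generalize 2 ^ p = y at h2 ⊢
    omega

lemma big_ones {κ : ℝ} {h : ℕ} (hh : 0 < h) (hκ : Real.log 2 ≤ κ * h) : Big κ (free h) := by
  unfold Big
  filter_upwards [eventually_ge_atTop 2] with p hp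
  unfold free
  have hp2 : (2 : ℝ) ≤ p := by exact_mod_cast hp
  have hlp : 0 < Real.log p := Real.log_pos (by linarith)
  have hh' : (0 : ℝ) < h := by exact_mod_cast hh
  rw [Nat.cast_sub (Nat.div_le_self _ _)]
  have h1 : ((p / (h * (Nat.log 2 p + 1)) : ℕ) : ℝ) ≤ p / (h * ((Nat.log 2 p : ℝ) + 1)) := by
    refine Nat.cast_div_le.trans (le_of_eq ?_)
    push_cast
    rfl
  have h2 := log_real p (by omega)
  have h3 : (p : ℝ) / (h * ((Nat.log 2 p : ℝ) + 1)) ≤ κ * p / Real.log p := by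
    rw [div_le_div_iff₀ (by positivity) hlp]
    have h4 : (0 : ℝ) ≤ (Nat.log 2 p : ℝ) + 1 := by positivity
    calc (p : ℝ) * Real.log p ≤ p * (((Nat.log 2 p : ℝ) + 1) * Real.log 2) := by gcongr
      _ ≤ p * (((Nat.log 2 p : ℝ) + 1) * (κ * h)) := by gcongr
      _ = _ := by ring
  linarith

lemma hbig_of_Big {κ : ℝ} {m : ℕ → ℕ} (h : Big κ m) :
    ∀ δ : ℝ, 0 < δ → ∀ᶠ p : ℕ in atTop, (1 - δ) * p ≤ m p := by
  intro δ hδ
  have hlog : Tendsto (fun n : ℕ => Real.log n) atTop atTop :=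
    Real.tendsto_log_atTop.comp tendsto_natCast_atTop_atTop
  filter_upwards [h, hlog.eventually_ge_atTop (κ / δ), hlog.eventually_gt_atTop 0] with p h1 h2 h3
  have h4 : κ * p / Real.log p ≤ δ * p := by
    rw [div_le_iff₀ h3]
    rw [div_le_iff₀ hδ] at h2
    have : (0 : ℝ) ≤ p := Nat.cast_nonneg p
    nlinarith
  linarith

/-- **The error term with leading ones.** -/
theorem ones_err : ∃ h0 : ℕ, 0 < h0 ∧ ∀ h ≥ h0, Testable (fun b =>
    (fun n : ℕ => (M (ones h b) al n : ℝ) - cG * Real.log n) =O[atTop] fun n : ℕ =>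
        Real.sqrt (Real.log n) * (Real.log (Real.log n)) ^ ((5 : ℝ) / 2)) := by
  obtain ⟨κ, hκ, h⟩ := err_test
  obtain ⟨h0, hh0⟩ := exists_nat_gt (Real.log 2 / κ)
  have hpos : 0 < h0 := by
    have h1 : 0 < Real.log 2 / κ := div_pos (Real.log_pos (by norm_num)) hκ
    have : (0 : ℝ) < h0 := h1.trans hh0
    exact_mod_cast this
  refine ⟨h0, hpos, fun h' hh' => ?_⟩
  refine h _ _ (lead_ones (h := h') (by omega)) (big_ones (by omega) ?_)
  rw [div_lt_iff₀ hκ] at hh0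
  have h1 : (h0 : ℝ) ≤ h' := by exact_mod_cast hh'
  nlinarith

/-- the leading digits of these integers -/
lemma ones_lead {h : ℕ} (b : ℕ → Bool) (p : ℕ) :
    ones h b p / 2 ^ free h p = (2 ^ p - 1) / 2 ^ free h p ∧ ones h b p < 2 ^ p := by
  have hf : free h p ≤ p := Nat.sub_le _ _
  unfold ones
  set f := free h p
  have hx := num_lt b f
  obtain ⟨k, hk⟩ := Nat.exists_eq_add_of_le hf
  rw [hk]
  have e : 2 ^ (f + k) = 2 ^ f * 2 ^ k := pow_add 2 f k
  have hpos : 0 < 2 ^ f := by positivity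
  have hk1 : 1 ≤ 2 ^ k := Nat.one_le_two_pow
  obtain ⟨j, hj⟩ : ∃ j, 2 ^ k = j + 1 := ⟨2 ^ k - 1, by omega⟩
  have e2 : 2 ^ (f + k) = 2 ^ f * j + 2 ^ f := by rw [e, hj]; ring
  have h2 : 2 ^ (f + k) - 2 ^ f + num b f = 2 ^ f * j + num b f := by omega
  have h3 : 2 ^ (f + k) - 1 = 2 ^ f * j + (2 ^ f - 1) := by omega
  rw [h2, h3]
  constructor
  · rw [Nat.mul_add_div hpos, Nat.mul_add_div hpos, Nat.div_eq_of_lt hx,
      Nat.div_eq_of_lt (by omega)]
  · omega

end Pool.Agent.Helper88.EL
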